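import Pool.Agent.Lib.H45O.Wiener

/-!
# The finite set of the frequencies
-/

namespace H45O

open Finset Complex MeasureTheory Filter Topology

noncomputable local instance instMSCircle4 : MeasurableSpace Circle := borel Circle

local instance instBSCircle4 : BorelSpace Circle := ⟨rfl⟩

theorem core_ev (G : ℕ → ℕ) (r b : ℕ) (δ : ℝ) (hδ1 : δ < 1 / 3)
    (hδ : ∀ᶠ N : ℕ in atTop, (((Ioc 0 N).filter (fun a => ¬ G a < 2 ^ b)).card : ℝ) ≤ δ * N)
    (ν : Finset ℕ → FiniteMeasure Circle) (hν : ∀ W, (ν W).mass ≤ 1)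
    (hrel : ∀ l : ℕ,
      ∑ W ∈ (range b).powerset.erase ∅, ∫ z, fl G b r l W z ∂(ν W : Measure Circle) ≤
        -(((((Ioc 0 l).filter (fun a => G a < 2 ^ b)).card : ℕ) : ℝ) * (1 - 2 * δ)))
    (κ : ℝ) (hκ : κ * 2 ^ b = 1 - 3 * δ) :
    ∀ᶠ l : ℕ in atTop, ∑ W ∈ (range b).powerset.erase ∅,
      ∫ z, hl G b r κ W l z ∂(ν W : Measure Circle) ≤ -κ := by
  have h2b : (0 : ℝ) < 2 ^ b := by positivity
  have hκ0 : 0 < κ := by
    by_contra hc
    push Not at hc
    nlinarith
  have hcard : ((((range b).powerset.erase ∅).card : ℕ) : ℝ) = 2 ^ b - 1 := by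
    rw [Finset.card_erase_of_mem (Finset.empty_mem_powerset _), Finset.card_powerset,
      Finset.card_range, Nat.cast_sub Nat.one_le_two_pow]
    push_cast
    ring
  filter_upwards [hδ, eventually_ge_atTop 1] with l h1 h2
  have hl0 : (0 : ℝ) < l := by exact_mod_cast h2
  have h3 : ∀ W ∈ (range b).powerset.erase ∅,
      ∫ z, hl G b r κ W l z ∂(ν W : Measure Circle) ≤
      (∫ z, fl G b r l W z ∂(ν W : Measure Circle)) / l + κ := by
    intro W _
    have h4 : ∫ z, hl G b r κ W l z ∂(ν W : Measure Circle) ≤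
        ∫ z, (fl G b r l W z / l + κ) ∂(ν W : Measure Circle) := by
      apply integral_mono (integ _ _ (continuous_hl G b r κ W l))
        (integ _ _ (((continuous_fl G b r l W).div_const _).add continuous_const))
      intro z
      exact min_le_left _ _
    rw [integral_add (integ _ _ ((continuous_fl G b r l W).div_const _))
      (integ _ _ continuous_const), integral_div, integral_const, smul_eq_mul] at h4
    refine h4.trans ?_
    have h5 : (ν W : Measure Circle).real Set.univ ≤ 1 := by
      have h6 := hν W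
      have h7 : (ν W : Measure Circle).real Set.univ = ((ν W).mass : ℝ) := rfl
      rw [h7]
      exact_mod_cast h6
    nlinarith
  have h4 := Finset.sum_le_sum h3
  rw [Finset.sum_add_distrib, ← Finset.sum_div, Finset.sum_const, nsmul_eq_mul, hcard] at h4
  have h5 : (∑ W ∈ (range b).powerset.erase ∅, ∫ z, fl G b r l W z ∂(ν W : Measure Circle)) / l
      ≤ -(1 - 3 * δ) := by
    rw [div_le_iff₀ hl0]
    refine (hrel l).trans ?_
    have h6 : ((Ioc 0 l).filter (fun a => G a < 2 ^ b)).card +
        ((Ioc 0 l).filter (fun a => ¬ G a < 2 ^ b)).card = (Ioc 0 l).card :=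
      Finset.card_filter_add_card_filter_not (s := Ioc 0 l) (fun a => G a < 2 ^ b)
    rw [Nat.card_Ioc] at h6
    have h7 : (((Ioc 0 l).filter (fun a => G a < 2 ^ b)).card : ℝ) +
        (((Ioc 0 l).filter (fun a => ¬ G a < 2 ^ b)).card : ℝ) = l := by
      exact_mod_cast (by omega : ((Ioc 0 l).filter (fun a => G a < 2 ^ b)).card +
        ((Ioc 0 l).filter (fun a => ¬ G a < 2 ^ b)).card = l)
    have h8 : (1 - δ) * l ≤ (((Ioc 0 l).filter (fun a => G a < 2 ^ b)).card : ℝ) := by
      linarith
    have h9 : ((1 - δ) * l) * (1 - 2 * δ) ≤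
        (((Ioc 0 l).filter (fun a => G a < 2 ^ b)).card : ℝ) * (1 - 2 * δ) :=
      mul_le_mul_of_nonneg_right h8 (by linarith)
    nlinarith [h9, mul_nonneg hl0.le (sq_nonneg δ)]
  nlinarith [h4, h5]

/-- The points of mass at least `ε`. -/
theorem atoms_finite (ν : FiniteMeasure Circle) (hν : ν.mass ≤ 1) (ε : ℝ) (hε : 0 < ε) :
    ∃ T : Finset Circle, (T.card : ℝ) ≤ 1 / ε ∧
      (∀ z ∈ T, ε ≤ (ν : Measure Circle).real {z}) ∧
      ∀ z : Circle, z ∉ T → (ν : Measure Circle) {z} ≤ ENNReal.ofReal ε := by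
  classical
  have hone : (ν : Measure Circle).real Set.univ ≤ 1 := by
    have h7 : (ν : Measure Circle).real Set.univ = (ν.mass : ℝ) := rfl
    rw [h7]
    exact_mod_cast hν
  have hbound : ∀ T : Finset Circle, (∀ z ∈ T, ε ≤ (ν : Measure Circle).real {z}) →
      (T.card : ℝ) ≤ 1 / ε := by
    intro T hT
    have h1 : ∑ z ∈ T, ε ≤ ∑ z ∈ T, (ν : Measure Circle).real {z} := Finset.sum_le_sum hT
    have h2 : ∑ z ∈ T, (ν : Measure Circle).real {z} = (ν : Measure Circle).real (T : Set Circle) := by
      rw [← measureReal_biUnion_finset (fun x _ y _ hxy => by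
        rw [Function.onFun, Set.disjoint_singleton]; exact hxy) (fun z _ => MeasurableSet.singleton z)]
      congr 1
      ext z
      simp
    have h3 : (ν : Measure Circle).real (T : Set Circle) ≤ (ν : Measure Circle).real Set.univ :=
      measureReal_mono (Set.subset_univ _)
    rw [Finset.sum_const, nsmul_eq_mul] at h1
    rw [le_div_iff₀ hε]
    linarith
  have hfin : {z : Circle | ε ≤ (ν : Measure Circle).real {z}}.Finite := by
    by_contra hinf
    obtain ⟨T, hT1, hT2⟩ := Set.Infinite.exists_subset_card_eq hinf (⌈1 / ε⌉₊ + 1)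
    have h1 := hbound T (fun z hz => hT1 hz)
    rw [hT2] at h1
    have h2 := Nat.le_ceil (1 / ε)
    push_cast at h1
    linarith
  refine ⟨hfin.toFinset, hbound _ (fun z hz => (Set.Finite.mem_toFinset hfin).mp hz),
    (fun z hz => (Set.Finite.mem_toFinset hfin).mp hz), ?_⟩
  intro z hz
  rw [Set.Finite.mem_toFinset] at hz
  have h1 : (ν : Measure Circle).real {z} < ε := not_le.mp hz
  rw [← ENNReal.ofReal_toReal (measure_ne_top (ν : Measure Circle) {z})]
  exact ENNReal.ofReal_le_ofReal h1.le

/-- The finite set of frequencies. -/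
theorem multi (G : ℕ → ℕ) (r b : ℕ) (δ : ℝ) (hδ1 : δ < 1 / 3)
    (hδ : ∀ᶠ N : ℕ in atTop, (((Ioc 0 N).filter (fun a => ¬ G a < 2 ^ b)).card : ℝ) ≤ δ * N)
    (κ : ℝ) (hκ : κ * 2 ^ b = 1 - 3 * δ) (τ : ℝ) (hτ : τ * 2 ^ b = κ)
    (ν : Finset ℕ → FiniteMeasure Circle) (hν : ∀ W, (ν W).mass ≤ 1)
    (hrel : ∀ l : ℕ,
      ∑ W ∈ (range b).powerset.erase ∅, ∫ z, fl G b r l W z ∂(ν W : Measure Circle) ≤
        -(((((Ioc 0 l).filter (fun a => G a < 2 ^ b)).card : ℕ) : ℝ) * (1 - 2 * δ))) :
    ∃ Θ : Finset (Finset ℕ × Circle), (Θ.card : ℝ) ≤ 2 * 32 ^ b / (1 - 3 * δ) ^ 2 ∧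
      (∀ t ∈ Θ, t.1 ∈ (range b).powerset.erase ∅) ∧
      (∀ᶠ l : ℕ in atTop, ∃ t ∈ Θ, fl G b r l t.1 t.2 ≤ -(κ * l)) ∧
      ∀ t ∈ Θ, τ ^ 2 / 2 ≤ (ν t.1 : Measure Circle).real {t.2} := by
  classical
  have h2b : (0 : ℝ) < 2 ^ b := by positivity
  have h3δ : 0 < 1 - 3 * δ := by linarith
  have hκ0 : 0 < κ := by
    by_contra hc
    push Not at hc
    nlinarith
  have hτ0 : 0 < τ := by
    by_contra hc
    push Not at hc
    nlinarith
  have hat := fun W => atoms_finite (ν W) (hν W) (τ ^ 2 / 2) (by positivity)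
  choose T hT1 hT3 hT2 using hat
  have hcard : ((((range b).powerset.erase ∅).card : ℕ) : ℝ) = 2 ^ b - 1 := by
    rw [Finset.card_erase_of_mem (Finset.empty_mem_powerset _), Finset.card_powerset,
      Finset.card_range, Nat.cast_sub Nat.one_le_two_pow]
    push_cast
    ring
  refine ⟨((range b).powerset.erase ∅).biUnion (fun W => (T W).image (fun z => (W, z))),
    ?_, ?_, ?_, ?_⟩
  · have h1 : (((((range b).powerset.erase ∅).biUnion
        (fun W => (T W).image (fun z => (W, z)))).card : ℕ) : ℝ) ≤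
        ∑ W ∈ (range b).powerset.erase ∅, ((T W).card : ℝ) := by
      have h2 := (Finset.card_biUnion_le (s := (range b).powerset.erase ∅)
        (t := fun W => (T W).image (fun z => (W, z)))).trans
        (Finset.sum_le_sum fun W _ => Finset.card_image_le)
      exact_mod_cast h2
    refine h1.trans ((Finset.sum_le_sum fun W _ => hT1 W).trans ?_)
    rw [Finset.sum_const, nsmul_eq_mul, hcard]
    have h5 : (1 : ℝ) / (τ ^ 2 / 2) = 2 * (2 ^ b) ^ 4 / (1 - 3 * δ) ^ 2 := by
      rw [← hκ, ← hτ]
      field_simp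
    rw [h5]
    have h6 : (32 : ℝ) ^ b = 2 ^ b * (2 ^ b) ^ 4 := by
      rw [← pow_succ', ← pow_mul, mul_comm b, pow_mul]
      norm_num
    rw [h6]
    have h7 : (0 : ℝ) ≤ 2 * (2 ^ b) ^ 4 / (1 - 3 * δ) ^ 2 := by positivity
    calc ((2 : ℝ) ^ b - 1) * (2 * (2 ^ b) ^ 4 / (1 - 3 * δ) ^ 2)
        ≤ 2 ^ b * (2 * (2 ^ b) ^ 4 / (1 - 3 * δ) ^ 2) :=
          mul_le_mul_of_nonneg_right (by linarith) h7
      _ = _ := by ring
  · intro t ht
    rw [Finset.mem_biUnion] at ht
    obtain ⟨W, hW, hW2⟩ := ht
    rw [Finset.mem_image] at hW2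
    obtain ⟨z, _, hz⟩ := hW2
    rw [← hz]
    exact hW
  · have hwien : ∀ W ∈ (range b).powerset.erase ∅, ∀ᶠ l : ℕ in atTop,
        ∫ z, |fl G b r l W z / l| ∂((ν W : Measure Circle).restrict ((T W : Set Circle)ᶜ)) ≤ τ := by
      intro W _
      have hTm : MeasurableSet ((T W : Set Circle)ᶜ) := (T W).measurableSet.compl
      obtain ⟨t, ht1, ht2⟩ := kern_integral ((ν W : Measure Circle).restrict ((T W : Set Circle)ᶜ))
        (τ ^ 2 / 2) (by positivity) (by
          rw [Measure.restrict_apply_univ]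
          refine (measure_mono (Set.subset_univ _)).trans ?_
          have h1 : (ν W : Measure Circle) Set.univ = ((ν W).mass : ENNReal) := by
            rw [FiniteMeasure.ennreal_mass]
          rw [h1]
          exact_mod_cast hν W) (by
          intro z
          rw [Measure.restrict_apply (MeasurableSet.singleton z)]
          by_cases hz : z ∈ T W
          · have h1 : ({z} : Set Circle) ∩ (T W : Set Circle)ᶜ = ∅ := by
              ext w
              rw [Set.mem_inter_iff, Set.mem_singleton_iff, Set.mem_compl_iff, Finset.mem_coe]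
              constructor
              · rintro ⟨h2, h3⟩
                rw [h2] at h3
                exact absurd hz h3
              · intro h2
                exact absurd h2 (Set.notMem_empty w)
            rw [h1, measure_empty]
            exact bot_le
          · exact (measure_mono Set.inter_subset_left).trans (hT2 W z hz))
      have h3 : ∀ᶠ l : ℕ in atTop, ∫ p, kern l p ∂(((ν W : Measure Circle).restrict
          ((T W : Set Circle)ᶜ)).prod ((ν W : Measure Circle).restrict
          ((T W : Set Circle)ᶜ))) < τ ^ 2 :=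
        ht2.eventually (gt_mem_nhds (by nlinarith [sq_pos_of_pos hτ0]))
      filter_upwards [h3, eventually_ge_atTop 1] with l h4 h5
      refine (wiener_bound _ G b r l W h5 τ hτ0).trans ?_
      have h6 : (∫ p, kern l p ∂(((ν W : Measure Circle).restrict
          ((T W : Set Circle)ᶜ)).prod ((ν W : Measure Circle).restrict
          ((T W : Set Circle)ᶜ)))) / (2 * τ) ≤ τ ^ 2 / (2 * τ) :=
        div_le_div_of_nonneg_right h4.le (by positivity)
      have h7 : τ ^ 2 / (2 * τ) = τ / 2 := by field_simp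
      linarith
    have hall : ∀ᶠ l : ℕ in atTop, ∀ W ∈ (range b).powerset.erase ∅,
        ∫ z, |fl G b r l W z / l| ∂((ν W : Measure Circle).restrict ((T W : Set Circle)ᶜ)) ≤ τ :=
      (Filter.eventually_all_finset _).mpr hwien
    filter_upwards [core_ev G r b δ hδ1 hδ ν hν hrel κ hκ, hall, eventually_ge_atTop 1]
      with l h1 h2 h3
    by_contra hcon
    push Not at hcon
    have hl0 : (0 : ℝ) < l := by exact_mod_cast h3
    have h4 : ∀ W ∈ (range b).powerset.erase ∅,
        -τ ≤ ∫ z, hl G b r κ W l z ∂(ν W : Measure Circle) := by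
      intro W hW
      have hTm : MeasurableSet (T W : Set Circle) := (T W).measurableSet
      rw [← integral_add_compl hTm (integ _ _ (continuous_hl G b r κ W l))]
      have h5 : ∫ z in (T W : Set Circle), hl G b r κ W l z ∂(ν W : Measure Circle) = 0 := by
        apply setIntegral_eq_zero_of_forall_eq_zero
        intro z hz
        have h6 := hcon (W, z) (by
          rw [Finset.mem_biUnion]
          exact ⟨W, hW, Finset.mem_image.mpr ⟨z, hz, rfl⟩⟩)
        have h7 : -(κ * l) < fl G b r l W z := h6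
        unfold hl
        apply min_eq_right
        have h8 : -κ ≤ fl G b r l W z / l := by
          rw [le_div_iff₀ hl0]
          linarith
        linarith
      rw [h5, zero_add]
      have h6 : |∫ z in (T W : Set Circle)ᶜ, hl G b r κ W l z ∂(ν W : Measure Circle)| ≤ τ := by
        refine (abs_integral_le_integral_abs).trans (le_trans ?_ (h2 W hW))
        apply integral_mono (integ _ _ (continuous_hl G b r κ W l).abs)
          (integ _ _ ((continuous_fl G b r l W).div_const _).abs)
        intro z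
        exact abs_hl_le_abs G b r κ hκ0.le W l z
      exact (abs_le.mp h6).1
    have h5 := Finset.sum_le_sum h4
    rw [Finset.sum_const, nsmul_eq_mul, hcard] at h5
    nlinarith [h1, h5]
  · intro t ht
    rw [Finset.mem_biUnion] at ht
    obtain ⟨W, hW, hW2⟩ := ht
    rw [Finset.mem_image] at hW2
    obtain ⟨z, hz1, hz⟩ := hW2
    rw [← hz]
    exact hT3 W z hz1

end H45O
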