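import Pool.Agent.Lib.H45O.Scale

/-!
# Two functions: the bilinear inequality, the level measures, the relation
-/

namespace H45O

open Finset Complex MeasureTheory Filter Topology

noncomputable local instance instMSCircle8 : MeasurableSpace Circle := borel Circle

local instance instBSCircle8 : BorelSpace Circle := ⟨rfl⟩

/-- The bilinear form. -/
noncomputable def bil (M : ℕ) (r : ℕ) (P A : Finset ℕ) (x y : ℕ → ℝ) : ℝ :=
  ∑ m ∈ P, ∑ n ∈ P, ∑ a ∈ A, if ((n : ZMod M) = m + a + r) then x m * y n else 0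

theorem bil_le (M : ℕ) [NeZero M] (r : ℕ) (P A : Finset ℕ) (x y : ℕ → ℝ) :
    M * |bil M r P A x y| ≤ ∑ k : ZMod M, ‖hat M P x k‖ * ‖hat M P y k‖ *
      ‖∑ a ∈ A, (((ZMod.toCircle k) ^ a : Circle) : ℂ)‖ := by
  have h1 : ∀ k : ZMod M, (starRingEnd ℂ) (hat M P x k) * hat M P y k *
      (∑ a ∈ A, ZMod.stdAddChar (N := M) (-(k * ((a : ZMod M) + r))))
      = ∑ m ∈ P, ∑ n ∈ P, ∑ a ∈ A, ((x m * y n : ℝ) : ℂ) *
        ZMod.stdAddChar (N := M) (k * ((n : ZMod M) - (m + a + r))) := by
    intro k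
    rw [conj_hat]
    unfold hat
    rw [Finset.sum_mul_sum, Finset.sum_mul]
    refine Finset.sum_congr rfl fun m _ => ?_
    rw [Finset.sum_mul]
    refine Finset.sum_congr rfl fun n _ => ?_
    rw [Finset.mul_sum]
    refine Finset.sum_congr rfl fun a _ => ?_
    have : (ZMod.stdAddChar (N := M) (k * ((n : ZMod M) - (m + a + r))) : ℂ)
        = ZMod.stdAddChar (N := M) (-(k * (m : ZMod M))) *
          ZMod.stdAddChar (N := M) (k * (n : ZMod M)) *
          ZMod.stdAddChar (N := M) (-(k * ((a : ZMod M) + r))) := by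
      rw [← AddChar.map_add_eq_mul, ← AddChar.map_add_eq_mul]
      congr 1; ring
    rw [this]; push_cast; ring
  have h2 : ∑ k : ZMod M, (starRingEnd ℂ) (hat M P x k) * hat M P y k *
      (∑ a ∈ A, ZMod.stdAddChar (N := M) (-(k * ((a : ZMod M) + r))))
      = ((M * bil M r P A x y : ℝ) : ℂ) := by
    rw [Finset.sum_congr rfl fun k _ => h1 k, Finset.sum_comm]
    unfold bil
    push_cast
    rw [Finset.mul_sum]
    refine Finset.sum_congr rfl fun m _ => ?_
    rw [Finset.sum_comm, Finset.mul_sum]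
    refine Finset.sum_congr rfl fun n _ => ?_
    rw [Finset.sum_comm, Finset.mul_sum]
    refine Finset.sum_congr rfl fun a _ => ?_
    have h5 := Finset.mul_sum (Finset.univ : Finset (ZMod M))
      (fun k => (ZMod.stdAddChar (N := M) (k * ((n : ZMod M) - (m + a + r))) : ℂ))
      (x m * y n : ℂ)
    rw [← h5, sum_char]
    by_cases h : (n : ZMod M) = m + a + r
    · rw [if_pos h, if_pos (sub_eq_zero.mpr h)]; push_cast; ring
    · rw [if_neg h, if_neg (fun h0 => h (sub_eq_zero.mp h0))]; simp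
  have h3 := congrArg norm h2
  rw [Complex.norm_real, Real.norm_eq_abs, abs_mul, Nat.abs_cast] at h3
  rw [← h3]
  refine (norm_sum_le _ _).trans (Finset.sum_le_sum fun k _ => ?_)
  rw [norm_mul, norm_mul, RCLike.norm_conj]
  have h4 : ‖∑ a ∈ A, (ZMod.stdAddChar (N := M) (-(k * ((a : ZMod M) + r))) : ℂ)‖ =
      ‖∑ a ∈ A, (((ZMod.toCircle k) ^ a : Circle) : ℂ)‖ := by
    have h5 : ∑ a ∈ A, (ZMod.stdAddChar (N := M) (-(k * ((a : ZMod M) + r))) : ℂ) =
        ZMod.stdAddChar (N := M) (-(k * (r : ZMod M))) *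
        (starRingEnd ℂ) (∑ a ∈ A, (((ZMod.toCircle k) ^ a : Circle) : ℂ)) := by
      rw [map_sum, Finset.mul_sum]
      refine Finset.sum_congr rfl fun a _ => ?_
      rw [← char_pow, conj_char, ← AddChar.map_add_eq_mul]
      congr 1
      ring
    rw [h5, norm_mul, RCLike.norm_conj, ← conj_char, RCLike.norm_conj]
    simp
  rw [h4]

/-- The functional of a window for two functions. -/
noncomputable def Psi (X N : ℕ) (x y : ℕ → ℝ) (f : Circle → ℝ) : ℝ :=
  ∑ k : ZMod (2 * N + 1), ‖hat (2 * N + 1) (Ioc X (X + N)) x k‖ *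
    ‖hat (2 * N + 1) (Ioc X (X + N)) y k‖ / (N * (2 * N + 1)) * f (ZMod.toCircle k)

theorem sq_sum_le (X N : ℕ) (x : ℕ → ℝ) (hx : ∀ n, |x n| ≤ 1) :
    ∑ m ∈ Ioc X (X + N), x m ^ 2 ≤ (N : ℝ) := by
  have h1 : ∀ m ∈ Ioc X (X + N), x m ^ 2 ≤ 1 := by
    intro m _
    rw [← sq_abs]
    nlinarith [hx m, abs_nonneg (x m)]
  refine (Finset.sum_le_sum h1).trans ?_
  rw [Finset.sum_const, Nat.card_Ioc, nsmul_eq_mul, mul_one]
  exact_mod_cast (by omega : X + N - X ≤ N)

theorem exists_level_two (X N : ℕ) (x y : ℕ → ℝ) (hx : ∀ n, |x n| ≤ 1) (hy : ∀ n, |y n| ≤ 1) :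
    ∃ μ : FiniteMeasure Circle, μ.mass ≤ 1 ∧ ∀ f : Circle → ℝ, Continuous f →
      ∫ z, f z ∂(μ : Measure Circle) = Psi X N x y f := by
  have hpx := parseval (2 * N + 1) (Ioc X (X + N)) x (natCast_inj_win X N)
  have hpy := parseval (2 * N + 1) (Ioc X (X + N)) y (natCast_inj_win X N)
  have hsx := sq_sum_le X N x hx
  have hsy := sq_sum_le X N y hy
  obtain ⟨μ, hμ1, hμ2⟩ := exists_dm (2 * N + 1)
    (fun k => ‖hat (2 * N + 1) (Ioc X (X + N)) x k‖ *
      ‖hat (2 * N + 1) (Ioc X (X + N)) y k‖ / (N * (2 * N + 1)))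
    (fun k => by positivity) (by
      rw [← Finset.sum_div]
      rcases Nat.eq_zero_or_pos N with h | h
      · rw [h]; simp
      · have hN0 : (0 : ℝ) < N := by exact_mod_cast h
        rw [div_le_one (by positivity)]
        have h1 : ∑ k : ZMod (2 * N + 1), ‖hat (2 * N + 1) (Ioc X (X + N)) x k‖ *
            ‖hat (2 * N + 1) (Ioc X (X + N)) y k‖ ≤ ∑ k : ZMod (2 * N + 1),
            (‖hat (2 * N + 1) (Ioc X (X + N)) x k‖ ^ 2 / 2 +
              ‖hat (2 * N + 1) (Ioc X (X + N)) y k‖ ^ 2 / 2) := by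
          refine Finset.sum_le_sum fun k _ => ?_
          nlinarith [sq_nonneg (‖hat (2 * N + 1) (Ioc X (X + N)) x k‖ -
            ‖hat (2 * N + 1) (Ioc X (X + N)) y k‖)]
        rw [Finset.sum_add_distrib, ← Finset.sum_div, ← Finset.sum_div, hpx, hpy] at h1
        refine h1.trans ?_
        push_cast
        nlinarith [hsx, hsy, hN0])
  exact ⟨μ, hμ1, fun f hf => hμ2 f hf⟩

/-- The indicator of the value `u` minus its density in the window. -/
noncomputable def cen (G : ℕ → ℕ) (X N u n : ℕ) : ℝ :=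
  (if G n = u then 1 else 0) - (((Ioc X (X + N)).filter (fun m => G m = u)).card : ℝ) / N

theorem dens_le (G : ℕ → ℕ) (X N u : ℕ) :
    0 ≤ (((Ioc X (X + N)).filter (fun m => G m = u)).card : ℝ) / N ∧
    (((Ioc X (X + N)).filter (fun m => G m = u)).card : ℝ) / N ≤ 1 := by
  refine ⟨by positivity, ?_⟩
  rcases Nat.eq_zero_or_pos N with h | h
  · rw [h]; simp
  · have hN0 : (0 : ℝ) < N := by exact_mod_cast h
    rw [div_le_one hN0]
    have h1 : ((Ioc X (X + N)).filter (fun m => G m = u)).card ≤ (Ioc X (X + N)).card :=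
      Finset.card_filter_le _ _
    rw [Nat.card_Ioc] at h1
    exact_mod_cast (by omega : ((Ioc X (X + N)).filter (fun m => G m = u)).card ≤ N)

theorem abs_cen_le (G : ℕ → ℕ) (X N u n : ℕ) : |cen G X N u n| ≤ 1 := by
  obtain ⟨h1, h2⟩ := dens_le G X N u
  unfold cen
  rw [abs_le]
  split_ifs <;> constructor <;> linarith

/-- The relation at a window. -/
theorem rel_two (d G : ℕ → ℕ) (hG : IsGrundy d G) (r : ℕ) (hr : 1 ≤ r)
    (hd : (d r).testBit 2 = true) (w u v X N l : ℕ) (q : ℝ) (hq : 0 ≤ q) (huv : u ^^^ v = w)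
    (hu : q * N ≤ (((Ioc X (X + N)).filter (fun m => G m = u)).card : ℝ))
    (hv : q * N ≤ (((Ioc X (X + N)).filter (fun m => G m = v)).card : ℝ))
    (hN : l + r + 1 ≤ N) :
    (((Ioc 0 l).filter (fun a => G a = w)).card : ℝ) * (q ^ 2 * N - 2 * (l + r)) ≤
      |bil (2 * N + 1) r (Ioc X (X + N)) ((Ioc 0 l).filter (fun a => G a = w))
        (cen G X N u) (cen G X N v)| := by
  have hN0 : (0 : ℝ) < N := by exact_mod_cast (by omega : 0 < N)
  obtain ⟨du, hdu⟩ : ∃ du : ℝ, du = (((Ioc X (X + N)).filter (fun m => G m = u)).card : ℝ) / N :=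
    ⟨_, rfl⟩
  obtain ⟨dv, hdv⟩ : ∃ dv : ℝ, dv = (((Ioc X (X + N)).filter (fun m => G m = v)).card : ℝ) / N :=
    ⟨_, rfl⟩
  have hdu1 := (dens_le G X N u).2
  have hdv1 := (dens_le G X N v).2
  rw [← hdu] at hdu1
  rw [← hdv] at hdv1
  have hduq : q ≤ du := by rw [hdu, le_div_iff₀ hN0]; exact hu
  have hdvq : q ≤ dv := by rw [hdv, le_div_iff₀ hN0]; exact hv
  have hduN : (((Ioc X (X + N)).filter (fun m => G m = u)).card : ℝ) = du * N := by
    rw [hdu, div_mul_cancel₀ _ hN0.ne']
  have hdvN : (((Ioc X (X + N)).filter (fun m => G m = v)).card : ℝ) = dv * N := by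
    rw [hdv, div_mul_cancel₀ _ hN0.ne']
  rw [← abs_neg]
  refine le_trans ?_ (le_abs_self _)
  unfold bil
  -- exchange the sums: first a
  have h1 : ∑ m ∈ Ioc X (X + N), ∑ n ∈ Ioc X (X + N), ∑ a ∈ (Ioc 0 l).filter (fun a => G a = w),
      (if ((n : ZMod (2 * N + 1)) = m + a + r) then cen G X N u m * cen G X N v n else 0) =
      ∑ a ∈ (Ioc 0 l).filter (fun a => G a = w), ∑ m ∈ Ioc X (X + N - a - r),
        cen G X N u m * cen G X N v (m + a + r) := by
    have h2 : ∀ m ∈ Ioc X (X + N), ∑ n ∈ Ioc X (X + N), ∑ a ∈ (Ioc 0 l).filter (fun a => G a = w),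
        (if ((n : ZMod (2 * N + 1)) = m + a + r) then cen G X N u m * cen G X N v n else 0) =
        ∑ a ∈ (Ioc 0 l).filter (fun a => G a = w),
          if m + a + r ≤ X + N then cen G X N u m * cen G X N v (m + a + r) else 0 := by
      intro m hm
      rw [Finset.sum_comm]
      refine Finset.sum_congr rfl fun a ha => ?_
      rw [Finset.mem_Ioc] at hm
      rw [Finset.mem_filter, Finset.mem_Ioc] at ha
      have hcast : ∀ n ∈ Ioc X (X + N), ((n : ZMod (2 * N + 1)) = m + a + r) ↔ n = m + a + r := by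
        intro n hn
        rw [Finset.mem_Ioc] at hn
        constructor
        · intro h
          have h0 : ((n : ℕ) : ZMod (2 * N + 1)) = ((m + a + r : ℕ) : ZMod (2 * N + 1)) := by
            rw [h]; push_cast; ring
          exact eq_of_cast_lt (2 * N + 1) n (m + a + r) h0 (by omega) (by omega)
        · intro h
          rw [h]; push_cast; ring
      have h3 : ∑ n ∈ Ioc X (X + N),
          (if ((n : ZMod (2 * N + 1)) = m + a + r) then cen G X N u m * cen G X N v n else 0) =
          ∑ n ∈ Ioc X (X + N), if n = m + a + r then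
            cen G X N u m * cen G X N v (m + a + r) else 0 := by
        refine Finset.sum_congr rfl fun n hn => ?_
        by_cases h : n = m + a + r
        · rw [if_pos ((hcast n hn).mpr h), if_pos h, h]
        · rw [if_neg (fun h' => h ((hcast n hn).mp h')), if_neg h]
      rw [h3, Finset.sum_ite_eq']
      by_cases h : m + a + r ≤ X + N
      · rw [if_pos (by rw [Finset.mem_Ioc]; omega), if_pos h]
      · rw [if_neg (by rw [Finset.mem_Ioc]; omega), if_neg h]
    rw [Finset.sum_congr rfl h2, Finset.sum_comm]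
    refine Finset.sum_congr rfl fun a ha => ?_
    rw [Finset.mem_filter, Finset.mem_Ioc] at ha
    rw [← Finset.sum_filter]
    refine Finset.sum_congr ?_ fun m _ => rfl
    ext m
    rw [Finset.mem_filter, Finset.mem_Ioc, Finset.mem_Ioc]
    omega
  rw [h1, ← Finset.sum_neg_distrib]
  have h2 : ∀ a ∈ (Ioc 0 l).filter (fun a => G a = w), q ^ 2 * N - 2 * (l + r) ≤
      -∑ m ∈ Ioc X (X + N - a - r), cen G X N u m * cen G X N v (m + a + r) := by
    intro a ha
    rw [Finset.mem_filter, Finset.mem_Ioc] at ha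
    obtain ⟨K, hK⟩ : ∃ K, X + K = X + N - a - r := ⟨N - a - r, by omega⟩
    rw [← hK]
    have hexp : ∀ m ∈ Ioc X (X + K), cen G X N u m * cen G X N v (m + a + r) =
        -(dv * (if G m = u then 1 else 0)) - du * (if G (m + a + r) = v then 1 else 0) + du * dv := by
      intro m hm
      rw [Finset.mem_Ioc] at hm
      unfold cen
      rw [← hdu, ← hdv]
      have h3 : ¬ (G m = u ∧ G (m + a + r) = v) := by
        rintro ⟨h4, h5⟩
        apply hG.ne hr hd (m := m) (a := a) (by omega) (by omega)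
        rw [h5, h4, ha.2, ← huv]
        rw [← Nat.xor_assoc, Nat.xor_self, Nat.zero_xor]
      by_cases c1 : G m = u
      · by_cases c2 : G (m + a + r) = v
        · exact absurd ⟨c1, c2⟩ h3
        · simp only [if_pos c1, if_neg c2]
          ring
      · by_cases c2 : G (m + a + r) = v
        · simp only [if_neg c1, if_pos c2]
          ring
        · simp only [if_neg c1, if_neg c2]
          ring
    rw [Finset.sum_congr rfl hexp, Finset.sum_add_distrib, Finset.sum_sub_distrib,
      Finset.sum_neg_distrib, ← Finset.mul_sum, ← Finset.mul_sum, Finset.sum_const, Nat.card_Ioc,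
      nsmul_eq_mul]
    have hKN : (K : ℝ) ≤ N := by exact_mod_cast (by omega : K ≤ N)
    have hKN2 : (N : ℝ) - l - r ≤ K := by
      have : N ≤ K + l + r := by omega
      have h4 : (N : ℝ) ≤ K + l + r := by exact_mod_cast this
      linarith
    have e1 : du * N - (l + r) ≤ ∑ m ∈ Ioc X (X + K), (if G m = u then (1 : ℝ) else 0) := by
      rw [Finset.sum_ite, Finset.sum_const_zero, add_zero, Finset.sum_const, nsmul_eq_mul, mul_one,
        ← hduN]
      have h4 : (Ioc X (X + N)).filter (fun m => G m = u) ⊆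
          (Ioc X (X + K)).filter (fun m => G m = u) ∪ Ioc (X + K) (X + N) := by
        intro m hm
        rw [Finset.mem_filter, Finset.mem_Ioc] at hm
        rw [Finset.mem_union, Finset.mem_filter, Finset.mem_Ioc, Finset.mem_Ioc]
        by_cases h5 : m ≤ X + K
        · exact Or.inl ⟨⟨hm.1.1, h5⟩, hm.2⟩
        · exact Or.inr ⟨by omega, hm.1.2⟩
      have h5 := (Finset.card_le_card h4).trans (Finset.card_union_le _ _)
      rw [Nat.card_Ioc] at h5
      have h6 : ((Ioc X (X + N)).filter (fun m => G m = u)).card ≤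
          ((Ioc X (X + K)).filter (fun m => G m = u)).card + (l + r) := by omega
      have h7 : (((Ioc X (X + N)).filter (fun m => G m = u)).card : ℝ) ≤
          (((Ioc X (X + K)).filter (fun m => G m = u)).card : ℝ) + (l + r) := by exact_mod_cast h6
      linarith
    have e2 : dv * N - (l + r) ≤
        ∑ m ∈ Ioc X (X + K), (if G (m + a + r) = v then (1 : ℝ) else 0) := by
      rw [Finset.sum_ite, Finset.sum_const_zero, add_zero, Finset.sum_const, nsmul_eq_mul, mul_one,
        ← hdvN]
      have h4 : (Ioc X (X + N)).filter (fun m => G m = v) ⊆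
          ((Ioc X (X + K)).filter (fun m => G (m + a + r) = v)).image (fun m => m + a + r) ∪
            Ioc X (X + a + r) := by
        intro m hm
        rw [Finset.mem_filter, Finset.mem_Ioc] at hm
        rw [Finset.mem_union, Finset.mem_image, Finset.mem_Ioc]
        by_cases h5 : m ≤ X + a + r
        · exact Or.inr ⟨hm.1.1, h5⟩
        · refine Or.inl ⟨m - a - r, ?_, by omega⟩
          have h6 : m - a - r + a + r = m := by omega
          rw [Finset.mem_filter, Finset.mem_Ioc, h6]
          exact ⟨by omega, hm.2⟩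
      have h5 := (Finset.card_le_card h4).trans ((Finset.card_union_le _ _).trans
        (Nat.add_le_add_right Finset.card_image_le _))
      rw [Nat.card_Ioc] at h5
      have h6 : ((Ioc X (X + N)).filter (fun m => G m = v)).card ≤
          ((Ioc X (X + K)).filter (fun m => G (m + a + r) = v)).card + (l + r) := by omega
      have h7 : (((Ioc X (X + N)).filter (fun m => G m = v)).card : ℝ) ≤
          (((Ioc X (X + K)).filter (fun m => G (m + a + r) = v)).card : ℝ) + (l + r) := by
        exact_mod_cast h6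
      linarith
    have hK' : ((X + K - X : ℕ) : ℝ) = K := by
      congr 1
      omega
    rw [hK']
    have hdu0 : 0 ≤ du := hq.trans hduq
    have hdv0 : 0 ≤ dv := hq.trans hdvq
    have e3 : dv * (du * N - (l + r)) ≤
        dv * ∑ m ∈ Ioc X (X + K), (if G m = u then (1 : ℝ) else 0) :=
      mul_le_mul_of_nonneg_left e1 hdv0
    have e4 : du * (dv * N - (l + r)) ≤
        du * ∑ m ∈ Ioc X (X + K), (if G (m + a + r) = v then (1 : ℝ) else 0) :=
      mul_le_mul_of_nonneg_left e2 hdu0
    have e5 : K * (du * dv) ≤ N * (du * dv) := mul_le_mul_of_nonneg_right hKN (by positivity)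
    have e6 : q ^ 2 * N ≤ du * dv * N := by
      apply mul_le_mul_of_nonneg_right _ hN0.le
      rw [sq]
      exact mul_le_mul hduq hdvq hq hdu0
    have hlr : (0 : ℝ) ≤ (l : ℝ) + r := by positivity
    have e7 : dv * ((l : ℝ) + r) ≤ 1 * ((l : ℝ) + r) := mul_le_mul_of_nonneg_right hdv1 hlr
    have e8 : du * ((l : ℝ) + r) ≤ 1 * ((l : ℝ) + r) := mul_le_mul_of_nonneg_right hdu1 hlr
    nlinarith [e3, e4, e5, e6, e7, e8]
  have h3 := Finset.sum_le_sum h2
  rw [Finset.sum_const, nsmul_eq_mul] at h3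
  exact h3

end H45O
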