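import Pool.Agent.Lib.H45O.Pair

/-!
# Short windows and the common frequency theorem
-/

namespace H45O

open Finset Complex MeasureTheory Filter Topology

noncomputable local instance instMSCircle10 : MeasurableSpace Circle := borel Circle

local instance instBSCircle10 : BorelSpace Circle := ⟨rfl⟩

/-- The sum of `x m z ^ m` over the window `(n, n + H]`. -/
noncomputable def Sx (x : ℕ → ℝ) (n H : ℕ) (z : Circle) : ℂ :=
  ∑ m ∈ Ioc n (n + H), (x m : ℂ) * ((z ^ m : Circle) : ℂ)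

theorem Sx_le (x : ℕ → ℝ) (hx : ∀ n, |x n| ≤ 1) (n H : ℕ) (z : Circle) : ‖Sx x n H z‖ ≤ H := by
  unfold Sx
  refine (norm_sum_le _ _).trans ?_
  have h1 : ∀ m ∈ Ioc n (n + H), ‖(x m : ℂ) * ((z ^ m : Circle) : ℂ)‖ ≤ 1 := by
    intro m _
    rw [norm_mul, Circle.norm_coe, mul_one, Complex.norm_real, Real.norm_eq_abs]
    exact hx m
  refine (Finset.sum_le_sum h1).trans ?_
  rw [Finset.sum_const, Nat.card_Ioc, nsmul_eq_mul, mul_one]
  exact_mod_cast (by omega : n + H - n ≤ H)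

theorem one_tf (X N : ℕ) (x : ℕ → ℝ) (hx : ∀ n, |x n| ≤ 1) (z₀ : Circle) (H : ℕ) (hH : 1 ≤ H)
    (hHN : H ≤ N) :
    (∑ k : ZMod (2 * N + 1), ‖hat (2 * N + 1) (Ioc X (X + N)) x k‖ ^ 2 *
      tf H z₀ (ZMod.toCircle k)) / (2 * N + 1) ≤
    ∑ n ∈ Ico X (X + N), ‖Sx x n H z₀‖ ^ 2 + 2 * (H : ℝ) ^ 3 := by
  classical
  have hN0 : (0 : ℝ) < N := by exact_mod_cast (by omega : 0 < N)
  obtain ⟨c, hc⟩ : ∃ c : ℕ → ℂ, ∀ n, c n = ∑ m ∈ Ioc X (X + N), if m ≤ n ∧ n < m + H then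
      (x m : ℂ) * (((z₀⁻¹) ^ (n - m) : Circle) : ℂ) else 0 := ⟨_, fun _ => rfl⟩
  have h1 : ∀ k : ZMod (2 * N + 1), hat (2 * N + 1) (Ioc X (X + N)) x k *
      ∑ h ∈ range H, (((ZMod.toCircle k / z₀) ^ h : Circle) : ℂ) =
      ∑ n ∈ Ioc X (X + N + H), c n * ZMod.stdAddChar (N := 2 * N + 1)
        (k * (n : ZMod (2 * N + 1))) := by
    intro k
    unfold hat
    rw [Finset.sum_mul_sum]
    have h2 : ∑ n ∈ Ioc X (X + N + H), c n * ZMod.stdAddChar (N := 2 * N + 1)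
        (k * (n : ZMod (2 * N + 1))) = ∑ m ∈ Ioc X (X + N), ∑ n ∈ Ioc X (X + N + H),
        (if m ≤ n ∧ n < m + H then (x m : ℂ) * (((z₀⁻¹) ^ (n - m) : Circle) : ℂ) else 0) *
        ZMod.stdAddChar (N := 2 * N + 1) (k * (n : ZMod (2 * N + 1))) := by
      rw [Finset.sum_comm]
      refine Finset.sum_congr rfl fun n _ => ?_
      rw [hc, Finset.sum_mul]
    rw [h2]
    refine Finset.sum_congr rfl fun m hm => ?_
    rw [Finset.mem_Ioc] at hm
    have h3 : ∑ n ∈ Ioc X (X + N + H),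
        (if m ≤ n ∧ n < m + H then (x m : ℂ) * (((z₀⁻¹) ^ (n - m) : Circle) : ℂ) else 0) *
        ZMod.stdAddChar (N := 2 * N + 1) (k * (n : ZMod (2 * N + 1))) =
        ∑ n ∈ Ico m (m + H), (x m : ℂ) * (((z₀⁻¹) ^ (n - m) : Circle) : ℂ) *
        ZMod.stdAddChar (N := 2 * N + 1) (k * (n : ZMod (2 * N + 1))) := by
      have h4 : Ico m (m + H) = (Ioc X (X + N + H)).filter (fun n => m ≤ n ∧ n < m + H) := by
        ext n
        rw [Finset.mem_filter, Finset.mem_Ioc, Finset.mem_Ico]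
        omega
      rw [h4, Finset.sum_filter]
      refine Finset.sum_congr rfl fun n _ => ?_
      split_ifs
      · rfl
      · rw [zero_mul]
    rw [h3, Finset.sum_Ico_eq_sum_range]
    have h5 : m + H - m = H := by omega
    rw [h5]
    refine Finset.sum_congr rfl fun h _ => ?_
    have h6 : m + h - m = h := by omega
    rw [h6, char_pow, char_pow]
    have h7 : (((ZMod.toCircle k / z₀) ^ h : Circle) : ℂ) =
        (((ZMod.toCircle k) ^ h : Circle) : ℂ) * (((z₀⁻¹) ^ h : Circle) : ℂ) := by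
      rw [← Circle.coe_mul, ← mul_pow, div_eq_mul_inv]
    have h8 : (((ZMod.toCircle k) ^ (m + h) : Circle) : ℂ) =
        (((ZMod.toCircle k) ^ m : Circle) : ℂ) * (((ZMod.toCircle k) ^ h : Circle) : ℂ) := by
      rw [← Circle.coe_mul, ← pow_add]
    rw [h7, h8]
    ring
  have hinj : ∀ m ∈ Ioc X (X + N + H), ∀ n ∈ Ioc X (X + N + H),
      (m : ZMod (2 * N + 1)) = n → m = n := by
    intro m hm n hn h
    rw [Finset.mem_Ioc] at hm hn
    exact eq_of_cast_lt (2 * N + 1) m n h (by omega) (by omega)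
  have h2 := parsevalC (2 * N + 1) (Ioc X (X + N + H)) c hinj
  have h3 : (∑ k : ZMod (2 * N + 1), ‖hat (2 * N + 1) (Ioc X (X + N)) x k‖ ^ 2 *
      tf H z₀ (ZMod.toCircle k)) / (2 * N + 1) = ∑ n ∈ Ioc X (X + N + H), ‖c n‖ ^ 2 := by
    have h4 : ∑ k : ZMod (2 * N + 1), ‖hat (2 * N + 1) (Ioc X (X + N)) x k‖ ^ 2 *
        tf H z₀ (ZMod.toCircle k) =
        ∑ k : ZMod (2 * N + 1), ‖∑ n ∈ Ioc X (X + N + H), c n *
          ZMod.stdAddChar (N := 2 * N + 1) (k * (n : ZMod (2 * N + 1)))‖ ^ 2 := by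
      refine Finset.sum_congr rfl fun k _ => ?_
      unfold tf
      rw [← h1 k, norm_mul]
      ring
    rw [h4, h2]
    push_cast
    field_simp
  rw [h3]
  have hcH : ∀ n, ‖c n‖ ≤ H := by
    intro n
    rw [hc, ← Finset.sum_filter]
    refine (norm_sum_le _ _).trans ?_
    have h4 : ∀ m ∈ (Ioc X (X + N)).filter (fun m => m ≤ n ∧ n < m + H),
        ‖(x m : ℂ) * (((z₀⁻¹) ^ (n - m) : Circle) : ℂ)‖ ≤ 1 := by
      intro m _
      rw [norm_mul, Circle.norm_coe, mul_one, Complex.norm_real, Real.norm_eq_abs]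
      exact hx m
    refine (Finset.sum_le_sum h4).trans ?_
    rw [Finset.sum_const, nsmul_eq_mul, mul_one]
    have h5 : (Ioc X (X + N)).filter (fun m => m ≤ n ∧ n < m + H) ⊆
        Ico (n + 1 - H) (n + 1) := by
      intro m hm
      rw [Finset.mem_filter] at hm
      rw [Finset.mem_Ico]
      omega
    have h6 := Finset.card_le_card h5
    rw [Nat.card_Ico] at h6
    exact_mod_cast (by omega :
      ((Ioc X (X + N)).filter (fun m => m ≤ n ∧ n < m + H)).card ≤ H)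
  have hcS : ∀ n, X + H ≤ n → n ≤ X + N → ‖c n‖ = ‖Sx x (n - H) H z₀‖ := by
    intro n hn1 hn2
    have h4 : c n * ((z₀ ^ n : Circle) : ℂ) = Sx x (n - H) H z₀ := by
      rw [hc, ← Finset.sum_filter, Finset.sum_mul]
      unfold Sx
      have h5 : (Ioc X (X + N)).filter (fun m => m ≤ n ∧ n < m + H) =
          Ioc (n - H) (n - H + H) := by
        ext m
        rw [Finset.mem_filter, Finset.mem_Ioc, Finset.mem_Ioc]
        omega
      rw [h5]
      refine Finset.sum_congr rfl fun m hm => ?_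
      rw [Finset.mem_Ioc] at hm
      rw [mul_assoc, ← Circle.coe_mul]
      congr 2
      have h6 : n = (n - m) + m := by omega
      calc (z₀⁻¹) ^ (n - m) * z₀ ^ n = (z₀⁻¹) ^ (n - m) * (z₀ ^ (n - m) * z₀ ^ m) := by
            rw [← pow_add, ← h6]
        _ = z₀ ^ m := by rw [← mul_assoc, ← mul_pow, inv_mul_cancel, one_pow, one_mul]
    rw [← h4, norm_mul, Circle.norm_coe, mul_one]
  have h4 : Ioc X (X + N + H) ⊆ Ico (X + H) (X + N + 1) ∪ (Ico (X + 1) (X + H) ∪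
      Ioc (X + N) (X + N + H)) := by
    intro n hn
    rw [Finset.mem_Ioc] at hn
    rw [Finset.mem_union, Finset.mem_union, Finset.mem_Ico, Finset.mem_Ico, Finset.mem_Ioc]
    omega
  have h5 : ∑ n ∈ Ioc X (X + N + H), ‖c n‖ ^ 2 ≤ ∑ n ∈ Ico (X + H) (X + N + 1), ‖c n‖ ^ 2 +
      ∑ n ∈ Ico (X + 1) (X + H) ∪ Ioc (X + N) (X + N + H), ‖c n‖ ^ 2 := by
    refine (Finset.sum_le_sum_of_subset_of_nonneg h4 (fun _ _ _ => by positivity)).trans ?_
    have h6 := Finset.sum_union_inter (s₁ := Ico (X + H) (X + N + 1))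
      (s₂ := Ico (X + 1) (X + H) ∪ Ioc (X + N) (X + N + H)) (f := fun n => ‖c n‖ ^ 2)
    have h7 : 0 ≤ ∑ n ∈ Ico (X + H) (X + N + 1) ∩ (Ico (X + 1) (X + H) ∪
        Ioc (X + N) (X + N + H)), ‖c n‖ ^ 2 := Finset.sum_nonneg fun _ _ => by positivity
    linarith
  have h6 : ∑ n ∈ Ico (X + 1) (X + H) ∪ Ioc (X + N) (X + N + H), ‖c n‖ ^ 2 ≤
      2 * (H : ℝ) ^ 3 := by
    have h7 : ∀ n ∈ Ico (X + 1) (X + H) ∪ Ioc (X + N) (X + N + H), ‖c n‖ ^ 2 ≤ (H : ℝ) ^ 2 :=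
      fun n _ => pow_le_pow_left₀ (norm_nonneg _) (hcH n) 2
    refine (Finset.sum_le_sum h7).trans ?_
    rw [Finset.sum_const, nsmul_eq_mul]
    have h8 := Finset.card_union_le (Ico (X + 1) (X + H)) (Ioc (X + N) (X + N + H))
    rw [Nat.card_Ico, Nat.card_Ioc] at h8
    have h9 : (((Ico (X + 1) (X + H) ∪ Ioc (X + N) (X + N + H)).card : ℕ) : ℝ) ≤ 2 * H := by
      exact_mod_cast (by omega :
        (Ico (X + 1) (X + H) ∪ Ioc (X + N) (X + N + H)).card ≤ 2 * H)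
    calc (((Ico (X + 1) (X + H) ∪ Ioc (X + N) (X + N + H)).card : ℕ) : ℝ) * (H : ℝ) ^ 2
        ≤ (2 * H) * (H : ℝ) ^ 2 := mul_le_mul_of_nonneg_right h9 (by positivity)
      _ = 2 * (H : ℝ) ^ 3 := by ring
  have h7 : ∑ n ∈ Ico (X + H) (X + N + 1), ‖c n‖ ^ 2 ≤
      ∑ n ∈ Ico X (X + N), ‖Sx x n H z₀‖ ^ 2 := by
    have h8 : ∑ n ∈ Ico (X + H) (X + N + 1), ‖c n‖ ^ 2 =
        ∑ n ∈ Ico X (X + N + 1 - H), ‖Sx x n H z₀‖ ^ 2 := by
      rw [Finset.sum_Ico_eq_sum_range, Finset.sum_Ico_eq_sum_range]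
      have h9 : X + N + 1 - (X + H) = X + N + 1 - H - X := by omega
      rw [h9]
      refine Finset.sum_congr rfl fun i hi => ?_
      rw [Finset.mem_range] at hi
      rw [hcS (X + H + i) (by omega) (by omega)]
      have h10 : X + H + i - H = X + i := by omega
      rw [h10]
    rw [h8]
    apply Finset.sum_le_sum_of_subset_of_nonneg
    · intro n hn
      rw [Finset.mem_Ico] at hn ⊢
      omega
    · intro _ _ _
      positivity
  linarith

/-- The bound for `Psi`. -/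
theorem Psi_tf (X N : ℕ) (x y : ℕ → ℝ) (hx : ∀ n, |x n| ≤ 1) (hy : ∀ n, |y n| ≤ 1) (z₀ : Circle)
    (H : ℕ) (hH : 1 ≤ H) (hHN : H ≤ N) (s : ℝ) (hs : 0 < s) :
    N * Psi X N x y (tf H z₀) ≤
      s / 2 * (∑ n ∈ Ico X (X + N), ‖Sx x n H z₀‖ ^ 2 + 2 * (H : ℝ) ^ 3) +
      1 / (2 * s) * (∑ n ∈ Ico X (X + N), ‖Sx y n H z₀‖ ^ 2 + 2 * (H : ℝ) ^ 3) := by
  have hN0 : (0 : ℝ) < N := by exact_mod_cast (by omega : 0 < N)
  have h1 := one_tf X N x hx z₀ H hH hHN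
  have h2 := one_tf X N y hy z₀ H hH hHN
  have h3 : N * Psi X N x y (tf H z₀) ≤
      s / 2 * ((∑ k : ZMod (2 * N + 1), ‖hat (2 * N + 1) (Ioc X (X + N)) x k‖ ^ 2 *
      tf H z₀ (ZMod.toCircle k)) / (2 * N + 1)) +
      1 / (2 * s) * ((∑ k : ZMod (2 * N + 1), ‖hat (2 * N + 1) (Ioc X (X + N)) y k‖ ^ 2 *
      tf H z₀ (ZMod.toCircle k)) / (2 * N + 1)) := by
    unfold Psi
    rw [Finset.mul_sum, Finset.sum_div, Finset.sum_div, Finset.mul_sum, Finset.mul_sum,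
      ← Finset.sum_add_distrib]
    refine Finset.sum_le_sum fun k _ => ?_
    obtain ⟨a, ha⟩ : ∃ a : ℝ, a = ‖hat (2 * N + 1) (Ioc X (X + N)) x k‖ := ⟨_, rfl⟩
    obtain ⟨c, hc⟩ : ∃ c : ℝ, c = ‖hat (2 * N + 1) (Ioc X (X + N)) y k‖ := ⟨_, rfl⟩
    obtain ⟨t, ht⟩ : ∃ t : ℝ, t = tf H z₀ (ZMod.toCircle k) := ⟨_, rfl⟩
    have ht0 : 0 ≤ t := by rw [ht]; unfold tf; positivity
    rw [← ha, ← hc, ← ht]
    have h4 : (N : ℝ) * (a * c / (N * (2 * N + 1)) * t) = (a * c * t) / (2 * N + 1) := by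
      field_simp
    rw [h4]
    have h5 : s / 2 * (a ^ 2 * t / (2 * N + 1)) + 1 / (2 * s) * (c ^ 2 * t / (2 * N + 1)) =
        ((s / 2 * a ^ 2 + 1 / (2 * s) * c ^ 2) * t) / (2 * N + 1) := by
      ring
    rw [h5]
    apply div_le_div_of_nonneg_right _ (by positivity)
    apply mul_le_mul_of_nonneg_right _ ht0
    have h6 : s / 2 * a ^ 2 + 1 / (2 * s) * c ^ 2 - a * c = (s * a - c) ^ 2 / (2 * s) := by
      field_simp
      ring
    have h7 : 0 ≤ (s * a - c) ^ 2 / (2 * s) := by positivity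
    linarith
  refine h3.trans (add_le_add ?_ ?_)
  · exact mul_le_mul_of_nonneg_left h1 (by positivity)
  · exact mul_le_mul_of_nonneg_left h2 (by positivity)

/-- The common frequency theorem, with points of the circle. -/
theorem common (d G : ℕ → ℕ) (hG : IsGrundy d G) (r : ℕ) (hr : 1 ≤ r)
    (hd : (d r).testBit 2 = true) (w : ℕ) (α q : ℝ) (hα : 0 < α) (hq : 0 < q)
    (hw : ∃ᶠ l : ℕ in atTop, α * l ≤ ((pl G w l).card : ℝ)) :
    ∃ Θ : Finset Circle, (Θ.card : ℝ) ≤ 64 / (α ^ 4 * q ^ 8) ∧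
      (∀ z ∈ Θ, ∃ᶠ l : ℕ in atTop, α * q ^ 2 / 2 * l ≤ ‖gc (pl G w l) z‖) ∧
      ∀ H : ℕ, 1 ≤ H → ∀ᶠ N : ℕ in atTop, ∀ X u v : ℕ, u ^^^ v = w →
        q * N ≤ (((Ioc X (X + N)).filter (fun m => G m = u)).card : ℝ) →
        q * N ≤ (((Ioc X (X + N)).filter (fun m => G m = v)).card : ℝ) →
        ∃ z ∈ Θ, α ^ 4 * q ^ 8 / 128 * (H : ℝ) ^ 2 * N ≤
            ∑ n ∈ Ico X (X + N), ‖Sx (cen G X N u) n H z‖ ^ 2 ∧
          α ^ 4 * q ^ 8 / 128 * (H : ℝ) ^ 2 * N ≤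
            ∑ n ∈ Ico X (X + N), ‖Sx (cen G X N v) n H z‖ ^ 2 := by
  classical
  obtain ⟨κ, hκ⟩ : ∃ κ : ℝ, κ = α * q ^ 2 / 2 := ⟨_, rfl⟩
  have hκ0 : 0 < κ := by rw [hκ]; positivity
  obtain ⟨ε, hε⟩ : ∃ ε : ℝ, ε = κ ^ 2 / 2 := ⟨_, rfl⟩
  have hε0 : 0 < ε := by rw [hε]; positivity
  obtain ⟨Θ, h1, h2, h3⟩ := selectionC G w α κ (2 / κ ^ 2) hκ0 (by positivity) hw
  refine ⟨Θ, ?_, ?_, ?_⟩
  · refine h1.trans (le_of_eq ?_)
    rw [hκ]
    field_simp
    norm_num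
  · rw [← hκ]
    exact h2
  · intro H hH
    have hH0 : (0 : ℝ) < H := by exact_mod_cast hH
    have hc : α ^ 4 * q ^ 8 / 128 = ε ^ 2 / 2 := by
      rw [hε, hκ]
      ring
    rw [hc]
    by_contra hcon
    rw [Filter.not_eventually, Filter.frequently_atTop] at hcon
    have hch : ∀ j : ℕ, ∃ N X u v : ℕ, j ≤ N ∧ u ^^^ v = w ∧
        q * N ≤ (((Ioc X (X + N)).filter (fun m => G m = u)).card : ℝ) ∧
        q * N ≤ (((Ioc X (X + N)).filter (fun m => G m = v)).card : ℝ) ∧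
        ∀ z ∈ Θ, ε ^ 2 / 2 * (H : ℝ) ^ 2 * N ≤
            ∑ n ∈ Ico X (X + N), ‖Sx (cen G X N u) n H z‖ ^ 2 →
          ∑ n ∈ Ico X (X + N), ‖Sx (cen G X N v) n H z‖ ^ 2 < ε ^ 2 / 2 * (H : ℝ) ^ 2 * N := by
      intro j
      obtain ⟨N, hN1, hN2⟩ := hcon j
      push Not at hN2
      obtain ⟨X, u, v, h4, h5, h6, h7⟩ := hN2
      exact ⟨N, X, u, v, hN1, h4, h5, h6, h7⟩
    choose N X u v hN huv hu hv hz using hch
    have hNt : Tendsto N atTop atTop := tendsto_atTop_mono hN tendsto_id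
    obtain ⟨τ, hτ1, hτ2, hτ3⟩ := exists_tau d G hG r hr hd w q hq.le X N u v hNt huv hu hv
    obtain ⟨Θ', h4, h5⟩ := multiC G w α q hα hq κ hκ τ hτ1 hτ2
    obtain ⟨z, hz1, hz2⟩ := h3 Θ' h4
    have h6 := mass_tf τ z (κ ^ 2 / 2) (h5 z hz2) H
    rw [← hε] at h6
    have h7 := hτ3 (tf H z) (continuous_tf H z)
    have h8 : ∫ y, tf H z y ∂(τ : Measure Circle) ≤ 17 / 24 * ε * (H : ℝ) ^ 2 := by
      obtain ⟨B, hB⟩ : ∃ B : ℝ, B = (3 / (2 * ε) / 2 + 1 / (2 * (3 / (2 * ε)))) *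
          (2 * (H : ℝ) ^ 3) := ⟨_, rfl⟩
      have h9 : Tendsto (fun j : ℕ => 17 / 24 * ε * (H : ℝ) ^ 2 + B / (N j : ℝ))
          atTop (𝓝 (17 / 24 * ε * (H : ℝ) ^ 2 + 0)) :=
        tendsto_const_nhds.add (Tendsto.const_div_atTop (tendsto_natCast_atTop_atTop.comp hNt) _)
      rw [add_zero] at h9
      refine le_of_tendsto_of_tendsto h7 (h9.mono_left Nat.hyperfilter_le_atTop) ?_
      have hev : ∀ᶠ j : ℕ in atTop, Psi (X j) (N j) (cen G (X j) (N j) (u j))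
          (cen G (X j) (N j) (v j)) (tf H z) ≤ 17 / 24 * ε * (H : ℝ) ^ 2 + B / (N j : ℝ) := by
        filter_upwards [eventually_ge_atTop H] with j hj
        have hNj : H ≤ N j := hj.trans (hN j)
        have hN0 : (0 : ℝ) < (N j : ℝ) := by exact_mod_cast (by omega : 0 < N j)
        have htriv : ∀ x : ℕ → ℝ, (∀ n, |x n| ≤ 1) →
            ∑ n ∈ Ico (X j) (X j + N j), ‖Sx x n H z‖ ^ 2 ≤ N j * (H : ℝ) ^ 2 := by
          intro x hx
          have h10 : ∀ n ∈ Ico (X j) (X j + N j), ‖Sx x n H z‖ ^ 2 ≤ (H : ℝ) ^ 2 :=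
            fun n _ => pow_le_pow_left₀ (norm_nonneg _) (Sx_le x hx n H z) 2
          refine (Finset.sum_le_sum h10).trans (le_of_eq ?_)
          rw [Finset.sum_const, Nat.card_Ico, nsmul_eq_mul]
          congr 2
          omega
        have hcu := abs_cen_le G (X j) (N j) (u j)
        have hcv := abs_cen_le G (X j) (N j) (v j)
        have hmul : (N j : ℝ) * (17 / 24 * ε * (H : ℝ) ^ 2 + B / (N j : ℝ)) =
            17 / 24 * ε * (H : ℝ) ^ 2 * N j + B := by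
          field_simp
        have hmain : (N j : ℝ) * Psi (X j) (N j) (cen G (X j) (N j) (u j))
            (cen G (X j) (N j) (v j)) (tf H z) ≤
            (N j : ℝ) * (17 / 24 * ε * (H : ℝ) ^ 2 + B / (N j : ℝ)) := by
          rw [hmul]
          by_cases hcase : ε ^ 2 / 2 * (H : ℝ) ^ 2 * N j ≤
              ∑ n ∈ Ico (X j) (X j + N j), ‖Sx (cen G (X j) (N j) (u j)) n H z‖ ^ 2
          · have h10 := hz j z hz1 hcase
            have h11 := Psi_tf (X j) (N j) (cen G (X j) (N j) (u j)) (cen G (X j) (N j) (v j))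
              hcu hcv z H hH hNj (2 * ε / 3) (by positivity)
            have h12 := htriv (cen G (X j) (N j) (u j)) hcu
            have e1 : 2 * ε / 3 / 2 * (∑ n ∈ Ico (X j) (X j + N j),
                ‖Sx (cen G (X j) (N j) (u j)) n H z‖ ^ 2 + 2 * (H : ℝ) ^ 3) ≤
                2 * ε / 3 / 2 * (N j * (H : ℝ) ^ 2 + 2 * (H : ℝ) ^ 3) :=
              mul_le_mul_of_nonneg_left (by linarith) (by positivity)
            have e2 : 1 / (2 * (2 * ε / 3)) * (∑ n ∈ Ico (X j) (X j + N j),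
                ‖Sx (cen G (X j) (N j) (v j)) n H z‖ ^ 2 + 2 * (H : ℝ) ^ 3) ≤
                1 / (2 * (2 * ε / 3)) * (ε ^ 2 / 2 * (H : ℝ) ^ 2 * N j + 2 * (H : ℝ) ^ 3) :=
              mul_le_mul_of_nonneg_left (by linarith) (by positivity)
            refine h11.trans ((add_le_add e1 e2).trans (le_of_eq ?_))
            rw [hB]
            field_simp
            ring
          · push Not at hcase
            have h11 := Psi_tf (X j) (N j) (cen G (X j) (N j) (u j)) (cen G (X j) (N j) (v j))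
              hcu hcv z H hH hNj (3 / (2 * ε)) (by positivity)
            have h12 := htriv (cen G (X j) (N j) (v j)) hcv
            have e1 : 3 / (2 * ε) / 2 * (∑ n ∈ Ico (X j) (X j + N j),
                ‖Sx (cen G (X j) (N j) (u j)) n H z‖ ^ 2 + 2 * (H : ℝ) ^ 3) ≤
                3 / (2 * ε) / 2 * (ε ^ 2 / 2 * (H : ℝ) ^ 2 * N j + 2 * (H : ℝ) ^ 3) :=
              mul_le_mul_of_nonneg_left (by linarith) (by positivity)
            have e2 : 1 / (2 * (3 / (2 * ε))) * (∑ n ∈ Ico (X j) (X j + N j),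
                ‖Sx (cen G (X j) (N j) (v j)) n H z‖ ^ 2 + 2 * (H : ℝ) ^ 3) ≤
                1 / (2 * (3 / (2 * ε))) * (N j * (H : ℝ) ^ 2 + 2 * (H : ℝ) ^ 3) :=
              mul_le_mul_of_nonneg_left (by linarith) (by positivity)
            refine h11.trans ((add_le_add e1 e2).trans (le_of_eq ?_))
            rw [hB]
            field_simp
            ring
        exact le_of_mul_le_mul_left hmain hN0
      exact hev.filter_mono Nat.hyperfilter_le_atTop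
    have h9 : 0 < ε * (H : ℝ) ^ 2 := by positivity
    nlinarith [h6, h8, h9]

end H45O
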