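import Mathlib

/-!
# A trilinear identity modulo `M`
-/

namespace H45O

open Finset Complex

/-- `∑_{m ∈ P} x m ψ(k m)`, `ψ` the standard additive character modulo `M`. -/
noncomputable def hat (M : ℕ) [NeZero M] (P : Finset ℕ) (x : ℕ → ℝ) (k : ZMod M) : ℂ :=
  ∑ m ∈ P, (x m : ℂ) * ZMod.stdAddChar (N := M) (k * (m : ZMod M))

theorem sum_char (M : ℕ) [NeZero M] (t : ZMod M) :
    ∑ k : ZMod M, (ZMod.stdAddChar (N := M) (k * t) : ℂ) = if t = 0 then (M : ℂ) else 0 := by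
  have h := AddChar.sum_mulShift (R := ZMod M) (ψ := ZMod.stdAddChar (N := M)) t
    (ZMod.isPrimitive_stdAddChar M)
  rw [h]
  simp [ZMod.card]

theorem conj_char (M : ℕ) [NeZero M] (t : ZMod M) :
    (starRingEnd ℂ) (ZMod.stdAddChar (N := M) t : ℂ) = ZMod.stdAddChar (N := M) (-t) := by
  rw [AddChar.map_neg_eq_conj]

theorem conj_hat (M : ℕ) [NeZero M] (P : Finset ℕ) (x : ℕ → ℝ) (k : ZMod M) :
    (starRingEnd ℂ) (hat M P x k) =
      ∑ m ∈ P, (x m : ℂ) * ZMod.stdAddChar (N := M) (-(k * (m : ZMod M))) := by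
  unfold hat
  rw [map_sum]
  refine Finset.sum_congr rfl fun m _ => ?_
  rw [(starRingEnd ℂ).map_mul, Complex.conj_ofReal, conj_char]

/-- Parseval. -/
theorem parseval (M : ℕ) [NeZero M] (P : Finset ℕ) (x : ℕ → ℝ)
    (hP : ∀ m ∈ P, ∀ n ∈ P, (m : ZMod M) = n → m = n) :
    ∑ k : ZMod M, ‖hat M P x k‖ ^ 2 = M * ∑ m ∈ P, x m ^ 2 := by
  have h1 : ∀ k : ZMod M, ((‖hat M P x k‖ ^ 2 : ℝ) : ℂ)
      = ∑ m ∈ P, ∑ n ∈ P, ((x m * x n : ℝ) : ℂ) *
        ZMod.stdAddChar (N := M) (k * ((m : ZMod M) - n)) := by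
    intro k
    have h0 : ((‖hat M P x k‖ ^ 2 : ℝ) : ℂ) = hat M P x k * (starRingEnd ℂ) (hat M P x k) := by
      rw [Complex.mul_conj, Complex.normSq_eq_norm_sq]
    rw [h0, conj_hat]
    unfold hat
    rw [Finset.sum_mul_sum]
    refine Finset.sum_congr rfl fun m _ => Finset.sum_congr rfl fun n _ => ?_
    have : (ZMod.stdAddChar (N := M) (k * ((m : ZMod M) - n)) : ℂ)
        = ZMod.stdAddChar (N := M) (k * (m : ZMod M)) *
          ZMod.stdAddChar (N := M) (-(k * (n : ZMod M))) := by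
      rw [← AddChar.map_add_eq_mul]; congr 1; ring
    rw [this]; push_cast; ring
  have h2 : ((∑ k : ZMod M, ‖hat M P x k‖ ^ 2 : ℝ) : ℂ) = ((M * ∑ m ∈ P, x m ^ 2 : ℝ) : ℂ) := by
    rw [Complex.ofReal_sum, Finset.sum_congr rfl fun k _ => h1 k, Finset.sum_comm]
    have h3 : ∀ m ∈ P, ∑ k : ZMod M, ∑ n ∈ P, ((x m * x n : ℝ) : ℂ) *
        ZMod.stdAddChar (N := M) (k * ((m : ZMod M) - n)) = ((M * x m ^ 2 : ℝ) : ℂ) := by
      intro m hm
      rw [Finset.sum_comm]
      have h4 : ∀ n ∈ P, ∑ k : ZMod M, ((x m * x n : ℝ) : ℂ) *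
          ZMod.stdAddChar (N := M) (k * ((m : ZMod M) - n))
          = if n = m then ((M * x m ^ 2 : ℝ) : ℂ) else 0 := by
        intro n hn
        have h5 := Finset.mul_sum (Finset.univ : Finset (ZMod M))
          (fun k => (ZMod.stdAddChar (N := M) (k * ((m : ZMod M) - n)) : ℂ)) ((x m * x n : ℝ) : ℂ)
        rw [← h5, sum_char]
        by_cases hmn : n = m
        · subst hmn; simp; ring
        · have : ((m : ZMod M) - n) ≠ 0 := by
            intro h0
            exact hmn (hP m hm n hn (sub_eq_zero.mp h0)).symm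
          rw [if_neg this, if_neg hmn, mul_zero]
      rw [Finset.sum_congr rfl h4, Finset.sum_ite_eq' P m, if_pos hm]
    rw [Finset.sum_congr rfl h3]
    push_cast
    rw [Finset.mul_sum]
  exact_mod_cast h2

/-- The trilinear form. -/
noncomputable def tri (M : ℕ) (r : ℕ) (P A : Finset ℕ) (x g : ℕ → ℝ) : ℝ :=
  ∑ m ∈ P, ∑ n ∈ P, ∑ a ∈ A, if ((n : ZMod M) = m + a + r) then x m * x n * g a else 0

/-- `∑_{a ∈ A} g a ψ(k (a + r))`. -/
noncomputable def gs (M : ℕ) [NeZero M] (r : ℕ) (A : Finset ℕ) (g : ℕ → ℝ) (k : ZMod M) : ℂ :=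
  ∑ a ∈ A, (g a : ℂ) * ZMod.stdAddChar (N := M) (k * ((a : ZMod M) + r))

theorem tri_eq (M : ℕ) [NeZero M] (r : ℕ) (P A : Finset ℕ) (x g : ℕ → ℝ) :
    M * tri M r P A x g = ∑ k : ZMod M, ‖hat M P x k‖ ^ 2 * (gs M r A g k).re := by
  have h1 : ∀ k : ZMod M, (starRingEnd ℂ) (hat M P x k) * hat M P x k *
      (starRingEnd ℂ) (gs M r A g k)
      = ∑ m ∈ P, ∑ n ∈ P, ∑ a ∈ A, ((x m * x n * g a : ℝ) : ℂ) *
        ZMod.stdAddChar (N := M) (k * ((n : ZMod M) - (m + a + r))) := by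
    intro k
    have hg : (starRingEnd ℂ) (gs M r A g k) =
        ∑ a ∈ A, (g a : ℂ) * ZMod.stdAddChar (N := M) (-(k * ((a : ZMod M) + r))) := by
      unfold gs
      rw [map_sum]
      refine Finset.sum_congr rfl fun a _ => ?_
      rw [(starRingEnd ℂ).map_mul, Complex.conj_ofReal, conj_char]
    rw [conj_hat, hg]
    unfold hat
    rw [Finset.sum_mul_sum, Finset.sum_mul]
    refine Finset.sum_congr rfl fun m _ => ?_
    rw [Finset.sum_mul]
    refine Finset.sum_congr rfl fun n _ => ?_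
    rw [Finset.mul_sum]
    refine Finset.sum_congr rfl fun a _ => ?_
    have : (ZMod.stdAddChar (N := M) (k * ((n : ZMod M) - (m + a + r))) : ℂ)
        = ZMod.stdAddChar (N := M) (-(k * (m : ZMod M))) *
          ZMod.stdAddChar (N := M) (k * (n : ZMod M)) *
          ZMod.stdAddChar (N := M) (-(k * ((a : ZMod M) + r))) := by
      rw [← AddChar.map_add_eq_mul, ← AddChar.map_add_eq_mul]
      congr 1; ring
    rw [this]; push_cast; ring
  have h2 : ∑ k : ZMod M, (starRingEnd ℂ) (hat M P x k) * hat M P x k *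
      (starRingEnd ℂ) (gs M r A g k) = ((M * tri M r P A x g : ℝ) : ℂ) := by
    rw [Finset.sum_congr rfl fun k _ => h1 k, Finset.sum_comm]
    unfold tri
    push_cast
    rw [Finset.mul_sum]
    refine Finset.sum_congr rfl fun m _ => ?_
    rw [Finset.sum_comm, Finset.mul_sum]
    refine Finset.sum_congr rfl fun n _ => ?_
    rw [Finset.sum_comm, Finset.mul_sum]
    refine Finset.sum_congr rfl fun a _ => ?_
    have h5 := Finset.mul_sum (Finset.univ : Finset (ZMod M))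
      (fun k => (ZMod.stdAddChar (N := M) (k * ((n : ZMod M) - (m + a + r))) : ℂ))
      (x m * x n * g a : ℂ)
    rw [← h5, sum_char]
    by_cases h : (n : ZMod M) = m + a + r
    · rw [if_pos h, if_pos (sub_eq_zero.mpr h)]; push_cast; ring
    · rw [if_neg h, if_neg (fun h0 => h (sub_eq_zero.mp h0))]; simp
  have h3 := congrArg Complex.re h2
  rw [Complex.ofReal_re, Complex.re_sum] at h3
  rw [← h3]
  refine Finset.sum_congr rfl fun k _ => ?_
  have h4 : (starRingEnd ℂ) (hat M P x k) * hat M P x k = ((‖hat M P x k‖ ^ 2 : ℝ) : ℂ) := by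
    rw [mul_comm, Complex.mul_conj, Complex.normSq_eq_norm_sq]
  rw [h4, Complex.re_ofReal_mul, Complex.conj_re]

theorem gs_eq (M : ℕ) [NeZero M] (r : ℕ) (A : Finset ℕ) (g : ℕ → ℝ) (k : ZMod M) :
    ‖gs M r A g k‖ = ‖hat M A g k‖ := by
  have h : gs M r A g k = hat M A g k * ZMod.stdAddChar (N := M) (k * (r : ZMod M)) := by
    unfold gs hat
    rw [Finset.sum_mul]
    refine Finset.sum_congr rfl fun a _ => ?_
    rw [mul_add, AddChar.map_add_eq_mul]; ring
  rw [h, norm_mul]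
  simp

end H45O
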