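import Pool.Agent.Lib.H45O.Rel

/-!
# The contradiction
-/

namespace H45O

open Finset Complex MeasureTheory Filter Topology

noncomputable local instance instMSCircle'' : MeasurableSpace Circle := borel Circle

local instance instBSCircle'' : BorelSpace Circle := ⟨rfl⟩

theorem abs_chi (W : Finset ℕ) (g : ℕ) : |chi W g| = 1 := by
  have h := chi_sq W g
  have h2 : |chi W g| ^ 2 = 1 := by rw [sq_abs]; exact h
  nlinarith [abs_nonneg (chi W g)]

theorem abs_fl_le (G : ℕ → ℕ) (b r l : ℕ) (W : Finset ℕ) (z : Circle) :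
    |fl G b r l W z| ≤ l := by
  unfold fl
  refine (Finset.abs_sum_le_sum_abs _ _).trans ?_
  have h1 : ∀ a ∈ (Ioc 0 l).filter (fun a => G a < 2 ^ b),
      |chi W (G a) * ((z ^ (a + r) : Circle) : ℂ).re| ≤ 1 := by
    intro a _
    rw [abs_mul, abs_chi, one_mul]
    refine (Complex.abs_re_le_norm _).trans ?_
    rw [Circle.norm_coe]
  refine (Finset.sum_le_sum h1).trans ?_
  rw [Finset.sum_const, nsmul_eq_mul, mul_one]
  have h2 : ((Ioc 0 l).filter (fun a => G a < 2 ^ b)).card ≤ (Ioc 0 l).card :=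
    Finset.card_filter_le _ _
  rw [Nat.card_Ioc] at h2
  exact_mod_cast (by omega : ((Ioc 0 l).filter (fun a => G a < 2 ^ b)).card ≤ l)

theorem integ (ν : Measure Circle) [IsFiniteMeasure ν] (f : Circle → ℝ) (hf : Continuous f) :
    Integrable f ν :=
  hf.integrable_of_hasCompactSupport (HasCompactSupport.of_compactSpace f)

/-- The truncated function. -/
noncomputable def hl (G : ℕ → ℕ) (b r : ℕ) (κ : ℝ) (W : Finset ℕ) (l : ℕ) (z : Circle) : ℝ :=
  min (fl G b r l W z / l + κ) 0

theorem continuous_hl (G : ℕ → ℕ) (b r : ℕ) (κ : ℝ) (W : Finset ℕ) (l : ℕ) :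
    Continuous (hl G b r κ W l) := by
  unfold hl
  exact (((continuous_fl G b r l W).div_const _).add continuous_const).min continuous_const

theorem abs_fl_div_le (G : ℕ → ℕ) (b r l : ℕ) (W : Finset ℕ) (z : Circle) :
    |fl G b r l W z / l| ≤ 1 := by
  rw [abs_div, Nat.abs_cast]
  rcases Nat.eq_zero_or_pos l with h | h
  · rw [h]; simp
  · rw [div_le_one (by exact_mod_cast h)]
    exact abs_fl_le G b r l W z

theorem abs_hl_le_abs (G : ℕ → ℕ) (b r : ℕ) (κ : ℝ) (hκ : 0 ≤ κ) (W : Finset ℕ) (l : ℕ)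
    (z : Circle) : |hl G b r κ W l z| ≤ |fl G b r l W z / l| := by
  unfold hl
  have h1 := neg_abs_le (fl G b r l W z / l)
  have h2 := abs_nonneg (fl G b r l W z / l)
  rw [abs_le]
  constructor
  · exact le_min (by linarith) (by linarith)
  · exact (min_le_right _ _).trans h2

theorem core (G : ℕ → ℕ) (r b : ℕ) (δ : ℝ) (hδ1 : δ < 1 / 3)
    (hδ : ∀ᶠ N : ℕ in atTop, (((Ioc 0 N).filter (fun a => ¬ G a < 2 ^ b)).card : ℝ) ≤ δ * N)
    (ν : Finset ℕ → FiniteMeasure Circle) (hν : ∀ W, (ν W).mass ≤ 1)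
    (hrel : ∀ l : ℕ,
      ∑ W ∈ (range b).powerset.erase ∅, ∫ z, fl G b r l W z ∂(ν W : Measure Circle) ≤
        -(((((Ioc 0 l).filter (fun a => G a < 2 ^ b)).card : ℕ) : ℝ) * (1 - 2 * δ)))
    (κ : ℝ) (hκ : κ * 2 ^ b = 1 - 3 * δ) (s : ℕ → ℕ) (hs : Tendsto s atTop atTop)
    (hh : ∀ W ∈ (range b).powerset.erase ∅,
      Tendsto (fun j => ∫ z, hl G b r κ W (s j) z ∂(ν W : Measure Circle)) atTop (𝓝 0)) :
    False := by
  have h2b : (0 : ℝ) < 2 ^ b := by positivity
  have hκ0 : 0 < κ := by
    by_contra hc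
    push Not at hc
    nlinarith
  have hcard : ((((range b).powerset.erase ∅).card : ℕ) : ℝ) = 2 ^ b - 1 := by
    rw [Finset.card_erase_of_mem (Finset.empty_mem_powerset _), Finset.card_powerset,
      Finset.card_range, Nat.cast_sub Nat.one_le_two_pow]
    push_cast
    ring
  have hsum : Tendsto (fun j => ∑ W ∈ (range b).powerset.erase ∅,
      ∫ z, hl G b r κ W (s j) z ∂(ν W : Measure Circle)) atTop
      (𝓝 (∑ W ∈ (range b).powerset.erase ∅, (0 : ℝ))) := tendsto_finsetSum _ hh
  rw [Finset.sum_const_zero] at hsum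
  have hev : ∀ᶠ j in atTop, ∑ W ∈ (range b).powerset.erase ∅,
      ∫ z, hl G b r κ W (s j) z ∂(ν W : Measure Circle) ≤ -κ := by
    filter_upwards [hs.eventually hδ, hs.eventually (eventually_ge_atTop 1)] with j h1 h2
    obtain ⟨l, hldef⟩ : ∃ l, l = s j := ⟨_, rfl⟩
    rw [← hldef] at h1 h2 ⊢
    have hl0 : (0 : ℝ) < l := by exact_mod_cast h2
    have h3 : ∀ W ∈ (range b).powerset.erase ∅,
        ∫ z, hl G b r κ W l z ∂(ν W : Measure Circle) ≤
        (∫ z, fl G b r l W z ∂(ν W : Measure Circle)) / l + κ := by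
      intro W _
      have h4 : ∫ z, hl G b r κ W l z ∂(ν W : Measure Circle) ≤
          ∫ z, (fl G b r l W z / l + κ) ∂(ν W : Measure Circle) := by
        apply integral_mono (integ _ _ (continuous_hl G b r κ W l))
          (integ _ _ (((continuous_fl G b r l W).div_const _).add continuous_const))
        intro z
        exact min_le_left _ _
      rw [integral_add (integ _ _ ((continuous_fl G b r l W).div_const _))
        (integ _ _ continuous_const), integral_div, integral_const, smul_eq_mul] at h4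
      refine h4.trans ?_
      have h5 : (ν W : Measure Circle).real Set.univ ≤ 1 := by
        have h6 := hν W
        have h7 : (ν W : Measure Circle).real Set.univ = ((ν W).mass : ℝ) := rfl
        rw [h7]
        exact_mod_cast h6
      nlinarith
    have h4 := Finset.sum_le_sum h3
    rw [Finset.sum_add_distrib, ← Finset.sum_div, Finset.sum_const, nsmul_eq_mul, hcard] at h4
    have h5 : (∑ W ∈ (range b).powerset.erase ∅, ∫ z, fl G b r l W z ∂(ν W : Measure Circle)) / l
        ≤ -(1 - 3 * δ) := by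
      rw [div_le_iff₀ hl0]
      refine (hrel l).trans ?_
      have h6 : ((Ioc 0 l).filter (fun a => G a < 2 ^ b)).card +
          ((Ioc 0 l).filter (fun a => ¬ G a < 2 ^ b)).card = (Ioc 0 l).card :=
        Finset.card_filter_add_card_filter_not (s := Ioc 0 l) (fun a => G a < 2 ^ b)
      rw [Nat.card_Ioc] at h6
      have h7 : (((Ioc 0 l).filter (fun a => G a < 2 ^ b)).card : ℝ) +
          (((Ioc 0 l).filter (fun a => ¬ G a < 2 ^ b)).card : ℝ) = l := by
        exact_mod_cast (by omega : ((Ioc 0 l).filter (fun a => G a < 2 ^ b)).card +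
          ((Ioc 0 l).filter (fun a => ¬ G a < 2 ^ b)).card = l)
      have h8 : (1 - δ) * l ≤ (((Ioc 0 l).filter (fun a => G a < 2 ^ b)).card : ℝ) := by
        linarith
      have h9 : ((1 - δ) * l) * (1 - 2 * δ) ≤
          (((Ioc 0 l).filter (fun a => G a < 2 ^ b)).card : ℝ) * (1 - 2 * δ) :=
        mul_le_mul_of_nonneg_right h8 (by linarith)
      nlinarith [h9, mul_nonneg hl0.le (sq_nonneg δ)]
    nlinarith [h4, h5]
  have h9 := le_of_tendsto hsum hev
  linarith

/-- The single frequency. -/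
theorem single (d G : ℕ → ℕ) (hG : IsGrundy d G) (r : ℕ) (hr : 1 ≤ r)
    (hd : (d r).testBit 2 = true) (b : ℕ) (δ : ℝ) (hδ1 : δ < 1 / 3)
    (hδ : ∀ᶠ N : ℕ in atTop, (((Ioc 0 N).filter (fun a => ¬ G a < 2 ^ b)).card : ℝ) ≤ δ * N)
    (κ : ℝ) (hκ : κ * 2 ^ b = 1 - 3 * δ) :
    ∃ W ∈ (range b).powerset.erase ∅, ∃ z : Circle, ∃ᶠ l : ℕ in atTop,
      fl G b r l W z ≤ -(κ * l) := by
  by_contra hcon
  push Not at hcon
  have h2b : (0 : ℝ) < 2 ^ b := by positivity
  have hκ0 : 0 < κ := by
    by_contra hc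
    push Not at hc
    nlinarith
  obtain ⟨ν, hν, hrel⟩ := exists_nu d G hG r hr hd b δ hδ
  refine core G r b δ hδ1 hδ ν hν hrel κ hκ id tendsto_id fun W hW => ?_
  have h1 : Tendsto (fun j => ∫ z, hl G b r κ W j z ∂(ν W : Measure Circle)) atTop
      (𝓝 (∫ _, (0 : ℝ) ∂(ν W : Measure Circle))) := by
    apply tendsto_integral_of_dominated_convergence (fun _ => (1 : ℝ))
    · intro j
      exact (continuous_hl G b r κ W j).aestronglyMeasurable
    · exact integ _ _ continuous_const
    · intro j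
      refine Filter.Eventually.of_forall fun z => ?_
      rw [Real.norm_eq_abs]
      exact (abs_hl_le_abs G b r κ hκ0.le W j z).trans (abs_fl_div_le G b r j W z)
    · refine Filter.Eventually.of_forall fun z => ?_
      have h2 := hcon W hW z
      have h3 : ∀ᶠ l : ℕ in atTop, hl G b r κ W l z = 0 := by
        have h2' : ∀ᶠ l : ℕ in atTop, -(κ * l) < fl G b r l W z := by
          simpa [Filter.not_frequently] using h2
        filter_upwards [h2', eventually_ge_atTop 1] with l h4 h5
        have hl0 : (0 : ℝ) < l := by exact_mod_cast h5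
        unfold hl
        apply min_eq_right
        have h6 : -κ ≤ fl G b r l W z / l := by
          rw [le_div_iff₀ hl0]
          linarith
        linarith
      exact tendsto_nhds_of_eventually_eq h3
  rw [integral_zero] at h1
  exact h1

end H45O
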