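import Pool.Agent.Lib.H45O.Final

/-!
# The initial segments: counting and the finite relation
-/

namespace H45O

open Finset Complex

theorem natCast_inj_seg (N : ℕ) [NeZero (2 * N)] :
    ∀ m ∈ Ioc 0 N, ∀ n ∈ Ioc 0 N, (m : ZMod (2 * N)) = n → m = n := by
  intro m hm n hn h
  apply natCast_inj_window N 0 _ m _ n _ h
  · rw [Finset.mem_Ioc] at hm; omega
  · rw [Finset.mem_Ioc] at hm ⊢; omega
  · rw [Finset.mem_Ioc] at hn ⊢; omega

/-- The number of the triples. -/
theorem count_seg (N l r : ℕ) (S : ℕ → Prop) [DecidablePred S] (hN : l + r ≤ N) :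
    ((((Ioc 0 l).filter S).card : ℕ) : ℝ) *
      ((N : ℝ) - l - r - 2 * (((Ioc 0 N).filter (fun a => ¬ S a)).card : ℕ)) ≤
    tri (2 * N) r ((Ioc 0 N).filter S) ((Ioc 0 l).filter S) (fun _ => 1) (fun _ => 1) := by
  have h1 : ∀ m ∈ (Ioc 0 N).filter S, ∀ a ∈ (Ioc 0 l).filter S,
      (if m + a + r ≤ N ∧ S (m + a + r) then (1 : ℝ) else 0) ≤
      ∑ n ∈ (Ioc 0 N).filter S,
        if ((n : ZMod (2 * N)) = m + a + r) then (1 : ℝ) * 1 * 1 else 0 := by
    intro m hm a ha
    rw [Finset.mem_filter, Finset.mem_Ioc] at hm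
    have h0 : ∀ n ∈ (Ioc 0 N).filter S,
        (0 : ℝ) ≤ if ((n : ZMod (2 * N)) = m + a + r) then (1 : ℝ) * 1 * 1 else 0 := by
      intro n _
      split_ifs <;> norm_num
    by_cases h : m + a + r ≤ N ∧ S (m + a + r)
    · rw [if_pos h]
      have h2 := Finset.single_le_sum h0 (show m + a + r ∈ (Ioc 0 N).filter S by
        rw [Finset.mem_filter, Finset.mem_Ioc]; exact ⟨⟨by omega, h.1⟩, h.2⟩)
      rw [if_pos (by push_cast; ring)] at h2
      linarith
    · rw [if_neg h]
      exact Finset.sum_nonneg h0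
  have h2 : ∑ m ∈ (Ioc 0 N).filter S, ∑ a ∈ (Ioc 0 l).filter S,
      (if m + a + r ≤ N ∧ S (m + a + r) then (1 : ℝ) else 0)
      ≤ tri (2 * N) r ((Ioc 0 N).filter S) ((Ioc 0 l).filter S)
        (fun _ => 1) (fun _ => 1) := by
    unfold tri
    refine Finset.sum_le_sum fun m hm => ?_
    rw [Finset.sum_comm]
    exact Finset.sum_le_sum fun a ha => h1 m hm a ha
  refine le_trans ?_ h2
  rw [Finset.sum_comm, ← nsmul_eq_mul, ← Finset.sum_const]
  refine Finset.sum_le_sum fun a ha => ?_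
  rw [Finset.mem_filter, Finset.mem_Ioc] at ha
  rw [Finset.sum_ite, Finset.sum_const_zero, add_zero, Finset.sum_const, nsmul_eq_mul, mul_one]
  have h3 : Ioc 0 (N - a - r) ⊆
      (((Ioc 0 N).filter S).filter (fun m => m + a + r ≤ N ∧ S (m + a + r)) ∪
        (Ioc 0 N).filter (fun a => ¬ S a)) ∪
        (Ioc 0 N).filter (fun m => m + a + r ≤ N ∧ ¬ S (m + a + r)) := by
    intro m hm
    rw [Finset.mem_Ioc] at hm
    rw [Finset.mem_union, Finset.mem_union, Finset.mem_filter, Finset.mem_filter,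
      Finset.mem_filter, Finset.mem_filter, Finset.mem_Ioc]
    by_cases c1 : S m
    · by_cases c2 : S (m + a + r)
      · exact Or.inl (Or.inl ⟨⟨⟨by omega, by omega⟩, c1⟩, by omega, c2⟩)
      · exact Or.inr ⟨⟨by omega, by omega⟩, by omega, c2⟩
    · exact Or.inl (Or.inr ⟨⟨by omega, by omega⟩, c1⟩)
  have h4 := (Finset.card_le_card h3).trans ((Finset.card_union_le _ _).trans
    (Nat.add_le_add_right (Finset.card_union_le _ _) _))
  have h5 : ((Ioc 0 N).filter (fun m => m + a + r ≤ N ∧ ¬ S (m + a + r))).card ≤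
      ((Ioc 0 N).filter (fun a => ¬ S a)).card := by
    apply Finset.card_le_card_of_injOn (fun m => m + a + r)
    · intro m hm
      rw [Finset.mem_coe, Finset.mem_filter, Finset.mem_Ioc] at hm
      rw [Finset.mem_coe, Finset.mem_filter, Finset.mem_Ioc]
      show (0 < m + a + r ∧ m + a + r ≤ N) ∧ ¬ S (m + a + r)
      exact ⟨⟨by omega, hm.2.1⟩, hm.2.2⟩
    · intro m _ m' _ h
      have h' : m + a + r = m' + a + r := h
      omega
  rw [Nat.card_Ioc] at h4
  have h6 : N ≤ (((Ioc 0 N).filter S).filter (fun m => m + a + r ≤ N ∧ S (m + a + r))).card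
      + 2 * ((Ioc 0 N).filter (fun a => ¬ S a)).card + l + r := by omega
  have h7 : (N : ℝ) ≤
      ((((Ioc 0 N).filter S).filter (fun m => m + a + r ≤ N ∧ S (m + a + r))).card : ℝ)
      + 2 * (((Ioc 0 N).filter (fun a => ¬ S a)).card : ℝ) + l + r := by
    exact_mod_cast h6
  linarith

/-- The relation for the finite sums. -/
theorem rel_fin (d G : ℕ → ℕ) (hG : IsGrundy d G) (r : ℕ) (hr : 1 ≤ r)
    (hd : (d r).testBit 2 = true) (b N l : ℕ) [NeZero (2 * N)] (hN : l + r ≤ N) :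
    ∑ W ∈ (range b).powerset.erase ∅,
      tri (2 * N) r ((Ioc 0 N).filter (fun a => G a < 2 ^ b))
        ((Ioc 0 l).filter (fun a => G a < 2 ^ b)) (fun n => chi W (G n)) (fun n => chi W (G n)) ≤
    -(((((Ioc 0 l).filter (fun a => G a < 2 ^ b)).card : ℕ) : ℝ) *
      ((N : ℝ) - l - r - 2 * (((Ioc 0 N).filter (fun a => ¬ G a < 2 ^ b)).card : ℕ))) := by
  rw [key (2 * N) r b _ _ G (fun n hn => (Finset.mem_filter.mp hn).2)
    (fun a ha => (Finset.mem_filter.mp ha).2)]
  · have := count_seg N l r (fun a => G a < 2 ^ b) hN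
    linarith
  · intro m hm n hn a ha h
    rw [Finset.mem_filter, Finset.mem_Ioc] at hm hn ha
    have h0 : ((n : ℕ) : ZMod (2 * N)) = ((m + a + r : ℕ) : ZMod (2 * N)) := by
      rw [h]; push_cast; ring
    have h1 := (ZMod.natCast_eq_natCast_iff' n (m + a + r) (2 * N)).mp h0
    have h2 : n ≡ m + a + r [MOD 2 * N] := h1
    have h3 : n = m + a + r := by
      rcases le_total n (m + a + r) with h3 | h3
      · have h4 := (Nat.modEq_iff_dvd' h3).mp h2
        have h5 := Nat.eq_zero_of_dvd_of_lt h4 (by omega)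
        omega
      · have h4 := (Nat.modEq_iff_dvd' h3).mp h2.symm
        have h5 := Nat.eq_zero_of_dvd_of_lt h4 (by omega)
        omega
    rw [h3]
    exact hG.ne hr hd (by omega) (by omega)

end H45O
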