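import Pool.Agent.Lib.H45O.Period

/-!
# The set of the resonances of the first values
-/

namespace H45O

open Finset Complex

theorem theta (d G : ℕ → ℕ) (hG : IsGrundy d G) (r : ℕ) (hr : 1 ≤ r)
    (hd : (d r).testBit 2 = true) (b L : ℕ) (hL : 4 * (r + 1) ≤ L)
    (hA : 20 * ((Ico 1 (L - r)).filter (fun a => ¬ G a < 2 ^ b)).card ≤ L) :
    ∃ Θ : Finset (Finset ℕ × ℕ), Θ.card ≤ 512 * 8 ^ b ∧
      (∀ t ∈ Θ, t.1 ⊆ range b ∧ t.1 ≠ ∅ ∧ t.2 < 2 * L ∧
        (e (r * ((t.2 : ℝ) / (2 * L : ℕ))) *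
          F G t.1 ((Ico 1 (L - r)).filter (fun a => G a < 2 ^ b)) ((t.2 : ℝ) / (2 * L : ℕ))).re
          ≤ -((L : ℝ) / 2 ^ (b + 4))) ∧
      ∀ X : ℕ, 20 * ((Ioc X (X + L)).filter (fun a => ¬ G a < 2 ^ b)).card ≤ L →
        ∃ t ∈ Θ, (L : ℝ) / 2 ^ (b + 4) ≤
          ‖F G t.1 ((Ioc X (X + L)).filter (fun a => G a < 2 ^ b)) ((t.2 : ℝ) / (2 * L : ℕ))‖ := by
  classical
  have hne : NeZero (2 * L) := ⟨by omega⟩
  have hLpos : (0 : ℝ) < L := by
    have : 0 < L := by omega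
    exact_mod_cast this
  obtain ⟨c, hc⟩ : ∃ c : ℝ, c = (L : ℝ) / 2 ^ (b + 4) := ⟨_, rfl⟩
  have hcpos : 0 < c := by rw [hc]; positivity
  obtain ⟨A, hAd⟩ : ∃ A, A = (Ico 1 (L - r)).filter (fun a => G a < 2 ^ b) := ⟨_, rfl⟩
  have hAm : ∀ n ∈ A, n ∈ Ico 1 (L - r) := by
    intro n hn
    rw [hAd, Finset.mem_filter] at hn
    exact hn.1
  have hAc : ((A.card : ℕ) : ℝ) ≤ L := by
    have h1 : A.card ≤ (Ico 1 (L - r)).card := by rw [hAd]; exact Finset.card_filter_le _ _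
    rw [Nat.card_Ico] at h1
    exact_mod_cast (by omega : A.card ≤ L)
  have hinjA : ∀ m ∈ A, ∀ n ∈ A, (m : ZMod (2 * L)) = n → m = n := by
    intro m hm n hn h
    have hm' := hAm m hm
    have hn' := hAm n hn
    apply natCast_inj_window L 0 (by omega) m _ n _ h
    · rw [Finset.mem_Ico] at hm'
      rw [Finset.mem_Ioc]
      omega
    · rw [Finset.mem_Ico] at hn'
      rw [Finset.mem_Ioc]
      omega
  rw [← hc, ← hAd]
  have hcard : ∀ W : Finset ℕ, (((range (2 * L)).filter (fun k : ℕ =>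
      (e (r * ((k : ℝ) / (2 * L : ℕ))) * F G W A ((k : ℝ) / (2 * L : ℕ))).re ≤ -c)).card : ℕ)
      ≤ 2 ^ (2 * b + 9) := by
    intro W
    obtain ⟨K, hK⟩ : ∃ K, K = (range (2 * L)).filter (fun k : ℕ =>
      (e (r * ((k : ℝ) / (2 * L : ℕ))) * F G W A ((k : ℝ) / (2 * L : ℕ))).re ≤ -c) := ⟨_, rfl⟩
    rw [← hK]
    have h1 : ∑ k ∈ K, c ^ 2 ≤ ∑ k ∈ K, ‖hat (2 * L) A (fun n => chi W (G n)) (k : ZMod (2 * L))‖ ^ 2 := by
      refine Finset.sum_le_sum fun k hk => ?_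
      rw [hK, Finset.mem_filter, ← gs_eq_F] at hk
      rw [← gs_eq (2 * L) r]
      have h2 := Complex.abs_re_le_norm (gs (2 * L) r A (fun n => chi W (G n)) (k : ZMod (2 * L)))
      have h3 := neg_le_abs (gs (2 * L) r A (fun n => chi W (G n)) (k : ZMod (2 * L))).re
      have h4 : c ≤ ‖gs (2 * L) r A (fun n => chi W (G n)) (k : ZMod (2 * L))‖ := by
        linarith [hk.2]
      nlinarith [h4, hcpos]
    have h2 : ∑ k ∈ K, ‖hat (2 * L) A (fun n => chi W (G n)) (k : ZMod (2 * L))‖ ^ 2 ≤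
        ∑ k : ZMod (2 * L), ‖hat (2 * L) A (fun n => chi W (G n)) k‖ ^ 2 := by
      have hinj : ∀ k ∈ K, ∀ k' ∈ K, (k : ZMod (2 * L)) = k' → k = k' := by
        intro k hk k' hk' h
        rw [hK, Finset.mem_filter, Finset.mem_range] at hk hk'
        have h5 := (ZMod.natCast_eq_natCast_iff' k k' (2 * L)).mp h
        rw [Nat.mod_eq_of_lt hk.1, Nat.mod_eq_of_lt hk'.1] at h5
        exact h5
      rw [← Finset.sum_image (f := fun k : ZMod (2 * L) =>
        ‖hat (2 * L) A (fun n => chi W (G n)) k‖ ^ 2) (g := fun k : ℕ => (k : ZMod (2 * L)))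
        (fun k hk k' hk' h => hinj k hk k' hk' h)]
      exact Finset.sum_le_sum_of_subset_of_nonneg (Finset.subset_univ _)
        (fun _ _ _ => by positivity)
    rw [parseval _ _ _ hinjA] at h2
    have h6 : ∑ m ∈ A, (chi W (G m)) ^ 2 ≤ (L : ℝ) := by
      rw [Finset.sum_congr rfl fun m _ => chi_sq W (G m), Finset.sum_const, nsmul_eq_mul, mul_one]
      exact hAc
    rw [Finset.sum_const, nsmul_eq_mul] at h1
    push_cast at h2
    have h7 : (K.card : ℝ) * c ^ 2 ≤ 2 * L * L := by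
      have : (2 * (L : ℝ)) * (∑ m ∈ A, (chi W (G m)) ^ 2) ≤ 2 * L * L :=
        mul_le_mul_of_nonneg_left h6 (by positivity)
      linarith
    have h8 : (L : ℝ) = 2 ^ (b + 4) * c := by rw [hc]; field_simp
    have h9 : (K.card : ℝ) * c ^ 2 ≤ (2 ^ (2 * b + 9)) * c ^ 2 := by
      refine h7.trans (le_of_eq ?_)
      rw [h8]
      ring
    have h10 := le_of_mul_le_mul_right h9 (by positivity)
    exact_mod_cast h10
  refine ⟨(((range b).powerset.erase ∅) ×ˢ range (2 * L)).filter (fun t : Finset ℕ × ℕ =>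
      (e (r * ((t.2 : ℝ) / (2 * L : ℕ))) * F G t.1 A ((t.2 : ℝ) / (2 * L : ℕ))).re ≤ -c),
      ?_, ?_, ?_⟩
  · have h1 : ((((range b).powerset.erase ∅) ×ˢ range (2 * L)).filter (fun t : Finset ℕ × ℕ =>
        (e (r * ((t.2 : ℝ) / (2 * L : ℕ))) * F G t.1 A ((t.2 : ℝ) / (2 * L : ℕ))).re ≤ -c)).card
        ≤ ∑ W ∈ (range b).powerset.erase ∅, ((range (2 * L)).filter (fun k : ℕ =>
        (e (r * ((k : ℝ) / (2 * L : ℕ))) * F G W A ((k : ℝ) / (2 * L : ℕ))).re ≤ -c)).card := by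
      rw [Finset.card_filter, Finset.sum_product]
      refine Finset.sum_le_sum fun W _ => ?_
      rw [Finset.card_filter]
    refine h1.trans ((Finset.sum_le_sum fun W _ => hcard W).trans ?_)
    rw [Finset.sum_const, smul_eq_mul]
    have h2 : ((range b).powerset.erase ∅).card ≤ 2 ^ b := by
      refine (Finset.card_erase_le).trans ?_
      rw [Finset.card_powerset, Finset.card_range]
    refine (Nat.mul_le_mul_right _ h2).trans (le_of_eq ?_)
    rw [pow_add 2 (2 * b) 9, pow_mul]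
    have h3 : (8 : ℕ) ^ b = 2 ^ b * (2 ^ 2) ^ b := by rw [← mul_pow]; norm_num
    rw [h3]
    ring
  · intro t ht
    rw [Finset.mem_filter, Finset.mem_product, Finset.mem_erase, Finset.mem_powerset,
      Finset.mem_range] at ht
    exact ⟨ht.1.1.2, ht.1.1.1, ht.1.2, ht.2⟩
  · intro X hX
    obtain ⟨W, hW, k, h1, h2⟩ := window d G hG r hr hd b L X hL hA hX
    rw [← hc, ← hAd] at h1
    rw [← hc] at h2
    have hk : ((k.val : ℕ) : ZMod (2 * L)) = k := ZMod.natCast_zmod_val k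
    rw [← hk, gs_eq_F] at h1
    rw [← hk, hat_eq] at h2
    refine ⟨(W, k.val), ?_, h2⟩
    rw [Finset.mem_filter, Finset.mem_product]
    exact ⟨⟨hW, Finset.mem_range.mpr (ZMod.val_lt k)⟩, h1⟩

end H45O
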