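import Pool.Agent.Lib.H45O.Core

/-!
# Octal games: definitions, the basic inequality, Walsh characters
-/

namespace H45O

open Finset Complex

/-- `G` is the Sprague–Grundy sequence of the octal code with digits `d 1, d 2, ...`: `G n` is the
least number which is not an option value of the heap `n`; taking `r` from the heap `n` and leaving
`s` heaps is allowed iff the binary digit `s` of `d r` is `1`. -/
def IsGrundy (d G : ℕ → ℕ) : Prop := ∀ n : ℕ, G n = sInf {v : ℕ | ¬ ∃ r : ℕ, 1 ≤ r ∧ r ≤ n ∧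
  (((d r).testBit 0 = true ∧ r = n ∧ v = 0) ∨
   ((d r).testBit 1 = true ∧ r < n ∧ v = G (n - r)) ∨
   ((d r).testBit 2 = true ∧ ∃ a b : ℕ, 1 ≤ a ∧ 1 ≤ b ∧ a + b + r = n ∧ v = G a ^^^ G b))}

theorem IsGrundy.ne {d G : ℕ → ℕ} (hG : IsGrundy d G) {r : ℕ} (hr : 1 ≤ r)
    (hd : (d r).testBit 2 = true) {m a : ℕ} (hm : 1 ≤ m) (ha : 1 ≤ a) :
    G (m + a + r) ≠ G m ^^^ G a := by
  obtain ⟨n, hn⟩ : ∃ n, n = m + a + r := ⟨_, rfl⟩
  have hfin : {v : ℕ | ¬ ∃ r : ℕ, 1 ≤ r ∧ r ≤ n ∧
      (((d r).testBit 0 = true ∧ r = n ∧ v = 0) ∨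
       ((d r).testBit 1 = true ∧ r < n ∧ v = G (n - r)) ∨
       ((d r).testBit 2 = true ∧ ∃ a b : ℕ, 1 ≤ a ∧ 1 ≤ b ∧ a + b + r = n ∧
          v = G a ^^^ G b))}.Nonempty := by
    obtain ⟨v, hv⟩ := Infinite.exists_notMem_finset (insert 0 ((range n).image G ∪
      (range n ×ˢ range n).image (fun p => G p.1 ^^^ G p.2)))
    refine ⟨v, ?_⟩
    rintro ⟨s, hs1, hs2, h⟩
    apply hv
    rw [Finset.mem_insert, Finset.mem_union, Finset.mem_image, Finset.mem_image]
    rcases h with ⟨_, _, h⟩ | ⟨_, h1, h⟩ | ⟨_, a', b', h1, h2, h3, h⟩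
    · exact Or.inl h
    · exact Or.inr (Or.inl ⟨n - s, by rw [Finset.mem_range]; omega, h.symm⟩)
    · refine Or.inr (Or.inr ⟨(a', b'), ?_, h.symm⟩)
      rw [Finset.mem_product, Finset.mem_range, Finset.mem_range]
      exact ⟨by show a' < n; omega, by show b' < n; omega⟩
  have hmem := Nat.sInf_mem hfin
  rw [← hG n] at hmem
  intro h
  rw [← hn] at h
  exact hmem ⟨r, hr, by omega, Or.inr (Or.inr ⟨hd, m, a, hm, ha, hn.symm, h⟩)⟩

/-- The Walsh character: `(-1)` to the number of `i ∈ W` such that the binary digit `i` of `g`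
is `1`. -/
noncomputable def chi (W : Finset ℕ) (g : ℕ) : ℝ := ∏ i ∈ W, if g.testBit i = true then (-1 : ℝ) else 1

theorem chi_xor (W : Finset ℕ) (g h : ℕ) : chi W (g ^^^ h) = chi W g * chi W h := by
  unfold chi
  rw [← Finset.prod_mul_distrib]
  refine Finset.prod_congr rfl fun i _ => ?_
  rw [Nat.testBit_xor]
  cases g.testBit i <;> cases h.testBit i <;> simp

theorem chi_sq (W : Finset ℕ) (g : ℕ) : chi W g ^ 2 = 1 := by
  rw [sq, ← chi_xor, Nat.xor_self]
  unfold chi
  simp

theorem sum_chi (b g : ℕ) (h0 : g ≠ 0) (h : g < 2 ^ b) :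
    ∑ W ∈ (range b).powerset, chi W g = 0 := by
  unfold chi
  rw [← Finset.prod_one_add]
  obtain ⟨i, hi⟩ : ∃ i, g.testBit i = true := by
    by_contra hc
    push Not at hc
    apply h0
    apply Nat.eq_of_testBit_eq
    intro i
    simp [hc i]
  have hib : i < b := by
    by_contra hc
    have := Nat.testBit_lt_two_pow (lt_of_lt_of_le h (Nat.pow_le_pow_right (by norm_num)
      (not_lt.mp hc)))
    rw [this] at hi
    exact absurd hi (by decide)
  exact Finset.prod_eq_zero (Finset.mem_range.mpr hib) (by rw [if_pos hi]; norm_num)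

theorem key (M : ℕ) [NeZero M] (r b : ℕ) (P A : Finset ℕ) (G : ℕ → ℕ)
    (hP : ∀ n ∈ P, G n < 2 ^ b) (hA : ∀ a ∈ A, G a < 2 ^ b)
    (hne : ∀ m ∈ P, ∀ n ∈ P, ∀ a ∈ A, (n : ZMod M) = m + a + r → G n ≠ G m ^^^ G a) :
    ∑ W ∈ (range b).powerset.erase ∅, tri M r P A (fun n => chi W (G n)) (fun n => chi W (G n))
      = - tri M r P A (fun _ => 1) (fun _ => 1) := by
  have h1 : ∑ W ∈ (range b).powerset,
      tri M r P A (fun n => chi W (G n)) (fun n => chi W (G n)) = 0 := by
    unfold tri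
    rw [Finset.sum_comm]
    refine Finset.sum_eq_zero fun m hm => ?_
    rw [Finset.sum_comm]
    refine Finset.sum_eq_zero fun n hn => ?_
    rw [Finset.sum_comm]
    refine Finset.sum_eq_zero fun a ha => ?_
    by_cases h : (n : ZMod M) = m + a + r
    · simp only [if_pos h]
      have h2 : ∀ W ∈ (range b).powerset, chi W (G m) * chi W (G n) * chi W (G a)
          = chi W (G m ^^^ G n ^^^ G a) := by
        intro W _
        rw [chi_xor, chi_xor]
      rw [Finset.sum_congr rfl h2]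
      apply sum_chi
      · intro h3
        apply hne m hm n hn a ha h
        have h4 : G n = G m ^^^ G a ^^^ (G m ^^^ G n ^^^ G a) := by
          apply Nat.eq_of_testBit_eq
          intro i
          simp only [Nat.testBit_xor]
          cases (G m).testBit i <;> cases (G n).testBit i <;> cases (G a).testBit i <;> rfl
        rw [h4, h3, Nat.xor_zero]
      · exact Nat.xor_lt_two_pow (Nat.xor_lt_two_pow (hP m hm) (hP n hn)) (hA a ha)
    · simp only [if_neg h, Finset.sum_const_zero]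
  have h2 := Finset.add_sum_erase (range b).powerset
    (fun W => tri M r P A (fun n => chi W (G n)) (fun n => chi W (G n)))
    (Finset.empty_mem_powerset (range b))
  rw [h1] at h2
  have h3 : tri M r P A (fun n => chi ∅ (G n)) (fun n => chi ∅ (G n))
      = tri M r P A (fun _ => 1) (fun _ => 1) := by
    unfold chi
    simp only [Finset.prod_empty]
  simp only [h3] at h2
  linarith

end H45O
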