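import Pool.Agent.Lib.H45O.Bil

/-!
# The measures of a pair of values, the Wiener estimate, good sets, selection
-/

namespace H45O

open Finset Complex MeasureTheory Filter Topology

noncomputable local instance instMSCircle9 : MeasurableSpace Circle := borel Circle

local instance instBSCircle9 : BorelSpace Circle := ⟨rfl⟩

local instance instSCCircle9 : SecondCountableTopology Circle :=
  inferInstanceAs (SecondCountableTopology (Metric.sphere (0 : ℂ) 1))

/-- The exponential sum over the places of the value `w`. -/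
noncomputable def gc (A : Finset ℕ) (z : Circle) : ℂ := ∑ a ∈ A, ((z ^ a : Circle) : ℂ)

theorem continuous_gc (A : Finset ℕ) : Continuous (gc A) := by
  unfold gc
  refine continuous_finsetSum _ fun a _ => ?_
  fun_prop

/-- The set of the places of the value `w` up to `l`. -/
def pl (G : ℕ → ℕ) (w l : ℕ) : Finset ℕ := (Ioc 0 l).filter (fun a => G a = w)

theorem pl_subset (G : ℕ → ℕ) (w l : ℕ) : pl G w l ⊆ Ioc 0 l := Finset.filter_subset _ _

/-- The limit measure of a sequence of windows and pairs of values. -/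
theorem exists_tau (d G : ℕ → ℕ) (hG : IsGrundy d G) (r : ℕ) (hr : 1 ≤ r)
    (hd : (d r).testBit 2 = true) (w : ℕ) (q : ℝ) (hq : 0 ≤ q) (X N u v : ℕ → ℕ)
    (hN : Tendsto N atTop atTop) (huv : ∀ j, u j ^^^ v j = w)
    (hu : ∀ j, q * N j ≤ (((Ioc (X j) (X j + N j)).filter (fun m => G m = u j)).card : ℝ))
    (hv : ∀ j, q * N j ≤ (((Ioc (X j) (X j + N j)).filter (fun m => G m = v j)).card : ℝ)) :
    ∃ τ : FiniteMeasure Circle, τ.mass ≤ 1 ∧
      (∀ l : ℕ, q ^ 2 * ((pl G w l).card : ℝ) ≤ ∫ z, ‖gc (pl G w l) z‖ ∂(τ : Measure Circle)) ∧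
      ∀ f : Circle → ℝ, Continuous f → Tendsto (fun j => Psi (X j) (N j)
        (cen G (X j) (N j) (u j)) (cen G (X j) (N j) (v j)) f)
        (hyperfilter ℕ) (𝓝 (∫ z, f z ∂(τ : Measure Circle))) := by
  have hlev : ∀ j : ℕ, ∃ μ : FiniteMeasure Circle, μ.mass ≤ 1 ∧
      ∀ f : Circle → ℝ, Continuous f → ∫ z, f z ∂(μ : Measure Circle) =
        Psi (X j) (N j) (cen G (X j) (N j) (u j)) (cen G (X j) (N j) (v j)) f := fun j =>
    exists_level_two (X j) (N j) _ _ (abs_cen_le G (X j) (N j) (u j))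
      (abs_cen_le G (X j) (N j) (v j))
  choose μ hμ1 hμ2 using hlev
  obtain ⟨τ, hτ1, hτ2⟩ := exists_lim μ hμ1
  have hτ3 : ∀ f : Circle → ℝ, Continuous f → Tendsto (fun j => Psi (X j) (N j)
      (cen G (X j) (N j) (u j)) (cen G (X j) (N j) (v j)) f)
      (hyperfilter ℕ) (𝓝 (∫ z, f z ∂(τ : Measure Circle))) := by
    intro f hf
    exact (hτ2 f hf).congr fun j => hμ2 j f hf
  refine ⟨τ, hτ1, fun l => ?_, hτ3⟩
  obtain ⟨A, hA⟩ : ∃ A : ℝ, A = ((pl G w l).card : ℝ) := ⟨_, rfl⟩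
  rw [← hA]
  have hA0 : 0 ≤ A := by rw [hA]; exact Nat.cast_nonneg _
  have h1 := hτ3 (fun z => ‖gc (pl G w l) z‖) (continuous_gc (pl G w l)).norm
  have h2 : Tendsto (fun j : ℕ => q ^ 2 * A - A * (2 * ((l : ℝ) + r) / (N j : ℝ)))
      (hyperfilter ℕ) (𝓝 (q ^ 2 * A)) := by
    have h3 : Tendsto (fun j : ℕ => 2 * ((l : ℝ) + r) / (N j : ℝ)) atTop (𝓝 0) :=
      Tendsto.const_div_atTop (tendsto_natCast_atTop_atTop.comp hN) _
    have h4 : Tendsto (fun j : ℕ => q ^ 2 * A - A * (2 * ((l : ℝ) + r) / (N j : ℝ)))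
        atTop (𝓝 (q ^ 2 * A - A * 0)) :=
      tendsto_const_nhds.sub (h3.const_mul A)
    have h5 := h4.mono_left Nat.hyperfilter_le_atTop
    simp only [mul_zero, sub_zero] at h5
    exact h5
  refine le_of_tendsto_of_tendsto h2 h1 ?_
  have hev : ∀ᶠ j : ℕ in atTop, q ^ 2 * A - A * (2 * ((l : ℝ) + r) / (N j : ℝ)) ≤
      Psi (X j) (N j) (cen G (X j) (N j) (u j)) (cen G (X j) (N j) (v j))
        (fun z => ‖gc (pl G w l) z‖) := by
    filter_upwards [hN.eventually (eventually_ge_atTop (l + r + 1))] with j h4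
    have h5 := rel_two d G hG r hr hd w (u j) (v j) (X j) (N j) l q hq (huv j) (hu j) (hv j) h4
    have h6 := bil_le (2 * N j + 1) r (Ioc (X j) (X j + N j)) (pl G w l)
      (cen G (X j) (N j) (u j)) (cen G (X j) (N j) (v j))
    have hN0 : (0 : ℝ) < (N j : ℝ) := by exact_mod_cast (by omega : 0 < N j)
    have hpl : (Ioc 0 l).filter (fun a => G a = w) = pl G w l := rfl
    rw [hpl, ← hA] at h5
    have h7 : ∑ k : ZMod (2 * N j + 1),
        ‖hat (2 * N j + 1) (Ioc (X j) (X j + N j)) (cen G (X j) (N j) (u j)) k‖ *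
        ‖hat (2 * N j + 1) (Ioc (X j) (X j + N j)) (cen G (X j) (N j) (v j)) k‖ *
        ‖∑ a ∈ pl G w l, (((ZMod.toCircle k) ^ a : Circle) : ℂ)‖ =
        (N j * (2 * N j + 1)) * Psi (X j) (N j) (cen G (X j) (N j) (u j))
          (cen G (X j) (N j) (v j)) (fun z => ‖gc (pl G w l) z‖) := by
      unfold Psi gc
      rw [Finset.mul_sum]
      refine Finset.sum_congr rfl fun k _ => ?_
      field_simp
    rw [h7] at h6
    push_cast at h6
    have h8 : (2 * (N j : ℝ) + 1) * (A * (q ^ 2 * N j - 2 * (l + r))) ≤ (2 * (N j : ℝ) + 1) *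
        (N j * Psi (X j) (N j) (cen G (X j) (N j) (u j))
          (cen G (X j) (N j) (v j)) (fun z => ‖gc (pl G w l) z‖)) := by
      have h9 := mul_le_mul_of_nonneg_left h5 (by positivity : (0 : ℝ) ≤ 2 * (N j : ℝ) + 1)
      linarith
    have h9 := le_of_mul_le_mul_left h8 (by positivity)
    have h10 : (N j : ℝ) * (q ^ 2 * A - A * (2 * ((l : ℝ) + r) / (N j : ℝ))) =
        A * (q ^ 2 * N j - 2 * (l + r)) := by
      field_simp
    have h11 : (N j : ℝ) * (q ^ 2 * A - A * (2 * ((l : ℝ) + r) / (N j : ℝ))) ≤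
        N j * Psi (X j) (N j) (cen G (X j) (N j) (u j))
          (cen G (X j) (N j) (v j)) (fun z => ‖gc (pl G w l) z‖) := by
      rw [h10]; exact h9
    exact le_of_mul_le_mul_left h11 hN0
  exact hev.filter_mono Nat.hyperfilter_le_atTop

/-- The phase. -/
noncomputable def phs (A : Finset ℕ) (z : Circle) : ℂ :=
  (starRingEnd ℂ) (gc A z) * ((‖gc A z‖⁻¹ : ℝ) : ℂ)

theorem norm_phs (A : Finset ℕ) (z : Circle) : ‖phs A z‖ ≤ 1 := by
  unfold phs
  rw [norm_mul, RCLike.norm_conj, Complex.norm_real, norm_inv, norm_norm]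
  exact mul_inv_le_one

theorem phs_mul (A : Finset ℕ) (z : Circle) : phs A z * gc A z = ((‖gc A z‖ : ℝ) : ℂ) := by
  unfold phs
  rcases eq_or_ne (gc A z) 0 with h | h
  · rw [h]; simp
  · have h1 : ‖gc A z‖ ≠ 0 := norm_ne_zero_iff.mpr h
    have h2 : (starRingEnd ℂ) (gc A z) * gc A z = ((‖gc A z‖ ^ 2 : ℝ) : ℂ) := by
      rw [mul_comm, Complex.mul_conj, Complex.normSq_eq_norm_sq]
    calc (starRingEnd ℂ) (gc A z) * ((‖gc A z‖⁻¹ : ℝ) : ℂ) * gc A z
        = ((‖gc A z‖⁻¹ : ℝ) : ℂ) * ((starRingEnd ℂ) (gc A z) * gc A z) := by ring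
      _ = ((‖gc A z‖⁻¹ * ‖gc A z‖ ^ 2 : ℝ) : ℂ) := by rw [h2]; push_cast; ring
      _ = _ := by
        congr 1
        field_simp

theorem measurable_phs (A : Finset ℕ) : Measurable (phs A) := by
  unfold phs
  refine Measurable.mul ?_ ?_
  · exact (Complex.continuous_conj.comp (continuous_gc A)).measurable
  · exact Complex.measurable_ofReal.comp ((continuous_gc A).norm.measurable.inv)

/-- The estimate. -/
theorem wiener_gc (ρ : Measure Circle) [IsFiniteMeasure ρ] (A : Finset ℕ) (l : ℕ)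
    (hA : A ⊆ Ioc 0 l) (hl : 1 ≤ l) (τ : ℝ) (hτ : 0 < τ) :
    ∫ z, ‖gc A z‖ / l ∂ρ ≤ τ / 2 + (∫ p, kern l p ∂(ρ.prod ρ)) / (2 * τ) := by
  have hl0 : (0 : ℝ) < l := by exact_mod_cast hl
  have hcc : ∀ n : ℕ, Continuous (fun z : Circle => ((z ^ n : Circle) : ℂ)) := by
    intro n
    fun_prop
  have hint : ∀ n : ℕ, Integrable (fun z : Circle => phs A z * ((z ^ n : Circle) : ℂ)) ρ := by
    intro n
    refine Integrable.of_bound (C := 1) ?_ ?_
    · exact (measurable_phs A).aestronglyMeasurable.mul (hcc n).aestronglyMeasurable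
    · refine Filter.Eventually.of_forall fun z => ?_
      rw [norm_mul, Circle.norm_coe, mul_one]
      exact norm_phs A z
  obtain ⟨I, hI⟩ : ∃ I : ℕ → ℂ, ∀ n, I n = ∫ z, phs A z * ((z ^ n : Circle) : ℂ) ∂ρ :=
    ⟨_, fun _ => rfl⟩
  have h1 : ∫ z, ‖gc A z‖ ∂ρ ≤ ∑ a ∈ A, ‖I a‖ := by
    have h2 : ∀ z, ((‖gc A z‖ : ℝ) : ℂ) = ∑ a ∈ A, phs A z * ((z ^ a : Circle) : ℂ) := by
      intro z
      rw [← phs_mul, ← Finset.mul_sum]
      rfl
    have h3 : ((∫ z, ‖gc A z‖ ∂ρ : ℝ) : ℂ) = ∑ a ∈ A, I a := by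
      have h5 : ∫ z, ((‖gc A z‖ : ℝ) : ℂ) ∂ρ = ((∫ z, ‖gc A z‖ ∂ρ : ℝ) : ℂ) := integral_ofReal
      rw [← h5]
      simp only [h2]
      rw [integral_finsetSum _ (fun a _ => hint a)]
      exact Finset.sum_congr rfl fun a _ => (hI a).symm
    have h4 := congrArg norm h3
    rw [Complex.norm_real, Real.norm_eq_abs] at h4
    exact (le_abs_self _).trans (h4.le.trans (norm_sum_le _ _))
  have h4 : ∑ a ∈ A, ‖I a‖ ≤ ∑ a ∈ Ioc 0 l, (τ / 2 + ‖I a‖ ^ 2 / (2 * τ)) := by
    have h5 : ∀ a, ‖I a‖ ≤ τ / 2 + ‖I a‖ ^ 2 / (2 * τ) := by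
      intro a
      have h6 : τ / 2 + ‖I a‖ ^ 2 / (2 * τ) - ‖I a‖ = (τ - ‖I a‖) ^ 2 / (2 * τ) := by
        field_simp
        ring
      have h7 : 0 ≤ (τ - ‖I a‖) ^ 2 / (2 * τ) := by positivity
      linarith
    calc ∑ a ∈ A, ‖I a‖ ≤ ∑ a ∈ Ioc 0 l, ‖I a‖ := by
          apply Finset.sum_le_sum_of_subset_of_nonneg hA
          intro _ _ _; exact norm_nonneg _
      _ ≤ _ := Finset.sum_le_sum fun a _ => h5 a
  have h8 : ∑ a ∈ Ioc 0 l, ‖I a‖ ^ 2 ≤ l * ∫ p, kern l p ∂(ρ.prod ρ) := by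
    have hconj : ∀ n, (starRingEnd ℂ) (I n) =
        ∫ w, (starRingEnd ℂ) (phs A w) * (starRingEnd ℂ) ((w ^ n : Circle) : ℂ) ∂ρ := by
      intro n
      rw [hI, ← integral_conj]
      refine integral_congr_ae (Filter.Eventually.of_forall fun w => ?_)
      show (starRingEnd ℂ) (phs A w * ((w ^ n : Circle) : ℂ)) = _
      rw [(starRingEnd ℂ).map_mul]
    have hprod : ∀ n, ((‖I n‖ ^ 2 : ℝ) : ℂ) = ∫ p : Circle × Circle,
        (phs A p.1 * ((p.1 ^ n : Circle) : ℂ)) *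
        ((starRingEnd ℂ) (phs A p.2) * (starRingEnd ℂ) ((p.2 ^ n : Circle) : ℂ)) ∂(ρ.prod ρ) := by
      intro n
      rw [integral_prod_mul (fun z : Circle => phs A z * ((z ^ n : Circle) : ℂ))
        (fun w : Circle => (starRingEnd ℂ) (phs A w) * (starRingEnd ℂ) ((w ^ n : Circle) : ℂ)),
        ← hconj, ← hI, Complex.mul_conj, Complex.normSq_eq_norm_sq]
    have hint2 : ∀ n, Integrable (fun p : Circle × Circle =>
        (phs A p.1 * ((p.1 ^ n : Circle) : ℂ)) *
        ((starRingEnd ℂ) (phs A p.2) * (starRingEnd ℂ) ((p.2 ^ n : Circle) : ℂ))) (ρ.prod ρ) := by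
      intro n
      have h9 : Integrable (fun w : Circle =>
          (starRingEnd ℂ) (phs A w) * (starRingEnd ℂ) ((w ^ n : Circle) : ℂ)) ρ := by
        refine Integrable.of_bound (C := 1) ?_ ?_
        · exact (Complex.continuous_conj.measurable.comp
            (measurable_phs A)).aestronglyMeasurable.mul
            (Complex.continuous_conj.comp (hcc n)).aestronglyMeasurable
        · refine Filter.Eventually.of_forall fun z => ?_
          rw [norm_mul, RCLike.norm_conj, RCLike.norm_conj, Circle.norm_coe, mul_one]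
          exact norm_phs A z
      exact (hint n).mul_prod h9
    have hsum : ((∑ a ∈ Ioc 0 l, ‖I a‖ ^ 2 : ℝ) : ℂ) = ∫ p : Circle × Circle,
        ∑ a ∈ Ioc 0 l, (phs A p.1 * ((p.1 ^ a : Circle) : ℂ)) *
        ((starRingEnd ℂ) (phs A p.2) * (starRingEnd ℂ) ((p.2 ^ a : Circle) : ℂ)) ∂(ρ.prod ρ) := by
      rw [integral_finsetSum _ (fun a _ => hint2 a), Complex.ofReal_sum]
      exact Finset.sum_congr rfl fun a _ => hprod a
    have hn := congrArg norm hsum
    rw [Complex.norm_real, Real.norm_eq_abs, abs_of_nonneg (by positivity)] at hn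
    rw [hn, ← integral_const_mul]
    refine norm_integral_le_of_norm_le ?_ ?_
    · apply Integrable.const_mul
      refine Integrable.of_bound (C := 1) (continuous_kern l).aestronglyMeasurable ?_
      refine Filter.Eventually.of_forall fun p => ?_
      rw [Real.norm_eq_abs, abs_of_nonneg (kern_nonneg l p)]
      exact kern_le_one l p
    · refine Filter.Eventually.of_forall fun p => ?_
      have h10 : ∑ a ∈ Ioc 0 l, (phs A p.1 * ((p.1 ^ a : Circle) : ℂ)) *
          ((starRingEnd ℂ) (phs A p.2) * (starRingEnd ℂ) ((p.2 ^ a : Circle) : ℂ)) =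
          phs A p.1 * (starRingEnd ℂ) (phs A p.2) *
            ∑ a ∈ Ioc 0 l, (((p.1 / p.2) ^ a : Circle) : ℂ) := by
        rw [Finset.mul_sum]
        refine Finset.sum_congr rfl fun a _ => ?_
        have h11 : (starRingEnd ℂ) ((p.2 ^ a : Circle) : ℂ) = (((p.2 ^ a)⁻¹ : Circle) : ℂ) := by
          rw [Circle.coe_inv_eq_conj]
        have h12 : (((p.1 / p.2) ^ a : Circle) : ℂ) =
            ((p.1 ^ a : Circle) : ℂ) * (((p.2 ^ a)⁻¹ : Circle) : ℂ) := by
          rw [← Circle.coe_mul, div_pow, div_eq_mul_inv]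
        rw [h11, h12]
        ring
      rw [h10, norm_mul, norm_mul, RCLike.norm_conj]
      unfold kern
      rw [mul_div_cancel₀ _ hl0.ne']
      have h13 : ‖phs A p.1‖ * ‖phs A p.2‖ ≤ 1 :=
        mul_le_one₀ (norm_phs A p.1) (norm_nonneg _) (norm_phs A p.2)
      calc ‖phs A p.1‖ * ‖phs A p.2‖ * ‖∑ a ∈ Ioc 0 l, (((p.1 / p.2) ^ a : Circle) : ℂ)‖
          ≤ 1 * ‖∑ a ∈ Ioc 0 l, (((p.1 / p.2) ^ a : Circle) : ℂ)‖ :=
            mul_le_mul_of_nonneg_right h13 (norm_nonneg _)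
        _ = _ := one_mul _
  rw [integral_div, div_le_iff₀ hl0]
  refine (h1.trans h4).trans ?_
  rw [Finset.sum_add_distrib, Finset.sum_const, Nat.card_Ioc, nsmul_eq_mul, ← Finset.sum_div,
    Nat.sub_zero]
  have h14 : (∑ a ∈ Ioc 0 l, ‖I a‖ ^ 2) / (2 * τ) ≤
      (l * ∫ p, kern l p ∂(ρ.prod ρ)) / (2 * τ) :=
    div_le_div_of_nonneg_right h8 (by positivity)
  calc (l : ℝ) * (τ / 2) + (∑ a ∈ Ioc 0 l, ‖I a‖ ^ 2) / (2 * τ)
      ≤ (l : ℝ) * (τ / 2) + (l * ∫ p, kern l p ∂(ρ.prod ρ)) / (2 * τ) := by linarith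
    _ = _ := by ring

theorem gc_le (A : Finset ℕ) (l : ℕ) (hA : A ⊆ Ioc 0 l) (z : Circle) : ‖gc A z‖ ≤ l := by
  unfold gc
  refine (norm_sum_le _ _).trans ?_
  have h1 : ∀ a ∈ A, ‖((z ^ a : Circle) : ℂ)‖ ≤ 1 := by
    intro a _
    rw [Circle.norm_coe]
  refine (Finset.sum_le_sum h1).trans ?_
  rw [Finset.sum_const, nsmul_eq_mul, mul_one]
  have h2 := Finset.card_le_card hA
  rw [Nat.card_Ioc] at h2
  exact_mod_cast (by omega : A.card ≤ l)

/-- Good finite sets of frequencies for the value `w`. -/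
def GoodC (G : ℕ → ℕ) (w : ℕ) (α κ C : ℝ) (Θ : Finset Circle) : Prop :=
  (Θ.card : ℝ) ≤ C ∧ (∀ z ∈ Θ, ∃ᶠ l : ℕ in atTop, κ * l ≤ ‖gc (pl G w l) z‖) ∧
    ∀ᶠ l : ℕ in atTop, α * l ≤ ((pl G w l).card : ℝ) → ∃ z ∈ Θ, κ * l ≤ ‖gc (pl G w l) z‖

theorem multiC (G : ℕ → ℕ) (w : ℕ) (α q : ℝ) (hα : 0 < α) (hq : 0 < q)
    (κ : ℝ) (hκ : κ = α * q ^ 2 / 2) (τ : FiniteMeasure Circle) (hτ : τ.mass ≤ 1)
    (hrel : ∀ l : ℕ,
      q ^ 2 * ((pl G w l).card : ℝ) ≤ ∫ z, ‖gc (pl G w l) z‖ ∂(τ : Measure Circle)) :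
    ∃ Θ : Finset Circle, GoodC G w α κ (2 / κ ^ 2) Θ ∧
      ∀ z ∈ Θ, κ ^ 2 / 2 ≤ (τ : Measure Circle).real {z} := by
  classical
  have hκ0 : 0 < κ := by rw [hκ]; positivity
  obtain ⟨T, hT1, hT3, hT2⟩ := atoms_finite τ hτ (κ ^ 2 / 2) (by positivity)
  have hTm : MeasurableSet ((T : Set Circle)ᶜ) := T.measurableSet.compl
  have hone : (τ : Measure Circle).real Set.univ ≤ 1 := by
    have h7 : (τ : Measure Circle).real Set.univ = (τ.mass : ℝ) := rfl
    rw [h7]
    exact_mod_cast hτ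
  obtain ⟨t, ht1, ht2⟩ := kern_integral ((τ : Measure Circle).restrict ((T : Set Circle)ᶜ))
    (κ ^ 2 / 2) (by positivity) (by
      rw [Measure.restrict_apply_univ]
      refine (measure_mono (Set.subset_univ _)).trans ?_
      have h1 : (τ : Measure Circle) Set.univ = (τ.mass : ENNReal) := by
        rw [FiniteMeasure.ennreal_mass]
      rw [h1]
      exact_mod_cast hτ) (by
      intro z
      rw [Measure.restrict_apply (MeasurableSet.singleton z)]
      by_cases hz : z ∈ T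
      · have h1 : ({z} : Set Circle) ∩ (T : Set Circle)ᶜ = ∅ := by
          ext y
          rw [Set.mem_inter_iff, Set.mem_singleton_iff, Set.mem_compl_iff, Finset.mem_coe]
          constructor
          · rintro ⟨h2, h3⟩
            rw [h2] at h3
            exact absurd hz h3
          · intro h2
            exact absurd h2 (Set.notMem_empty y)
        rw [h1, measure_empty]
        exact bot_le
      · exact (measure_mono Set.inter_subset_left).trans (hT2 z hz))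
  have h3 : ∀ᶠ l : ℕ in atTop, ∫ p, kern l p ∂(((τ : Measure Circle).restrict
      ((T : Set Circle)ᶜ)).prod ((τ : Measure Circle).restrict
      ((T : Set Circle)ᶜ))) < κ ^ 2 :=
    ht2.eventually (gt_mem_nhds (by nlinarith [sq_pos_of_pos hκ0]))
  have hfull : ∀ᶠ l : ℕ in atTop, α * l ≤ ((pl G w l).card : ℝ) →
      ∃ z ∈ T, κ * l ≤ ‖gc (pl G w l) z‖ := by
    filter_upwards [h3, eventually_ge_atTop 1] with l h4 h5 h6
    have hl0 : (0 : ℝ) < l := by exact_mod_cast h5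
    by_contra hcon
    push Not at hcon
    have h7 := wiener_gc ((τ : Measure Circle).restrict ((T : Set Circle)ᶜ)) (pl G w l) l
      (pl_subset G w l) h5 κ hκ0
    have h8 : (∫ p, kern l p ∂(((τ : Measure Circle).restrict
        ((T : Set Circle)ᶜ)).prod ((τ : Measure Circle).restrict
        ((T : Set Circle)ᶜ)))) / (2 * κ) < κ ^ 2 / (2 * κ) :=
      div_lt_div_of_pos_right h4 (by positivity)
    have h9 : κ ^ 2 / (2 * κ) = κ / 2 := by field_simp
    have h10 : ∫ z in (T : Set Circle)ᶜ, ‖gc (pl G w l) z‖ / l ∂(τ : Measure Circle) < κ := by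
      linarith
    have hcont : Continuous (fun z => ‖gc (pl G w l) z‖ / (l : ℝ)) :=
      (continuous_gc (pl G w l)).norm.div_const _
    have h11 : ∫ z in (T : Set Circle), ‖gc (pl G w l) z‖ / l ∂(τ : Measure Circle) ≤ κ := by
      have h12 : ∫ z in (T : Set Circle), ‖gc (pl G w l) z‖ / l ∂(τ : Measure Circle) ≤
          ∫ z in (T : Set Circle), κ ∂(τ : Measure Circle) := by
        apply setIntegral_mono_on (integ _ _ hcont).integrableOn
          (integ _ _ continuous_const).integrableOn T.measurableSet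
        intro z hz
        have h13 := hcon z hz
        rw [div_le_iff₀ hl0]
        exact h13.le
      rw [setIntegral_const, smul_eq_mul] at h12
      have h14 : (τ : Measure Circle).real (T : Set Circle) ≤ 1 :=
        (measureReal_mono (Set.subset_univ _)).trans hone
      nlinarith
    have h15 := hrel l
    have h16 : ∫ z, ‖gc (pl G w l) z‖ / l ∂(τ : Measure Circle) =
        (∫ z, ‖gc (pl G w l) z‖ ∂(τ : Measure Circle)) / l := integral_div _ _
    rw [← integral_add_compl T.measurableSet (integ _ _ hcont)] at h16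
    have h17 : q ^ 2 * α ≤ (∫ z, ‖gc (pl G w l) z‖ ∂(τ : Measure Circle)) / l := by
      rw [le_div_iff₀ hl0]
      calc q ^ 2 * α * l = q ^ 2 * (α * l) := by ring
        _ ≤ q ^ 2 * ((pl G w l).card : ℝ) := mul_le_mul_of_nonneg_left h6 (by positivity)
        _ ≤ _ := h15
    have h18 : q ^ 2 * α = κ + κ := by rw [hκ]; ring
    linarith
  refine ⟨T.filter (fun z => ∃ᶠ l : ℕ in atTop, κ * l ≤ ‖gc (pl G w l) z‖), ⟨?_, ?_, ?_⟩, ?_⟩
  · have h4 : ((T.filter (fun z => ∃ᶠ l : ℕ in atTop, κ * l ≤ ‖gc (pl G w l) z‖)).card : ℝ) ≤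
        (T.card : ℝ) := by exact_mod_cast Finset.card_filter_le _ _
    refine h4.trans (hT1.trans (le_of_eq ?_))
    field_simp
  · intro z hz
    rw [Finset.mem_filter] at hz
    exact hz.2
  · have h5 : ∀ᶠ l : ℕ in atTop, ∀ z ∈ T.filter
        (fun z => ¬ ∃ᶠ l : ℕ in atTop, κ * l ≤ ‖gc (pl G w l) z‖),
        ¬ κ * l ≤ ‖gc (pl G w l) z‖ := by
      rw [Filter.eventually_all_finset]
      intro z hz
      rw [Finset.mem_filter] at hz
      exact Filter.not_frequently.mp hz.2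
    filter_upwards [hfull, h5] with l hl1 hl2 hl3
    obtain ⟨z, hz1, hz2⟩ := hl1 hl3
    refine ⟨z, ?_, hz2⟩
    rw [Finset.mem_filter]
    refine ⟨hz1, ?_⟩
    by_contra hc
    exact hl2 z (Finset.mem_filter.mpr ⟨hz1, hc⟩) hz2
  · intro z hz
    rw [Finset.mem_filter] at hz
    exact hT3 z hz.1

theorem besselC (A : Finset ℕ) (l : ℕ) (hA : A ⊆ Ioc 0 l) (hl : 1 ≤ l) (κ : ℝ) (hκ : 0 < κ)
    (η : ℝ) (hη0 : 0 ≤ η) (Z : Finset Circle)
    (hη : ∀ z ∈ Z, ∀ z' ∈ Z, z ≠ z' → kern l (z, z') ≤ η)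
    (hZ : ∀ z ∈ Z, κ * l ≤ ‖gc A z‖) :
    κ ^ 2 * Z.card ≤ 1 + κ ^ 2 * (Z.card : ℝ) ^ 2 * η := by
  classical
  have hl0 : (0 : ℝ) < l := by exact_mod_cast hl
  obtain ⟨y, hy⟩ : ∃ y : ℕ → ℝ, ∀ a, y a = if a ∈ A then 1 else 0 := ⟨_, fun _ => rfl⟩
  obtain ⟨q, hq⟩ : ∃ q : ℕ → ℂ, ∀ a, q a = ∑ z ∈ Z, phs A z * ((z ^ a : Circle) : ℂ) :=
    ⟨_, fun _ => rfl⟩
  have h0 : 0 ≤ ∑ a ∈ Ioc 0 l, (y a ^ 2 - 2 * κ * (y a * (q a).re) +
      κ ^ 2 * Complex.normSq (q a)) := by
    refine Finset.sum_nonneg fun a _ => ?_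
    have h1 : y a ^ 2 - 2 * κ * (y a * (q a).re) + κ ^ 2 * Complex.normSq (q a) =
        (y a - κ * (q a).re) ^ 2 + (κ * (q a).im) ^ 2 := by
      rw [Complex.normSq_apply]
      ring
    rw [h1]
    positivity
  rw [Finset.sum_add_distrib, Finset.sum_sub_distrib, ← Finset.mul_sum, ← Finset.mul_sum] at h0
  have h2 : ∑ a ∈ Ioc 0 l, y a ^ 2 ≤ l := by
    have h3 : ∀ a ∈ Ioc 0 l, y a ^ 2 ≤ 1 := by
      intro a _
      rw [hy]
      split_ifs <;> norm_num
    refine (Finset.sum_le_sum h3).trans ?_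
    rw [Finset.sum_const, Nat.card_Ioc, nsmul_eq_mul, mul_one, Nat.sub_zero]
  have h4 : (κ * l) * Z.card ≤ ∑ a ∈ Ioc 0 l, y a * (q a).re := by
    have h5 : ∑ a ∈ Ioc 0 l, y a * (q a).re = ∑ z ∈ Z, ‖gc A z‖ := by
      have h6 : ∀ z ∈ Z, ‖gc A z‖ = ∑ a ∈ Ioc 0 l, y a * (phs A z * ((z ^ a : Circle) : ℂ)).re := by
        intro z _
        have h7 := congrArg Complex.re (phs_mul A z)
        rw [Complex.ofReal_re] at h7
        rw [← h7]
        unfold gc
        rw [Finset.mul_sum, Complex.re_sum]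
        have h8 : A = (Ioc 0 l).filter (fun a => a ∈ A) := by
          ext a
          rw [Finset.mem_filter]
          exact ⟨fun h => ⟨hA h, h⟩, fun h => h.2⟩
        have h9 : ∀ f : ℕ → ℝ, ∑ a ∈ A, f a = ∑ a ∈ Ioc 0 l, if a ∈ A then f a else 0 := by
          intro f
          rw [← Finset.sum_filter, ← h8]
        rw [h9]
        refine Finset.sum_congr rfl fun a _ => ?_
        rw [hy]
        split_ifs
        · rw [one_mul]
        · rw [zero_mul]
      rw [Finset.sum_congr rfl h6, Finset.sum_comm]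
      refine Finset.sum_congr rfl fun a _ => ?_
      rw [hq, Complex.re_sum, Finset.mul_sum]
    rw [h5]
    refine le_trans (le_of_eq ?_) (Finset.sum_le_sum hZ)
    rw [Finset.sum_const, nsmul_eq_mul]
    ring
  have h6 : ∑ a ∈ Ioc 0 l, Complex.normSq (q a) ≤ l * (Z.card + (Z.card : ℝ) ^ 2 * η) := by
    have h7 : ∀ a, Complex.normSq (q a) = ∑ z ∈ Z, ∑ z' ∈ Z,
        (phs A z * (starRingEnd ℂ) (phs A z') * (((z / z') ^ a : Circle) : ℂ)).re := by
      intro a
      have h8 : ((Complex.normSq (q a) : ℝ) : ℂ) = ∑ z ∈ Z, ∑ z' ∈ Z,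
          (phs A z * (starRingEnd ℂ) (phs A z') * (((z / z') ^ a : Circle) : ℂ)) := by
        rw [← Complex.mul_conj, hq, map_sum, Finset.sum_mul_sum]
        refine Finset.sum_congr rfl fun z _ => Finset.sum_congr rfl fun z' _ => ?_
        rw [(starRingEnd ℂ).map_mul, ← Circle.coe_inv_eq_conj, div_pow, div_eq_mul_inv,
          Circle.coe_mul]
        ring
      have h9 := congrArg Complex.re h8
      rw [Complex.ofReal_re, Complex.re_sum] at h9
      rw [h9]
      refine Finset.sum_congr rfl fun z _ => ?_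
      rw [Complex.re_sum]
    simp only [h7]
    rw [Finset.sum_comm]
    have h10 : ∀ z ∈ Z, ∀ z' ∈ Z, ∑ a ∈ Ioc 0 l,
        (phs A z * (starRingEnd ℂ) (phs A z') * (((z / z') ^ a : Circle) : ℂ)).re ≤
        l * ((if z = z' then 1 else 0) + η) := by
      intro z hz z' hz'
      have h11 : ∑ a ∈ Ioc 0 l,
          (phs A z * (starRingEnd ℂ) (phs A z') * (((z / z') ^ a : Circle) : ℂ)).re ≤
          l * kern l (z, z') := by
        rw [← Complex.re_sum, ← Finset.mul_sum]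
        refine (Complex.re_le_norm _).trans ?_
        rw [norm_mul, norm_mul, RCLike.norm_conj]
        unfold kern
        rw [mul_div_cancel₀ _ hl0.ne']
        have h13 : ‖phs A z‖ * ‖phs A z'‖ ≤ 1 :=
          mul_le_one₀ (norm_phs A z) (norm_nonneg _) (norm_phs A z')
        calc ‖phs A z‖ * ‖phs A z'‖ * ‖∑ a ∈ Ioc 0 l, (((z / z') ^ a : Circle) : ℂ)‖
            ≤ 1 * ‖∑ a ∈ Ioc 0 l, (((z / z') ^ a : Circle) : ℂ)‖ :=
              mul_le_mul_of_nonneg_right h13 (norm_nonneg _)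
          _ = _ := one_mul _
      refine h11.trans (mul_le_mul_of_nonneg_left ?_ hl0.le)
      by_cases h : z = z'
      · rw [if_pos h]
        have := kern_le_one l (z, z')
        linarith
      · rw [if_neg h, zero_add]
        exact hη z hz z' hz' h
    have h13 : ∀ z ∈ Z, ∑ a ∈ Ioc 0 l, ∑ z' ∈ Z,
        (phs A z * (starRingEnd ℂ) (phs A z') * (((z / z') ^ a : Circle) : ℂ)).re ≤
        l * (1 + Z.card * η) := by
      intro z hz
      rw [Finset.sum_comm]
      refine (Finset.sum_le_sum fun z' hz' => h10 z hz z' hz').trans (le_of_eq ?_)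
      rw [← Finset.mul_sum, Finset.sum_add_distrib, Finset.sum_ite_eq, if_pos hz, Finset.sum_const,
        nsmul_eq_mul]
    refine (Finset.sum_le_sum h13).trans (le_of_eq ?_)
    rw [Finset.sum_const, nsmul_eq_mul]
    ring
  have h14 : 0 ≤ (l : ℝ) * (1 - κ ^ 2 * Z.card + κ ^ 2 * (Z.card : ℝ) ^ 2 * η) := by
    have e1 : 2 * κ * ((κ * l) * Z.card) ≤ 2 * κ * (∑ a ∈ Ioc 0 l, y a * (q a).re) :=
      mul_le_mul_of_nonneg_left h4 (by positivity)
    have e2 : κ ^ 2 * (∑ a ∈ Ioc 0 l, Complex.normSq (q a)) ≤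
        κ ^ 2 * (l * (Z.card + (Z.card : ℝ) ^ 2 * η)) :=
      mul_le_mul_of_nonneg_left h6 (by positivity)
    nlinarith [h0, h2, e1, e2]
  have h15 := nonneg_of_mul_nonneg_right h14 hl0
  linarith

theorem countC (G : ℕ → ℕ) (w : ℕ) (α κ C : ℝ) (hκ : 0 < κ)
    (hα : ∃ᶠ l : ℕ in atTop, α * l ≤ ((pl G w l).card : ℝ)) (n : ℕ)
    (Θs : ℕ → Finset Circle) (hg : ∀ i < n, GoodC G w α κ C (Θs i))
    (hdis : ∀ i < n, ∀ j < n, i ≠ j → Disjoint (Θs i) (Θs j)) : κ ^ 2 * n ≤ 2 := by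
  classical
  obtain ⟨U, hU⟩ : ∃ U : Finset Circle, U = (range n).biUnion Θs := ⟨_, rfl⟩
  obtain ⟨η, hη⟩ : ∃ η : ℝ, η = 1 / (κ ^ 2 * (n : ℝ) ^ 2 + 1) := ⟨_, rfl⟩
  have hden : (0 : ℝ) < κ ^ 2 * (n : ℝ) ^ 2 + 1 := by positivity
  have hη0 : 0 < η := by rw [hη]; positivity
  have hk : ∀ᶠ l : ℕ in atTop, ∀ z ∈ U, ∀ z' ∈ U, z ≠ z' → kern l (z, z') ≤ η := by
    rw [Filter.eventually_all_finset]
    intro z _
    rw [Filter.eventually_all_finset]
    intro z' _
    by_cases h : z = z'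
    · exact Filter.Eventually.of_forall fun l h2 => absurd h h2
    · have h1 := kern_tendsto (z, z')
      have h2 : (z, z') ∉ Set.diagonal Circle := h
      rw [Set.indicator_of_notMem h2] at h1
      filter_upwards [h1.eventually (gt_mem_nhds hη0)] with l h3 _
      exact h3.le
  have hgood : ∀ᶠ l : ℕ in atTop, ∀ i ∈ range n, α * l ≤ ((pl G w l).card : ℝ) →
      ∃ z ∈ Θs i, κ * l ≤ ‖gc (pl G w l) z‖ := by
    rw [Filter.eventually_all_finset]
    intro i hi
    exact (hg i (Finset.mem_range.mp hi)).2.2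
  obtain ⟨l, hlα, h1, h2, h3⟩ :=
    (hα.and_eventually (hk.and (hgood.and (eventually_ge_atTop 1)))).exists
  have hchoose : ∀ i, ∃ t : Circle, i < n → t ∈ Θs i ∧ κ * l ≤ ‖gc (pl G w l) t‖ := by
    intro i
    by_cases hi : i < n
    · obtain ⟨t, ht1, ht2⟩ := h2 i (Finset.mem_range.mpr hi) hlα
      exact ⟨t, fun _ => ⟨ht1, ht2⟩⟩
    · exact ⟨1, fun h => absurd h hi⟩
  choose t ht using hchoose
  have htinj : Set.InjOn t (range n : Set ℕ) := by
    intro i hi j hj hij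
    rw [Finset.mem_coe, Finset.mem_range] at hi hj
    by_contra hne
    have h4 := Finset.disjoint_left.mp (hdis i hi j hj hne) (ht i hi).1
    rw [hij] at h4
    exact h4 (ht j hj).1
  have hFcard : ((range n).image t).card = n := by
    rw [Finset.card_image_of_injOn htinj, Finset.card_range]
  have hFU : ∀ s ∈ (range n).image t, s ∈ U ∧ κ * l ≤ ‖gc (pl G w l) s‖ := by
    intro s hs
    rw [Finset.mem_image] at hs
    obtain ⟨i, hi, hsi⟩ := hs
    have hi' := Finset.mem_range.mp hi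
    rw [← hsi]
    refine ⟨?_, (ht i hi').2⟩
    rw [hU]
    exact Finset.mem_biUnion.mpr ⟨i, hi, (ht i hi').1⟩
  have h4 := besselC (pl G w l) l (pl_subset G w l) h3 κ hκ η hη0.le ((range n).image t)
    (fun z hz z' hz' hzz => h1 z (hFU z hz).1 z' (hFU z' hz').1 hzz)
    (fun z hz => (hFU z hz).2)
  rw [hFcard] at h4
  have h13 : κ ^ 2 * (n : ℝ) ^ 2 * η ≤ 1 := by
    rw [hη, mul_one_div, div_le_one hden]
    linarith
  linarith

theorem selectionC (G : ℕ → ℕ) (w : ℕ) (α κ C : ℝ) (hκ : 0 < κ) (hC : 0 ≤ C)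
    (hα : ∃ᶠ l : ℕ in atTop, α * l ≤ ((pl G w l).card : ℝ)) :
    ∃ Θ : Finset Circle, (Θ.card : ℝ) ≤ 2 / κ ^ 2 * C ∧
      (∀ z ∈ Θ, ∃ᶠ l : ℕ in atTop, κ * l ≤ ‖gc (pl G w l) z‖) ∧
      ∀ Θ', GoodC G w α κ C Θ' → ∃ z ∈ Θ, z ∈ Θ' := by
  classical
  obtain ⟨P, hP⟩ : ∃ P : ℕ → Prop, ∀ n, P n ↔ ∃ Θs : ℕ → Finset Circle,
      (∀ i < n, GoodC G w α κ C (Θs i)) ∧
      (∀ i < n, ∀ j < n, i ≠ j → Disjoint (Θs i) (Θs j)) := ⟨_, fun _ => Iff.rfl⟩
  have hPb : ∀ n, P n → κ ^ 2 * n ≤ 2 := by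
    intro n hn
    rw [hP] at hn
    obtain ⟨Θs, h1, h2⟩ := hn
    exact countC G w α κ C hκ hα n Θs h1 h2
  have hnot : ∃ n, ¬ P n := by
    refine ⟨⌈2 / κ ^ 2⌉₊ + 1, fun h => ?_⟩
    have h1 := hPb _ h
    have h2 := Nat.le_ceil ((2 : ℝ) / κ ^ 2)
    rw [div_le_iff₀ (by positivity)] at h2
    push_cast at h1
    nlinarith [sq_pos_of_pos hκ]
  have hn0 : ¬ P (Nat.find hnot) := Nat.find_spec hnot
  have hpos : 1 ≤ Nat.find hnot := by
    by_contra hc
    have h1 : Nat.find hnot = 0 := by omega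
    rw [h1, hP] at hn0
    exact hn0 ⟨fun _ => ∅, fun i hi => absurd hi (Nat.not_lt_zero i),
      fun i hi => absurd hi (Nat.not_lt_zero i)⟩
  obtain ⟨n, hn⟩ : ∃ n, n + 1 = Nat.find hnot := ⟨Nat.find hnot - 1, by omega⟩
  have hPn : P n := by
    have := Nat.find_min hnot (m := n) (by omega)
    exact not_not.mp this
  rw [← hn] at hn0
  have hbn := hPb n hPn
  rw [hP] at hPn
  obtain ⟨Θs, h1, h2⟩ := hPn
  refine ⟨(range n).biUnion Θs, ?_, ?_, ?_⟩
  · have h3 : (((range n).biUnion Θs).card : ℝ) ≤ ∑ i ∈ range n, ((Θs i).card : ℝ) := by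
      exact_mod_cast Finset.card_biUnion_le
    have h4 : ∑ i ∈ range n, ((Θs i).card : ℝ) ≤ ∑ i ∈ range n, C :=
      Finset.sum_le_sum fun i hi => (h1 i (Finset.mem_range.mp hi)).1
    rw [Finset.sum_const, Finset.card_range, nsmul_eq_mul] at h4
    refine (h3.trans h4).trans (mul_le_mul_of_nonneg_right ?_ hC)
    rw [le_div_iff₀ (by positivity)]
    linarith
  · intro t ht
    rw [Finset.mem_biUnion] at ht
    obtain ⟨i, hi, hit⟩ := ht
    exact (h1 i (Finset.mem_range.mp hi)).2.1 t hit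
  · intro Θ' hΘ'
    by_contra hcon
    push Not at hcon
    apply hn0
    rw [hP]
    refine ⟨fun i => if i < n then Θs i else Θ', ?_, ?_⟩
    · intro i hi
      by_cases h : i < n
      · simp only [if_pos h]
        exact h1 i h
      · simp only [if_neg h]
        exact hΘ'
    · intro i hi j hj hij
      by_cases hi' : i < n
      · by_cases hj' : j < n
        · simp only [if_pos hi', if_pos hj']
          exact h2 i hi' j hj' hij
        · simp only [if_pos hi', if_neg hj']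
          rw [Finset.disjoint_left]
          intro t ht
          exact hcon t (Finset.mem_biUnion.mpr ⟨i, Finset.mem_range.mpr hi', ht⟩)
      · by_cases hj' : j < n
        · simp only [if_neg hi', if_pos hj']
          rw [Finset.disjoint_right]
          intro t ht
          exact hcon t (Finset.mem_biUnion.mpr ⟨j, Finset.mem_range.mpr hj', ht⟩)
        · exact absurd (by omega) hij

end H45O
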