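import Pool.Agent.Lib.H45O.Window

/-!
# Periods, and the passage to exponentials
-/

namespace H45O

open Finset Complex

/-- `e x = exp (2 π i x)`. -/
noncomputable def e (x : ℝ) : ℂ := Complex.exp (2 * Real.pi * x * Complex.I)

/-- `F G W P θ` is the sum of `chi W (G n) e(n θ)` over `n ∈ P`. -/
noncomputable def F (G : ℕ → ℕ) (W P : Finset ℕ) (θ : ℝ) : ℂ :=
  ∑ n ∈ P, (chi W (G n) : ℂ) * e (n * θ)

theorem e_add (x y : ℝ) : e (x + y) = e x * e y := by
  unfold e
  rw [← Complex.exp_add]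
  congr 1
  push_cast
  ring

theorem char_eq (M : ℕ) [NeZero M] (k n : ℕ) :
    (ZMod.stdAddChar (N := M) ((k : ZMod M) * (n : ZMod M)) : ℂ) = e (n * ((k : ℝ) / M)) := by
  have h := ZMod.stdAddChar_coe (N := M) ((k * n : ℕ) : ℤ)
  push_cast at h
  rw [h]
  unfold e
  congr 1
  push_cast
  ring

theorem hat_eq (M : ℕ) [NeZero M] (G : ℕ → ℕ) (W P : Finset ℕ) (k : ℕ) :
    hat M P (fun n => chi W (G n)) (k : ZMod M) = F G W P ((k : ℝ) / M) := by
  unfold hat F
  refine Finset.sum_congr rfl fun n _ => ?_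
  rw [char_eq]

theorem gs_eq_F (M r : ℕ) [NeZero M] (G : ℕ → ℕ) (W A : Finset ℕ) (k : ℕ) :
    gs M r A (fun n => chi W (G n)) (k : ZMod M) = e (r * ((k : ℝ) / M)) * F G W A ((k : ℝ) / M) := by
  unfold gs F
  rw [Finset.mul_sum]
  refine Finset.sum_congr rfl fun a _ => ?_
  have h := char_eq M k (a + r)
  push_cast at h
  rw [h, add_mul, e_add]
  ring

/-- The main inequality for a period. -/
theorem period (d G : ℕ → ℕ) (hG : IsGrundy d G) (r : ℕ) (hr : 1 ≤ r)
    (hd : (d r).testBit 2 = true) (b p n₀ : ℕ) (hp : 1 ≤ p)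
    (hper : ∀ n, n₀ ≤ n → G (n + p) = G n) (hb : ∀ n, n₀ ≤ n → G n < 2 ^ b)
    (A : Finset ℕ) (hl : ∀ a ∈ A, 1 ≤ a ∧ G a < 2 ^ b) :
    ∃ κ : Finset ℕ → ℕ, (∀ W, κ W < p) ∧
      ∑ W ∈ (range b).powerset.erase ∅,
        (e (r * ((κ W : ℝ) / p)) * F G W A ((κ W : ℝ) / p)).re ≤ -(A.card : ℝ) := by
  have : NeZero p := ⟨by omega⟩
  have hmin : ∀ W : Finset ℕ, ∃ k : ℕ, k < p ∧ ∀ k' : ZMod p,
      (gs p r A (fun n => chi W (G n)) (k : ZMod p)).re ≤
        (gs p r A (fun n => chi W (G n)) k').re := by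
    intro W
    obtain ⟨k, _, hk⟩ := Finset.exists_min_image (Finset.univ : Finset (ZMod p))
      (fun k => (gs p r A (fun n => chi W (G n)) k).re) ⟨0, Finset.mem_univ _⟩
    refine ⟨k.val, ZMod.val_lt k, fun k' => ?_⟩
    rw [ZMod.natCast_zmod_val]
    exact hk k' (Finset.mem_univ _)
  choose κ hκ1 hκ2 using hmin
  refine ⟨κ, hκ1, ?_⟩
  obtain ⟨N, hN⟩ : ∃ N, N = n₀ + 1 := ⟨_, rfl⟩
  have hpers : ∀ j n, n₀ ≤ n → G (n + p * j) = G n := by
    intro j
    induction j with
    | zero => intro n _; simp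
    | succ j ih =>
      intro n hn
      rw [Nat.mul_succ, ← Nat.add_assoc, hper _ (by omega), ih n hn]
  have hcong : ∀ m n, n₀ ≤ m → n₀ ≤ n → (m : ZMod p) = n → G m = G n := by
    have haux : ∀ m n, n₀ ≤ m → m ≤ n → (m : ZMod p) = n → G n = G m := by
      intro m n hm hmn h
      have h1 := (ZMod.natCast_eq_natCast_iff' m n p).mp h
      have h2 : m ≡ n [MOD p] := h1
      have h3 := (Nat.modEq_iff_dvd' hmn).mp h2
      obtain ⟨j, hj⟩ := h3
      have h4 : n = m + p * j := by omega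
      rw [h4, hpers j m hm]
    intro m n hm hn h
    rcases le_total m n with h1 | h1
    · exact (haux m n hm h1 h).symm
    · exact haux n m hn h1 h.symm
  have hinj : ∀ m ∈ Ico N (N + p), ∀ n ∈ Ico N (N + p), (m : ZMod p) = n → m = n := by
    intro m hm n hn h
    rw [Finset.mem_Ico] at hm hn
    have h1 := (ZMod.natCast_eq_natCast_iff' m n p).mp h
    have h2 : m ≡ n [MOD p] := h1
    rcases le_total m n with h3 | h3
    · have h4 := (Nat.modEq_iff_dvd' h3).mp h2
      have h5 := Nat.eq_zero_of_dvd_of_lt h4 (by omega)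
      omega
    · have h4 := (Nat.modEq_iff_dvd' h3).mp h2.symm
      have h5 := Nat.eq_zero_of_dvd_of_lt h4 (by omega)
      omega
  have hkey := key p r b (Ico N (N + p)) A G
    (by
      intro n hn
      rw [Finset.mem_Ico] at hn
      exact hb n (by omega))
    (fun a ha => (hl a ha).2)
    (by
      intro m hm n hn a ha h
      rw [Finset.mem_Ico] at hm hn
      have h1 : G n = G (m + a + r) := by
        apply hcong n (m + a + r) (by omega) (by omega)
        rw [h]
        push_cast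
        ring
      rw [h1]
      exact hG.ne hr hd (by omega) (hl a ha).1)
  have hcount : tri p r (Ico N (N + p)) A (fun _ => 1) (fun _ => 1) = (p : ℝ) * A.card := by
    unfold tri
    have h1 : ∀ m ∈ Ico N (N + p), ∑ n ∈ Ico N (N + p), ∑ a ∈ A,
        (if ((n : ZMod p) = m + a + r) then (1 : ℝ) * 1 * 1 else 0) = (A.card : ℝ) := by
      intro m hm
      rw [Finset.sum_comm]
      have h2 : ∀ a ∈ A, ∑ n ∈ Ico N (N + p),
          (if ((n : ZMod p) = m + a + r) then (1 : ℝ) * 1 * 1 else 0) = 1 := by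
        intro a ha
        rw [Finset.mem_Ico] at hm
        obtain ⟨t, ht⟩ : ∃ t, t = N + (m + a + r - N) % p := ⟨_, rfl⟩
        have htp : (m + a + r - N) % p < p := Nat.mod_lt _ (by omega)
        have ht1 : t ∈ Ico N (N + p) := by
          rw [Finset.mem_Ico]
          omega
        have ht2 : (t : ZMod p) = m + a + r := by
          rw [ht]
          push_cast [ZMod.natCast_mod]
          rw [Nat.cast_sub (by omega)]
          push_cast
          ring
        rw [Finset.sum_eq_single t]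
        · rw [if_pos ht2]; norm_num
        · intro n hn hnt
          rw [if_neg]
          intro h
          exact hnt (hinj n hn t ht1 (by rw [h, ht2]))
        · intro h
          exact absurd ht1 h
      rw [Finset.sum_congr rfl h2, Finset.sum_const, nsmul_eq_mul, mul_one]
    rw [Finset.sum_congr rfl h1, Finset.sum_const, Nat.card_Ico, nsmul_eq_mul]
    congr 2
    omega
  have hp0 : (0 : ℝ) < p := by exact_mod_cast hp
  have hterm : ∀ W ∈ (range b).powerset.erase ∅,
      (p : ℝ) * (e (r * ((κ W : ℝ) / p)) * F G W A ((κ W : ℝ) / p)).re ≤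
      tri p r (Ico N (N + p)) A (fun n => chi W (G n)) (fun n => chi W (G n)) := by
    intro W _
    have h1 := tri_eq p r (Ico N (N + p)) A (fun n => chi W (G n)) (fun n => chi W (G n))
    rw [← gs_eq_F p r G W A (κ W)]
    have h2 : ∑ k : ZMod p, ‖hat p (Ico N (N + p)) (fun n => chi W (G n)) k‖ ^ 2 *
        (gs p r A (fun n => chi W (G n)) (κ W : ZMod p)).re ≤
        (p : ℝ) * tri p r (Ico N (N + p)) A (fun n => chi W (G n)) (fun n => chi W (G n)) := by
      rw [h1]
      refine Finset.sum_le_sum fun k _ => ?_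
      exact mul_le_mul_of_nonneg_left (hκ2 W k) (by positivity)
    rw [← Finset.sum_mul, parseval p _ _ hinj] at h2
    have h3 : ∑ m ∈ Ico N (N + p), (chi W (G m)) ^ 2 = (p : ℝ) := by
      rw [Finset.sum_congr rfl fun m _ => chi_sq W (G m), Finset.sum_const, Nat.card_Ico,
        nsmul_eq_mul, mul_one]
      congr 1
      omega
    rw [h3, mul_assoc] at h2
    exact le_of_mul_le_mul_left h2 hp0
  have hsum := Finset.sum_le_sum hterm
  rw [hkey, hcount, ← Finset.mul_sum] at hsum
  have h9 : (p : ℝ) * ∑ W ∈ (range b).powerset.erase ∅,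
      (e (r * ((κ W : ℝ) / p)) * F G W A ((κ W : ℝ) / p)).re ≤ (p : ℝ) * (-(A.card : ℝ)) := by
    linarith
  exact le_of_mul_le_mul_left h9 hp0

end H45O
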