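import Pool.Agent.Lib.H45O.Final

/-!
# Limit measures on the circle
-/

namespace H45O

open Finset Complex MeasureTheory Filter Topology

noncomputable local instance instMSCircle : MeasurableSpace Circle := borel Circle

local instance instBSCircle : BorelSpace Circle := ⟨rfl⟩

theorem exists_dm (M : ℕ) [NeZero M] (w : ZMod M → ℝ) (hw : ∀ k, 0 ≤ w k)
    (h1 : ∑ k, w k ≤ 1) : ∃ μ : FiniteMeasure Circle, μ.mass ≤ 1 ∧
      ∀ f : Circle → ℝ, Continuous f → ∫ z, f z ∂(μ : Measure Circle)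
        = ∑ k, w k * f (ZMod.toCircle k) := by
  have hm : (∑ k : ZMod M, ENNReal.ofReal (w k) • Measure.dirac (ZMod.toCircle k) :
      Measure Circle) Set.univ ≤ 1 := by
    rw [Measure.finsetSum_apply]
    simp only [Measure.smul_apply, measure_univ, smul_eq_mul, mul_one]
    rw [← ENNReal.ofReal_sum_of_nonneg (fun k _ => hw k)]
    exact ENNReal.ofReal_le_one.mpr h1
  have hfin : IsFiniteMeasure (∑ k : ZMod M, ENNReal.ofReal (w k) •
      Measure.dirac (ZMod.toCircle k) : Measure Circle) :=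
    ⟨hm.trans_lt ENNReal.one_lt_top⟩
  refine ⟨⟨_, hfin⟩, ?_, ?_⟩
  · unfold FiniteMeasure.mass
    rw [FiniteMeasure.mk_apply]
    exact ENNReal.toNNReal_mono ENNReal.one_ne_top hm
  · intro f hf
    rw [FiniteMeasure.toMeasure_mk, integral_finsetSum_measure]
    · refine Finset.sum_congr rfl fun k _ => ?_
      rw [integral_smul_measure, integral_dirac, ENNReal.toReal_ofReal (hw k), smul_eq_mul]
    · intro k _
      exact (integrable_dirac (by simp)).smul_measure ENNReal.ofReal_ne_top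

theorem exists_lim (μ : ℕ → FiniteMeasure Circle) (hμ : ∀ N, (μ N).mass ≤ 1) :
    ∃ ν : FiniteMeasure Circle, ν.mass ≤ 1 ∧ ∀ f : Circle → ℝ, Continuous f →
      Tendsto (fun N => ∫ z, f z ∂(μ N : Measure Circle)) (hyperfilter ℕ)
        (𝓝 (∫ z, f z ∂(ν : Measure Circle))) := by
  have hc := isCompact_setOfPred_finiteMeasure_le_of_compactSpace Circle 1
  obtain ⟨ν, hν, hlim⟩ := isCompact_iff_ultrafilter_le_nhds.mp hc
    ((hyperfilter ℕ).map μ) (by
      rw [Filter.le_principal_iff]
      show {μ : FiniteMeasure Circle | μ.mass ≤ 1} ∈ Filter.map μ (hyperfilter ℕ : Filter ℕ)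
      rw [Filter.mem_map]
      exact Filter.univ_mem' hμ)
  refine ⟨ν, hν, fun f hf => ?_⟩
  have h2 : Tendsto μ (hyperfilter ℕ) (𝓝 ν) := hlim
  have h3 := (FiniteMeasure.tendsto_iff_forall_integral_tendsto.mp h2)
    (BoundedContinuousFunction.mkOfCompact ⟨f, hf⟩)
  exact h3

end H45O
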