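import Pool.Agent.Lib.H45O.Count
import Pool.Agent.Lib.H45O.Spec

/-!
# The relation for the limit measures
-/

namespace H45O

open Finset Complex MeasureTheory Filter Topology

noncomputable local instance instMSCircle' : MeasurableSpace Circle := borel Circle

local instance instBSCircle' : BorelSpace Circle := ⟨rfl⟩

/-- The trigonometric sum of the first `l` values, as a function on the circle. -/
noncomputable def fl (G : ℕ → ℕ) (b r l : ℕ) (W : Finset ℕ) (z : Circle) : ℝ :=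
  ∑ a ∈ (Ioc 0 l).filter (fun a => G a < 2 ^ b), chi W (G a) * ((z ^ (a + r) : Circle) : ℂ).re

theorem continuous_fl (G : ℕ → ℕ) (b r l : ℕ) (W : Finset ℕ) : Continuous (fl G b r l W) := by
  unfold fl
  refine continuous_finsetSum _ fun a _ => ?_
  refine continuous_const.mul ?_
  fun_prop

theorem fl_char (M : ℕ) [NeZero M] (G : ℕ → ℕ) (b r l : ℕ) (W : Finset ℕ) (k : ZMod M) :
    fl G b r l W (ZMod.toCircle k) =
      (gs M r ((Ioc 0 l).filter (fun a => G a < 2 ^ b)) (fun n => chi W (G n)) k).re := by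
  unfold fl gs
  rw [Complex.re_sum]
  refine Finset.sum_congr rfl fun a _ => ?_
  rw [Complex.re_ofReal_mul]
  congr 2
  have h1 : k * ((a : ZMod M) + r) = (a + r) • k := by
    rw [nsmul_eq_mul]
    push_cast
    ring
  rw [h1, ZMod.stdAddChar_apply, AddChar.map_nsmul_eq_pow]

/-- The measure at the level `N`. -/
theorem exists_level (G : ℕ → ℕ) (b N : ℕ) (hN : 1 ≤ N) [NeZero (2 * N)] (W : Finset ℕ) :
    ∃ μ : FiniteMeasure Circle, μ.mass ≤ 1 ∧ ∀ r l : ℕ,
      ∫ z, fl G b r l W z ∂(μ : Measure Circle) =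
        tri (2 * N) r ((Ioc 0 N).filter (fun a => G a < 2 ^ b))
        ((Ioc 0 l).filter (fun a => G a < 2 ^ b)) (fun n => chi W (G n)) (fun n => chi W (G n)) / N := by
  obtain ⟨P, hP⟩ : ∃ P, P = (Ioc 0 N).filter (fun a => G a < 2 ^ b) := ⟨_, rfl⟩
  have hN0 : (0 : ℝ) < N := by exact_mod_cast hN
  have hinj : ∀ m ∈ P, ∀ n ∈ P, (m : ZMod (2 * N)) = n → m = n := by
    intro m hm n hn h
    rw [hP] at hm hn
    exact natCast_inj_seg N m (Finset.mem_filter.mp hm).1 n (Finset.mem_filter.mp hn).1 h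
  have hPc : ∑ m ∈ P, (chi W (G m)) ^ 2 ≤ (N : ℝ) := by
    rw [Finset.sum_congr rfl fun m _ => chi_sq W (G m), Finset.sum_const, nsmul_eq_mul, mul_one]
    have h1 : P.card ≤ (Ioc 0 N).card := by rw [hP]; exact Finset.card_filter_le _ _
    rw [Nat.card_Ioc] at h1
    exact_mod_cast (by omega : P.card ≤ N)
  have hpars := parseval (2 * N) P (fun n => chi W (G n)) hinj
  obtain ⟨μ, hμ1, hμ2⟩ := exists_dm (2 * N)
    (fun k => ‖hat (2 * N) P (fun n => chi W (G n)) k‖ ^ 2 / (N * (2 * N)))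
    (fun k => by positivity) (by
      rw [← Finset.sum_div, hpars, div_le_one (by positivity)]
      push_cast
      nlinarith [hPc, hN0])
  refine ⟨μ, hμ1, fun r l => ?_⟩
  rw [hμ2 _ (continuous_fl G b r l W), ← hP]
  have h1 := tri_eq (2 * N) r P ((Ioc 0 l).filter (fun a => G a < 2 ^ b))
    (fun n => chi W (G n)) (fun n => chi W (G n))
  have h2 : ∑ k : ZMod (2 * N), ‖hat (2 * N) P (fun n => chi W (G n)) k‖ ^ 2 / (N * (2 * N)) *
      fl G b r l W (ZMod.toCircle k) =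
      (∑ k : ZMod (2 * N), ‖hat (2 * N) P (fun n => chi W (G n)) k‖ ^ 2 *
        (gs (2 * N) r ((Ioc 0 l).filter (fun a => G a < 2 ^ b)) (fun n => chi W (G n)) k).re) /
        (N * (2 * N)) := by
    rw [Finset.sum_div]
    refine Finset.sum_congr rfl fun k _ => ?_
    rw [fl_char]
    ring
  rw [h2, ← h1]
  push_cast
  field_simp

/-- The limit measures. -/
theorem exists_nu (d G : ℕ → ℕ) (hG : IsGrundy d G) (r : ℕ) (hr : 1 ≤ r)
    (hd : (d r).testBit 2 = true) (b : ℕ) (δ : ℝ)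
    (hδ : ∀ᶠ N : ℕ in atTop, (((Ioc 0 N).filter (fun a => ¬ G a < 2 ^ b)).card : ℝ) ≤ δ * N) :
    ∃ ν : Finset ℕ → FiniteMeasure Circle, (∀ W, (ν W).mass ≤ 1) ∧ ∀ l : ℕ,
      ∑ W ∈ (range b).powerset.erase ∅, ∫ z, fl G b r l W z ∂(ν W : Measure Circle) ≤
        -(((((Ioc 0 l).filter (fun a => G a < 2 ^ b)).card : ℕ) : ℝ) * (1 - 2 * δ)) := by
  have hlev : ∀ (W : Finset ℕ) (N : ℕ), ∃ μ : FiniteMeasure Circle, μ.mass ≤ 1 ∧ ∀ r l : ℕ,
      ∫ z, fl G b r l W z ∂(μ : Measure Circle) =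
        tri (2 * (N + 1)) r ((Ioc 0 (N + 1)).filter (fun a => G a < 2 ^ b))
        ((Ioc 0 l).filter (fun a => G a < 2 ^ b)) (fun n => chi W (G n)) (fun n => chi W (G n)) /
          ((N + 1 : ℕ) : ℝ) := by
    intro W N
    have : NeZero (2 * (N + 1)) := ⟨by omega⟩
    exact exists_level G b (N + 1) (by omega) W
  choose μ hμ1 hμ2 using hlev
  have hlim : ∀ W : Finset ℕ, ∃ ν : FiniteMeasure Circle, ν.mass ≤ 1 ∧
      ∀ f : Circle → ℝ, Continuous f →
      Tendsto (fun N => ∫ z, f z ∂(μ W N : Measure Circle)) (hyperfilter ℕ)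
        (𝓝 (∫ z, f z ∂(ν : Measure Circle))) := fun W => exists_lim (μ W) (hμ1 W)
  choose ν hν1 hν2 using hlim
  refine ⟨ν, hν1, fun l => ?_⟩
  obtain ⟨A, hA⟩ : ∃ A : ℝ, A = ((((Ioc 0 l).filter (fun a => G a < 2 ^ b)).card : ℕ) : ℝ) :=
    ⟨_, rfl⟩
  rw [← hA]
  have hA0 : 0 ≤ A := by rw [hA]; exact Nat.cast_nonneg _
  have h1 : Tendsto (fun N => ∑ W ∈ (range b).powerset.erase ∅,
      ∫ z, fl G b r l W z ∂(μ W N : Measure Circle)) (hyperfilter ℕ)
      (𝓝 (∑ W ∈ (range b).powerset.erase ∅, ∫ z, fl G b r l W z ∂(ν W : Measure Circle))) :=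
    tendsto_finsetSum _ fun W _ => hν2 W _ (continuous_fl G b r l W)
  have h2 : Tendsto (fun N : ℕ => -(A * (1 - 2 * δ)) + A * (((l : ℝ) + r) / ((N : ℝ) + 1)))
      (hyperfilter ℕ) (𝓝 (-(A * (1 - 2 * δ)))) := by
    have h3 : Tendsto (fun N : ℕ => ((l : ℝ) + r) * (1 / ((N : ℝ) + 1))) atTop (𝓝 (((l : ℝ) + r) * 0)) :=
      tendsto_one_div_add_atTop_nhds_zero_nat.const_mul _
    have h4 : Tendsto (fun N : ℕ => -(A * (1 - 2 * δ)) + A * (((l : ℝ) + r) * (1 / ((N : ℝ) + 1))))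
        atTop (𝓝 (-(A * (1 - 2 * δ)) + A * (((l : ℝ) + r) * 0))) :=
      tendsto_const_nhds.add (h3.const_mul A)
    have h5 := h4.mono_left Nat.hyperfilter_le_atTop
    simp only [mul_zero, add_zero] at h5
    refine h5.congr fun N => ?_
    ring
  refine le_of_tendsto_of_tendsto h1 h2 ?_
  have hev : ∀ᶠ N : ℕ in atTop, ∑ W ∈ (range b).powerset.erase ∅,
      ∫ z, fl G b r l W z ∂(μ W N : Measure Circle) ≤
      -(A * (1 - 2 * δ)) + A * (((l : ℝ) + r) / ((N : ℝ) + 1)) := by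
    have hδ' := (tendsto_add_atTop_nat 1).eventually hδ
    filter_upwards [hδ', eventually_ge_atTop (l + r)] with N h3 h4
    have : NeZero (2 * (N + 1)) := ⟨by omega⟩
    have h5 := rel_fin d G hG r hr hd b (N + 1) l (by omega)
    have hN0 : (0 : ℝ) < ((N + 1 : ℕ) : ℝ) := by positivity
    rw [Finset.sum_congr rfl fun W _ => hμ2 W N r l, ← Finset.sum_div, div_le_iff₀ hN0]
    refine h5.trans ?_
    rw [← hA]
    push_cast at h3 ⊢
    have h6 : A * (((l : ℝ) + r) / ((N : ℝ) + 1)) * ((N : ℝ) + 1) = A * ((l : ℝ) + r) := by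
      field_simp
    have h7 : A * (((Ioc 0 (N + 1)).filter (fun a => ¬ G a < 2 ^ b)).card : ℝ) ≤
        A * (δ * ((N : ℝ) + 1)) := mul_le_mul_of_nonneg_left h3 hA0
    nlinarith [h6, h7]
  exact hev.filter_mono Nat.hyperfilter_le_atTop

end H45O
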