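import Pool.Agent.Lib.H45O.Sel

/-!
# Short windows inside long windows
-/

namespace H45O

open Finset Complex MeasureTheory Filter Topology

noncomputable local instance instMSCircle7 : MeasurableSpace Circle := borel Circle

local instance instBSCircle7 : BorelSpace Circle := ⟨rfl⟩

/-- Parseval for complex coefficients. -/
theorem parsevalC (M : ℕ) [NeZero M] (P : Finset ℕ) (c : ℕ → ℂ)
    (hP : ∀ m ∈ P, ∀ n ∈ P, (m : ZMod M) = n → m = n) :
    ∑ k : ZMod M, ‖∑ m ∈ P, c m * ZMod.stdAddChar (N := M) (k * (m : ZMod M))‖ ^ 2 =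
      M * ∑ m ∈ P, ‖c m‖ ^ 2 := by
  have h1 : ∀ k : ZMod M,
      ((‖∑ m ∈ P, c m * ZMod.stdAddChar (N := M) (k * (m : ZMod M))‖ ^ 2 : ℝ) : ℂ)
      = ∑ m ∈ P, ∑ n ∈ P, (c m * (starRingEnd ℂ) (c n)) *
        ZMod.stdAddChar (N := M) (k * ((m : ZMod M) - n)) := by
    intro k
    rw [← Complex.normSq_eq_norm_sq, ← Complex.mul_conj, map_sum, Finset.sum_mul_sum]
    refine Finset.sum_congr rfl fun m _ => Finset.sum_congr rfl fun n _ => ?_
    have h2 : (ZMod.stdAddChar (N := M) (k * ((m : ZMod M) - n)) : ℂ)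
        = ZMod.stdAddChar (N := M) (k * (m : ZMod M)) *
          ZMod.stdAddChar (N := M) (-(k * (n : ZMod M))) := by
      rw [← AddChar.map_add_eq_mul]; congr 1; ring
    rw [h2, (starRingEnd ℂ).map_mul, conj_char]
    ring
  have h2 : ((∑ k : ZMod M,
      ‖∑ m ∈ P, c m * ZMod.stdAddChar (N := M) (k * (m : ZMod M))‖ ^ 2 : ℝ) : ℂ) =
      ((M * ∑ m ∈ P, ‖c m‖ ^ 2 : ℝ) : ℂ) := by
    rw [Complex.ofReal_sum, Finset.sum_congr rfl fun k _ => h1 k, Finset.sum_comm]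
    have h3 : ∀ m ∈ P, ∑ k : ZMod M, ∑ n ∈ P, (c m * (starRingEnd ℂ) (c n)) *
        ZMod.stdAddChar (N := M) (k * ((m : ZMod M) - n)) = ((M * ‖c m‖ ^ 2 : ℝ) : ℂ) := by
      intro m hm
      rw [Finset.sum_comm]
      have h4 : ∀ n ∈ P, ∑ k : ZMod M, (c m * (starRingEnd ℂ) (c n)) *
          ZMod.stdAddChar (N := M) (k * ((m : ZMod M) - n))
          = if n = m then ((M * ‖c m‖ ^ 2 : ℝ) : ℂ) else 0 := by
        intro n hn
        have h5 := Finset.mul_sum (Finset.univ : Finset (ZMod M))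
          (fun k => (ZMod.stdAddChar (N := M) (k * ((m : ZMod M) - n)) : ℂ))
          (c m * (starRingEnd ℂ) (c n))
        rw [← h5, sum_char]
        by_cases hmn : n = m
        · subst hmn
          rw [if_pos (sub_self _), if_pos rfl, Complex.mul_conj, Complex.normSq_eq_norm_sq]
          push_cast
          ring
        · have : ((m : ZMod M) - n) ≠ 0 := by
            intro h0
            exact hmn (hP m hm n hn (sub_eq_zero.mp h0)).symm
          rw [if_neg this, if_neg hmn, mul_zero]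
      rw [Finset.sum_congr rfl h4, Finset.sum_ite_eq' P m, if_pos hm]
    rw [Finset.sum_congr rfl h3]
    push_cast
    rw [Finset.mul_sum]
  exact_mod_cast h2

/-- The sum over the window `(n, n + H]`. -/
noncomputable def Sw (G : ℕ → ℕ) (b : ℕ) (W : Finset ℕ) (n H : ℕ) (z : Circle) : ℂ :=
  ∑ m ∈ (Ioc n (n + H)).filter (fun m => G m < 2 ^ b), (chi W (G m) : ℂ) * ((z ^ m : Circle) : ℂ)

/-- The test function. -/
noncomputable def tf (H : ℕ) (z₀ z : Circle) : ℝ :=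
  ‖∑ h ∈ range H, (((z / z₀) ^ h : Circle) : ℂ)‖ ^ 2

theorem continuous_tf (H : ℕ) (z₀ : Circle) : Continuous (tf H z₀) := by
  unfold tf
  refine Continuous.pow (Continuous.norm ?_) 2
  refine continuous_finsetSum _ fun h _ => ?_
  have h1 : Continuous (fun z : Circle => (z / z₀) ^ h) := (continuous_id.div' continuous_const).pow h
  have h2 : Continuous (fun z : Circle => (z : ℂ)) := by fun_prop
  exact h2.comp h1

theorem tf_self (H : ℕ) (z₀ : Circle) : tf H z₀ z₀ = (H : ℝ) ^ 2 := by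
  unfold tf
  simp

theorem char_pow (M : ℕ) [NeZero M] (k : ZMod M) (n : ℕ) :
    (ZMod.stdAddChar (N := M) (k * (n : ZMod M)) : ℂ) = (((ZMod.toCircle k) ^ n : Circle) : ℂ) := by
  have h1 : k * (n : ZMod M) = n • k := by
    rw [nsmul_eq_mul]
    ring
  rw [h1, ZMod.stdAddChar_apply, AddChar.map_nsmul_eq_pow]

theorem Phi_tf (G : ℕ → ℕ) (b X N : ℕ) (W : Finset ℕ) (z₀ : Circle) (H : ℕ) (hH : 1 ≤ H)
    (hHN : H ≤ N) :
    N * Phi G b X N W (tf H z₀) ≤ ∑ n ∈ Ico X (X + N), ‖Sw G b W n H z₀‖ ^ 2 + 2 * (H : ℝ) ^ 3 := by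
  classical
  have hN0 : (0 : ℝ) < N := by exact_mod_cast (by omega : 0 < N)
  obtain ⟨P, hP⟩ : ∃ P, P = (Ioc X (X + N)).filter (fun a => G a < 2 ^ b) := ⟨_, rfl⟩
  obtain ⟨c, hc⟩ : ∃ c : ℕ → ℂ, ∀ n, c n = ∑ m ∈ P, if m ≤ n ∧ n < m + H then
      (chi W (G m) : ℂ) * (((z₀⁻¹) ^ (n - m) : Circle) : ℂ) else 0 := ⟨_, fun _ => rfl⟩
  -- the product
  have h1 : ∀ k : ZMod (2 * N + 1), hat (2 * N + 1) P (fun n => chi W (G n)) k *
      ∑ h ∈ range H, (((ZMod.toCircle k / z₀) ^ h : Circle) : ℂ) =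
      ∑ n ∈ Ioc X (X + N + H), c n * ZMod.stdAddChar (N := 2 * N + 1)
        (k * (n : ZMod (2 * N + 1))) := by
    intro k
    unfold hat
    rw [Finset.sum_mul_sum]
    have h2 : ∑ n ∈ Ioc X (X + N + H), c n * ZMod.stdAddChar (N := 2 * N + 1)
        (k * (n : ZMod (2 * N + 1))) = ∑ m ∈ P, ∑ n ∈ Ioc X (X + N + H),
        (if m ≤ n ∧ n < m + H then (chi W (G m) : ℂ) * (((z₀⁻¹) ^ (n - m) : Circle) : ℂ) else 0) *
        ZMod.stdAddChar (N := 2 * N + 1) (k * (n : ZMod (2 * N + 1))) := by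
      rw [Finset.sum_comm]
      refine Finset.sum_congr rfl fun n _ => ?_
      rw [hc, Finset.sum_mul]
    rw [h2]
    refine Finset.sum_congr rfl fun m hm => ?_
    rw [hP, Finset.mem_filter, Finset.mem_Ioc] at hm
    have h3 : ∑ n ∈ Ioc X (X + N + H),
        (if m ≤ n ∧ n < m + H then (chi W (G m) : ℂ) * (((z₀⁻¹) ^ (n - m) : Circle) : ℂ) else 0) *
        ZMod.stdAddChar (N := 2 * N + 1) (k * (n : ZMod (2 * N + 1))) =
        ∑ n ∈ Ico m (m + H), (chi W (G m) : ℂ) * (((z₀⁻¹) ^ (n - m) : Circle) : ℂ) *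
        ZMod.stdAddChar (N := 2 * N + 1) (k * (n : ZMod (2 * N + 1))) := by
      have h4 : Ico m (m + H) = (Ioc X (X + N + H)).filter (fun n => m ≤ n ∧ n < m + H) := by
        ext n
        rw [Finset.mem_filter, Finset.mem_Ioc, Finset.mem_Ico]
        omega
      rw [h4, Finset.sum_filter]
      refine Finset.sum_congr rfl fun n _ => ?_
      split_ifs
      · rfl
      · rw [zero_mul]
    rw [h3, Finset.sum_Ico_eq_sum_range]
    have h5 : m + H - m = H := by omega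
    rw [h5]
    refine Finset.sum_congr rfl fun h _ => ?_
    have h6 : m + h - m = h := by omega
    rw [h6, char_pow, char_pow]
    have h7 : (((ZMod.toCircle k / z₀) ^ h : Circle) : ℂ) =
        (((ZMod.toCircle k) ^ h : Circle) : ℂ) * (((z₀⁻¹) ^ h : Circle) : ℂ) := by
      rw [← Circle.coe_mul, ← mul_pow, div_eq_mul_inv]
    have h8 : (((ZMod.toCircle k) ^ (m + h) : Circle) : ℂ) =
        (((ZMod.toCircle k) ^ m : Circle) : ℂ) * (((ZMod.toCircle k) ^ h : Circle) : ℂ) := by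
      rw [← Circle.coe_mul, ← pow_add]
    rw [h7, h8]
    ring
  -- Parseval
  have hinj : ∀ m ∈ Ioc X (X + N + H), ∀ n ∈ Ioc X (X + N + H),
      (m : ZMod (2 * N + 1)) = n → m = n := by
    intro m hm n hn h
    rw [Finset.mem_Ioc] at hm hn
    exact eq_of_cast_lt (2 * N + 1) m n h (by omega) (by omega)
  have h2 := parsevalC (2 * N + 1) (Ioc X (X + N + H)) c hinj
  have h3 : N * Phi G b X N W (tf H z₀) = ∑ n ∈ Ioc X (X + N + H), ‖c n‖ ^ 2 := by
    unfold Phi tf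
    rw [← hP]
    have h4 : ∑ k : ZMod (2 * N + 1), ‖hat (2 * N + 1) P (fun n => chi W (G n)) k‖ ^ 2 /
        (N * (2 * N + 1)) * ‖∑ h ∈ range H, (((ZMod.toCircle k / z₀) ^ h : Circle) : ℂ)‖ ^ 2 =
        (∑ k : ZMod (2 * N + 1), ‖∑ n ∈ Ioc X (X + N + H), c n *
          ZMod.stdAddChar (N := 2 * N + 1) (k * (n : ZMod (2 * N + 1)))‖ ^ 2) /
        (N * (2 * N + 1)) := by
      rw [Finset.sum_div]
      refine Finset.sum_congr rfl fun k _ => ?_
      rw [← h1 k, norm_mul]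
      ring
    rw [h4, h2]
    push_cast
    field_simp
  rw [h3]
  -- the windows inside
  have hcH : ∀ n, ‖c n‖ ≤ H := by
    intro n
    rw [hc, ← Finset.sum_filter]
    refine (norm_sum_le _ _).trans ?_
    have h4 : ∀ m ∈ P.filter (fun m => m ≤ n ∧ n < m + H),
        ‖(chi W (G m) : ℂ) * (((z₀⁻¹) ^ (n - m) : Circle) : ℂ)‖ ≤ 1 := by
      intro m _
      rw [norm_mul, Circle.norm_coe, mul_one, Complex.norm_real, Real.norm_eq_abs, abs_chi]
    refine (Finset.sum_le_sum h4).trans ?_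
    rw [Finset.sum_const, nsmul_eq_mul, mul_one]
    have h5 : P.filter (fun m => m ≤ n ∧ n < m + H) ⊆ Ico (n + 1 - H) (n + 1) := by
      intro m hm
      rw [Finset.mem_filter] at hm
      rw [Finset.mem_Ico]
      omega
    have h6 := Finset.card_le_card h5
    rw [Nat.card_Ico] at h6
    exact_mod_cast (by omega : (P.filter (fun m => m ≤ n ∧ n < m + H)).card ≤ H)
  have hcS : ∀ n, X + H ≤ n → n ≤ X + N → ‖c n‖ = ‖Sw G b W (n - H) H z₀‖ := by
    intro n hn1 hn2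
    have h4 : c n * ((z₀ ^ n : Circle) : ℂ) = Sw G b W (n - H) H z₀ := by
      rw [hc, ← Finset.sum_filter, Finset.sum_mul]
      unfold Sw
      have h5 : P.filter (fun m => m ≤ n ∧ n < m + H) =
          (Ioc (n - H) (n - H + H)).filter (fun m => G m < 2 ^ b) := by
        ext m
        rw [hP, Finset.mem_filter, Finset.mem_filter, Finset.mem_filter, Finset.mem_Ioc,
          Finset.mem_Ioc]
        constructor
        · rintro ⟨⟨_, h6⟩, h7, h8⟩
          exact ⟨by omega, h6⟩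
        · rintro ⟨h6, h7⟩
          exact ⟨⟨by omega, h7⟩, by omega, by omega⟩
      rw [h5]
      refine Finset.sum_congr rfl fun m hm => ?_
      rw [Finset.mem_filter, Finset.mem_Ioc] at hm
      rw [mul_assoc, ← Circle.coe_mul]
      congr 2
      have h6 : n = (n - m) + m := by omega
      calc (z₀⁻¹) ^ (n - m) * z₀ ^ n = (z₀⁻¹) ^ (n - m) * (z₀ ^ (n - m) * z₀ ^ m) := by
            rw [← pow_add, ← h6]
        _ = z₀ ^ m := by rw [← mul_assoc, ← mul_pow, inv_mul_cancel, one_pow, one_mul]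
    rw [← h4, norm_mul, Circle.norm_coe, mul_one]
  have h4 : Ioc X (X + N + H) ⊆ Ico (X + H) (X + N + 1) ∪ (Ico (X + 1) (X + H) ∪
      Ioc (X + N) (X + N + H)) := by
    intro n hn
    rw [Finset.mem_Ioc] at hn
    rw [Finset.mem_union, Finset.mem_union, Finset.mem_Ico, Finset.mem_Ico, Finset.mem_Ioc]
    omega
  have h5 : ∑ n ∈ Ioc X (X + N + H), ‖c n‖ ^ 2 ≤ ∑ n ∈ Ico (X + H) (X + N + 1), ‖c n‖ ^ 2 +
      ∑ n ∈ Ico (X + 1) (X + H) ∪ Ioc (X + N) (X + N + H), ‖c n‖ ^ 2 := by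
    refine (Finset.sum_le_sum_of_subset_of_nonneg h4 (fun _ _ _ => by positivity)).trans ?_
    have h6 := Finset.sum_union_inter (s₁ := Ico (X + H) (X + N + 1))
      (s₂ := Ico (X + 1) (X + H) ∪ Ioc (X + N) (X + N + H)) (f := fun n => ‖c n‖ ^ 2)
    have h7 : 0 ≤ ∑ n ∈ Ico (X + H) (X + N + 1) ∩ (Ico (X + 1) (X + H) ∪
        Ioc (X + N) (X + N + H)), ‖c n‖ ^ 2 := Finset.sum_nonneg fun _ _ => by positivity
    linarith
  have h6 : ∑ n ∈ Ico (X + 1) (X + H) ∪ Ioc (X + N) (X + N + H), ‖c n‖ ^ 2 ≤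
      2 * (H : ℝ) ^ 3 := by
    have h7 : ∀ n ∈ Ico (X + 1) (X + H) ∪ Ioc (X + N) (X + N + H), ‖c n‖ ^ 2 ≤ (H : ℝ) ^ 2 :=
      fun n _ => pow_le_pow_left₀ (norm_nonneg _) (hcH n) 2
    refine (Finset.sum_le_sum h7).trans ?_
    rw [Finset.sum_const, nsmul_eq_mul]
    have h8 := Finset.card_union_le (Ico (X + 1) (X + H)) (Ioc (X + N) (X + N + H))
    rw [Nat.card_Ico, Nat.card_Ioc] at h8
    have h9 : (((Ico (X + 1) (X + H) ∪ Ioc (X + N) (X + N + H)).card : ℕ) : ℝ) ≤ 2 * H := by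
      exact_mod_cast (by omega :
        (Ico (X + 1) (X + H) ∪ Ioc (X + N) (X + N + H)).card ≤ 2 * H)
    calc (((Ico (X + 1) (X + H) ∪ Ioc (X + N) (X + N + H)).card : ℕ) : ℝ) * (H : ℝ) ^ 2
        ≤ (2 * H) * (H : ℝ) ^ 2 := mul_le_mul_of_nonneg_right h9 (by positivity)
      _ = 2 * (H : ℝ) ^ 3 := by ring
  have h7 : ∑ n ∈ Ico (X + H) (X + N + 1), ‖c n‖ ^ 2 ≤
      ∑ n ∈ Ico X (X + N), ‖Sw G b W n H z₀‖ ^ 2 := by
    have h8 : ∑ n ∈ Ico (X + H) (X + N + 1), ‖c n‖ ^ 2 =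
        ∑ n ∈ Ico X (X + N + 1 - H), ‖Sw G b W n H z₀‖ ^ 2 := by
      rw [Finset.sum_Ico_eq_sum_range, Finset.sum_Ico_eq_sum_range]
      have h9 : X + N + 1 - (X + H) = X + N + 1 - H - X := by omega
      rw [h9]
      refine Finset.sum_congr rfl fun i hi => ?_
      rw [Finset.mem_range] at hi
      rw [hcS (X + H + i) (by omega) (by omega)]
      have h10 : X + H + i - H = X + i := by omega
      rw [h10]
    rw [h8]
    apply Finset.sum_le_sum_of_subset_of_nonneg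
    · intro n hn
      rw [Finset.mem_Ico] at hn ⊢
      omega
    · intro _ _ _
      positivity
  linarith

theorem mass_tf (ν : FiniteMeasure Circle) (z₀ : Circle) (ε : ℝ)
    (h : ε ≤ (ν : Measure Circle).real {z₀}) (H : ℕ) :
    ε * (H : ℝ) ^ 2 ≤ ∫ z, tf H z₀ z ∂(ν : Measure Circle) := by
  have h1 : ∫ z in ({z₀} : Set Circle), tf H z₀ z ∂(ν : Measure Circle) ≤
      ∫ z, tf H z₀ z ∂(ν : Measure Circle) :=
    setIntegral_le_integral (integ _ _ (continuous_tf H z₀))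
      (Filter.Eventually.of_forall fun z => by
        show 0 ≤ tf H z₀ z
        unfold tf
        positivity)
  rw [integral_singleton, tf_self, smul_eq_mul] at h1
  exact (mul_le_mul_of_nonneg_right h (by positivity)).trans h1

/-- The main theorem, with points of the circle. -/
theorem main (d G : ℕ → ℕ) (hG : IsGrundy d G) (r : ℕ) (hr : 1 ≤ r)
    (hd : (d r).testBit 2 = true) (b : ℕ) (δ : ℝ) (hδ1 : δ < 1 / 3)
    (hδ : ∀ᶠ L : ℕ in atTop, ∀ X : ℕ,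
      (((Ioc X (X + L)).filter (fun a => ¬ G a < 2 ^ b)).card : ℝ) ≤ δ * L) :
    ∃ Θ : Finset (Finset ℕ × Circle), (Θ.card : ℝ) ≤ 2 * 256 ^ b / (1 - 3 * δ) ^ 4 ∧
      (∀ t ∈ Θ, t.1 ∈ (range b).powerset.erase ∅ ∧
        ∃ᶠ l : ℕ in atTop, fl G b r l t.1 t.2 ≤ -((1 - 3 * δ) * l / 2 ^ b)) ∧
      (∀ᶠ l : ℕ in atTop, ∃ t ∈ Θ, fl G b r l t.1 t.2 ≤ -((1 - 3 * δ) * l / 2 ^ b)) ∧
      ∀ H : ℕ, 1 ≤ H → ∀ᶠ L : ℕ in atTop, ∀ X : ℕ, ∃ t ∈ Θ,
        (1 - 3 * δ) ^ 2 / (4 * 16 ^ b) * (H : ℝ) ^ 2 * L ≤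
          ∑ n ∈ Ico X (X + L), ‖Sw G b t.1 n H t.2‖ ^ 2 := by
  classical
  have h2b : (0 : ℝ) < 2 ^ b := by positivity
  have h3δ : 0 < 1 - 3 * δ := by linarith
  obtain ⟨κ, hκ⟩ : ∃ κ : ℝ, κ = (1 - 3 * δ) / 2 ^ b := ⟨_, rfl⟩
  have hκ' : κ * 2 ^ b = 1 - 3 * δ := by rw [hκ]; field_simp
  have hκ0 : 0 < κ := by rw [hκ]; positivity
  obtain ⟨τ, hτ⟩ : ∃ τ : ℝ, τ = κ / 2 ^ b := ⟨_, rfl⟩
  have hτ' : τ * 2 ^ b = κ := by rw [hτ]; field_simp
  have hτ0 : 0 < τ := by rw [hτ]; positivity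
  have hδ0 : ∀ᶠ N : ℕ in atTop,
      (((Ioc 0 N).filter (fun a => ¬ G a < 2 ^ b)).card : ℝ) ≤ δ * N := by
    filter_upwards [hδ] with N hN
    have := hN 0
    rwa [Nat.zero_add] at this
  have hgood : ∀ X N : ℕ → ℕ, Tendsto N atTop atTop →
      ∃ ν : Finset ℕ → FiniteMeasure Circle,
      (∀ W, ∀ f : Circle → ℝ, Continuous f → Tendsto (fun j => Phi G b (X j) (N j) W f)
        (hyperfilter ℕ) (𝓝 (∫ z, f z ∂(ν W : Measure Circle)))) ∧
      ∃ Θ, GoodSet G b r κ (2 * 32 ^ b / (1 - 3 * δ) ^ 2) Θ ∧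
        ∀ t ∈ Θ, τ ^ 2 / 2 ≤ (ν t.1 : Measure Circle).real {t.2} := by
    intro X N hN
    obtain ⟨ν, hν1, hν2, hν3⟩ := exists_nu_win d G hG r hr hd b δ X N hN (by
      filter_upwards [hN.eventually hδ] with j hj
      exact hj (X j))
    obtain ⟨Θ, h1, h2, h3, h4⟩ := multi G r b δ hδ1 hδ0 κ hκ' τ hτ' ν hν1 hν2
    refine ⟨ν, hν3, Θ.filter (fun t => ∃ᶠ l : ℕ in atTop, fl G b r l t.1 t.2 ≤ -(κ * l)),
      ⟨?_, ?_, ?_⟩, ?_⟩
    · refine le_trans ?_ h1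
      exact_mod_cast Finset.card_filter_le _ _
    · intro t ht
      rw [Finset.mem_filter] at ht
      exact ⟨h2 t ht.1, ht.2⟩
    · have h5 : ∀ᶠ l : ℕ in atTop, ∀ t ∈ Θ.filter
          (fun t => ¬ ∃ᶠ l : ℕ in atTop, fl G b r l t.1 t.2 ≤ -(κ * l)),
          ¬ fl G b r l t.1 t.2 ≤ -(κ * l) := by
        rw [Filter.eventually_all_finset]
        intro t ht
        rw [Finset.mem_filter] at ht
        exact Filter.not_frequently.mp ht.2
      filter_upwards [h3, h5] with l hl1 hl2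
      obtain ⟨t, ht1, ht2⟩ := hl1
      refine ⟨t, ?_, ht2⟩
      rw [Finset.mem_filter]
      refine ⟨ht1, ?_⟩
      by_contra hc
      exact hl2 t (Finset.mem_filter.mpr ⟨ht1, hc⟩) ht2
    · intro t ht
      rw [Finset.mem_filter] at ht
      exact h4 t ht.1
  obtain ⟨_, _, Θ₀, hΘ₀, _⟩ := hgood (fun _ => 0) id tendsto_id
  obtain ⟨Θ, h1, h2, h3, h4⟩ := selection G b r κ (2 * 32 ^ b / (1 - 3 * δ) ^ 2) hκ0
    (by positivity) ⟨Θ₀, hΘ₀⟩
  refine ⟨Θ, ?_, ?_, ?_, ?_⟩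
  · refine h1.trans (le_of_eq ?_)
    have h5 : (256 : ℝ) ^ b = 2 ^ b * (2 ^ b) ^ 2 * 32 ^ b := by
      rw [← pow_mul, mul_comm b 2, pow_mul, ← mul_pow, ← mul_pow]
      norm_num
    rw [hκ, h5]
    field_simp
  · intro t ht
    refine ⟨(h2 t ht).1, (h2 t ht).2.mono fun l hl => hl.trans (le_of_eq ?_)⟩
    rw [hκ]
    ring
  · filter_upwards [h3] with l hl
    obtain ⟨t, ht1, ht2⟩ := hl
    refine ⟨t, ht1, ht2.trans (le_of_eq ?_)⟩
    rw [hκ]
    ring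
  · intro H hH
    have hH0 : (0 : ℝ) < H := by exact_mod_cast hH
    by_contra hcon
    rw [Filter.not_eventually, Filter.frequently_atTop] at hcon
    have hch : ∀ j : ℕ, ∃ N X : ℕ, j ≤ N ∧ ∀ t ∈ Θ,
        ∑ n ∈ Ico X (X + N), ‖Sw G b t.1 n H t.2‖ ^ 2 <
          (1 - 3 * δ) ^ 2 / (4 * 16 ^ b) * (H : ℝ) ^ 2 * N := by
      intro j
      obtain ⟨N, hN1, hN2⟩ := hcon j
      push Not at hN2
      obtain ⟨X, hX⟩ := hN2
      exact ⟨N, X, hN1, hX⟩
    choose N X hN hX using hch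
    have hNt : Tendsto N atTop atTop := tendsto_atTop_mono hN tendsto_id
    obtain ⟨ν, hν, Θ', hΘ', hm⟩ := hgood X N hNt
    obtain ⟨t, ht1, ht2⟩ := h4 Θ' hΘ'
    have h5 := mass_tf (ν t.1) t.2 (τ ^ 2 / 2) (hm t ht2) H
    have h6 := hν t.1 (tf H t.2) (continuous_tf H t.2)
    have h7 : ∫ z, tf H t.2 z ∂(ν t.1 : Measure Circle) ≤ τ ^ 2 / 4 * (H : ℝ) ^ 2 := by
      have h8 : Tendsto (fun j : ℕ => τ ^ 2 / 4 * (H : ℝ) ^ 2 + 2 * (H : ℝ) ^ 3 / (N j : ℝ))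
          atTop (𝓝 (τ ^ 2 / 4 * (H : ℝ) ^ 2 + 0)) :=
        tendsto_const_nhds.add (Tendsto.const_div_atTop (tendsto_natCast_atTop_atTop.comp hNt) _)
      rw [add_zero] at h8
      refine le_of_tendsto_of_tendsto h6 (h8.mono_left Nat.hyperfilter_le_atTop) ?_
      have hev : ∀ᶠ j : ℕ in atTop, Phi G b (X j) (N j) t.1 (tf H t.2) ≤
          τ ^ 2 / 4 * (H : ℝ) ^ 2 + 2 * (H : ℝ) ^ 3 / (N j : ℝ) := by
        filter_upwards [eventually_ge_atTop H] with j hj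
        have hNj : H ≤ N j := hj.trans (hN j)
        have hN0 : (0 : ℝ) < (N j : ℝ) := by exact_mod_cast (by omega : 0 < N j)
        have h9 := Phi_tf G b (X j) (N j) t.1 t.2 H hH hNj
        have h10 := hX j t ht1
        have h11 : (1 - 3 * δ) ^ 2 / (4 * 16 ^ b) = τ ^ 2 / 4 := by
          rw [hτ, hκ]
          have h12 : (16 : ℝ) ^ b = (2 ^ b * 2 ^ b) ^ 2 := by
            rw [← mul_pow, ← pow_mul, mul_comm b 2, pow_mul]
            norm_num
          rw [h12]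
          field_simp
        rw [h11] at h10
        have h13 : (N j : ℝ) * Phi G b (X j) (N j) t.1 (tf H t.2) ≤
            (N j : ℝ) * (τ ^ 2 / 4 * (H : ℝ) ^ 2 + 2 * (H : ℝ) ^ 3 / (N j : ℝ)) := by
          have h14 : (N j : ℝ) * (τ ^ 2 / 4 * (H : ℝ) ^ 2 + 2 * (H : ℝ) ^ 3 / (N j : ℝ)) =
              τ ^ 2 / 4 * (H : ℝ) ^ 2 * N j + 2 * (H : ℝ) ^ 3 := by
            field_simp
          rw [h14]
          linarith
        exact le_of_mul_le_mul_left h13 hN0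
      exact hev.filter_mono Nat.hyperfilter_le_atTop
    have h8 : 0 < τ ^ 2 / 4 * (H : ℝ) ^ 2 := by positivity
    nlinarith [h5, h7, h8]

end H45O
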