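import Pool.Agent.Lib.H45O.Win

/-!
# Almost orthogonality and the selection
-/

namespace H45O

open Finset Complex MeasureTheory Filter Topology

noncomputable local instance instMSCircle6 : MeasurableSpace Circle := borel Circle

local instance instBSCircle6 : BorelSpace Circle := ⟨rfl⟩

theorem bessel (G : ℕ → ℕ) (b r l : ℕ) (W : Finset ℕ) (hl : 1 ≤ l) (κ : ℝ) (hκ : 0 < κ) (η : ℝ)
    (hη0 : 0 ≤ η) (Z : Finset Circle)
    (hη : ∀ z ∈ Z, ∀ z' ∈ Z, z ≠ z' → kern l (z, z') ≤ η)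
    (hZ : ∀ z ∈ Z, fl G b r l W z ≤ -(κ * l)) :
    κ ^ 2 * Z.card ≤ 1 + κ ^ 2 * (Z.card : ℝ) ^ 2 * η := by
  classical
  have hl0 : (0 : ℝ) < l := by exact_mod_cast hl
  obtain ⟨y, hy⟩ : ∃ y : ℕ → ℝ, ∀ a, y a = if G a < 2 ^ b then chi W (G a) else 0 :=
    ⟨_, fun _ => rfl⟩
  obtain ⟨q, hq⟩ : ∃ q : ℕ → ℂ, ∀ a, q a = ∑ z ∈ Z, ((z ^ (a + r) : Circle) : ℂ) :=
    ⟨_, fun _ => rfl⟩
  have hfl : ∀ z, fl G b r l W z = ∑ a ∈ Ioc 0 l, y a * ((z ^ (a + r) : Circle) : ℂ).re := by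
    intro z
    unfold fl
    rw [Finset.sum_filter]
    refine Finset.sum_congr rfl fun a _ => ?_
    rw [hy]
    split_ifs
    · rfl
    · rw [zero_mul]
  have h0 : 0 ≤ ∑ a ∈ Ioc 0 l, (y a ^ 2 + 2 * κ * (y a * (q a).re) + κ ^ 2 * Complex.normSq (q a)) := by
    refine Finset.sum_nonneg fun a _ => ?_
    have h1 : y a ^ 2 + 2 * κ * (y a * (q a).re) + κ ^ 2 * Complex.normSq (q a) =
        (y a + κ * (q a).re) ^ 2 + (κ * (q a).im) ^ 2 := by
      rw [Complex.normSq_apply]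
      ring
    rw [h1]
    positivity
  rw [Finset.sum_add_distrib, Finset.sum_add_distrib, ← Finset.mul_sum, ← Finset.mul_sum] at h0
  have h2 : ∑ a ∈ Ioc 0 l, y a ^ 2 ≤ l := by
    have h3 : ∀ a ∈ Ioc 0 l, y a ^ 2 ≤ 1 := by
      intro a _
      rw [hy]
      split_ifs
      · rw [chi_sq]
      · norm_num
    refine (Finset.sum_le_sum h3).trans ?_
    rw [Finset.sum_const, Nat.card_Ioc, nsmul_eq_mul, mul_one, Nat.sub_zero]
  have h4 : ∑ a ∈ Ioc 0 l, y a * (q a).re ≤ -(κ * l) * Z.card := by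
    have h5 : ∑ a ∈ Ioc 0 l, y a * (q a).re = ∑ z ∈ Z, fl G b r l W z := by
      simp only [hfl]
      rw [Finset.sum_comm]
      refine Finset.sum_congr rfl fun a _ => ?_
      rw [hq, Complex.re_sum, Finset.mul_sum]
    rw [h5]
    refine (Finset.sum_le_sum hZ).trans (le_of_eq ?_)
    rw [Finset.sum_const, nsmul_eq_mul]
    ring
  have h6 : ∑ a ∈ Ioc 0 l, Complex.normSq (q a) ≤ l * (Z.card + (Z.card : ℝ) ^ 2 * η) := by
    have h7 : ∀ a, Complex.normSq (q a) =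
        ∑ z ∈ Z, ∑ z' ∈ Z, ((((z / z') ^ (a + r) : Circle) : ℂ)).re := by
      intro a
      have h8 : ((Complex.normSq (q a) : ℝ) : ℂ) =
          ∑ z ∈ Z, ∑ z' ∈ Z, (((z / z') ^ (a + r) : Circle) : ℂ) := by
        rw [← Complex.mul_conj, hq, map_sum, Finset.sum_mul_sum]
        refine Finset.sum_congr rfl fun z _ => Finset.sum_congr rfl fun z' _ => ?_
        rw [← Circle.coe_inv_eq_conj, ← Circle.coe_mul, div_pow, div_eq_mul_inv]
      have h9 := congrArg Complex.re h8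
      rw [Complex.ofReal_re, Complex.re_sum] at h9
      rw [h9]
      refine Finset.sum_congr rfl fun z _ => ?_
      rw [Complex.re_sum]
    simp only [h7]
    rw [Finset.sum_comm]
    have h10 : ∀ z ∈ Z, ∀ z' ∈ Z, ∑ a ∈ Ioc 0 l, ((((z / z') ^ (a + r) : Circle) : ℂ)).re ≤
        l * ((if z = z' then 1 else 0) + η) := by
      intro z hz z' hz'
      have h11 : ∑ a ∈ Ioc 0 l, ((((z / z') ^ (a + r) : Circle) : ℂ)).re ≤ l * kern l (z, z') := by
        rw [← Complex.re_sum]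
        refine (Complex.re_le_norm _).trans (le_of_eq ?_)
        have h12 : ∑ a ∈ Ioc 0 l, (((z / z') ^ (a + r) : Circle) : ℂ) =
            (((z / z') ^ r : Circle) : ℂ) * ∑ a ∈ Ioc 0 l, (((z / z') ^ a : Circle) : ℂ) := by
          rw [Finset.mul_sum]
          refine Finset.sum_congr rfl fun a _ => ?_
          rw [← Circle.coe_mul, ← pow_add, Nat.add_comm a r]
        rw [h12, norm_mul, Circle.norm_coe, one_mul]
        unfold kern
        rw [mul_div_cancel₀ _ hl0.ne']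
      refine h11.trans (mul_le_mul_of_nonneg_left ?_ hl0.le)
      by_cases h : z = z'
      · rw [if_pos h]
        have := kern_le_one l (z, z')
        linarith
      · rw [if_neg h, zero_add]
        exact hη z hz z' hz' h
    have h13 : ∀ z ∈ Z, ∑ a ∈ Ioc 0 l, ∑ z' ∈ Z, ((((z / z') ^ (a + r) : Circle) : ℂ)).re ≤
        l * (1 + Z.card * η) := by
      intro z hz
      rw [Finset.sum_comm]
      refine (Finset.sum_le_sum fun z' hz' => h10 z hz z' hz').trans (le_of_eq ?_)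
      rw [← Finset.mul_sum, Finset.sum_add_distrib, Finset.sum_ite_eq, if_pos hz, Finset.sum_const,
        nsmul_eq_mul]
    refine (Finset.sum_le_sum h13).trans (le_of_eq ?_)
    rw [Finset.sum_const, nsmul_eq_mul]
    ring
  have h14 : 0 ≤ (l : ℝ) * (1 - κ ^ 2 * Z.card + κ ^ 2 * (Z.card : ℝ) ^ 2 * η) := by
    have e1 : 2 * κ * (∑ a ∈ Ioc 0 l, y a * (q a).re) ≤ 2 * κ * (-(κ * l) * Z.card) :=
      mul_le_mul_of_nonneg_left h4 (by positivity)
    have e2 : κ ^ 2 * (∑ a ∈ Ioc 0 l, Complex.normSq (q a)) ≤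
        κ ^ 2 * (l * (Z.card + (Z.card : ℝ) ^ 2 * η)) :=
      mul_le_mul_of_nonneg_left h6 (by positivity)
    nlinarith [h0, h2, e1, e2]
  have h15 := nonneg_of_mul_nonneg_right h14 hl0
  linarith

/-- Good finite sets of frequencies. -/
def GoodSet (G : ℕ → ℕ) (b r : ℕ) (κ C : ℝ) (Θ : Finset (Finset ℕ × Circle)) : Prop :=
  (Θ.card : ℝ) ≤ C ∧ (∀ t ∈ Θ, t.1 ∈ (range b).powerset.erase ∅ ∧
    ∃ᶠ l : ℕ in atTop, fl G b r l t.1 t.2 ≤ -(κ * l)) ∧
    ∀ᶠ l : ℕ in atTop, ∃ t ∈ Θ, fl G b r l t.1 t.2 ≤ -(κ * l)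

theorem good_count (G : ℕ → ℕ) (b r : ℕ) (κ C : ℝ) (hκ : 0 < κ) (n : ℕ)
    (Θs : ℕ → Finset (Finset ℕ × Circle)) (hg : ∀ i < n, GoodSet G b r κ C (Θs i))
    (hdis : ∀ i < n, ∀ j < n, i ≠ j → Disjoint (Θs i) (Θs j)) : κ ^ 2 * n ≤ 2 ^ b := by
  classical
  obtain ⟨U, hU⟩ : ∃ U : Finset Circle, U = ((range n).biUnion Θs).image Prod.snd := ⟨_, rfl⟩
  obtain ⟨η, hη⟩ : ∃ η : ℝ, η = 1 / (2 ^ b * κ ^ 2 * (n : ℝ) ^ 2 + 1) := ⟨_, rfl⟩
  have hden : (0 : ℝ) < 2 ^ b * κ ^ 2 * (n : ℝ) ^ 2 + 1 := by positivity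
  have hη0 : 0 < η := by rw [hη]; positivity
  have hk : ∀ᶠ l : ℕ in atTop, ∀ z ∈ U, ∀ z' ∈ U, z ≠ z' → kern l (z, z') ≤ η := by
    rw [Filter.eventually_all_finset]
    intro z _
    rw [Filter.eventually_all_finset]
    intro z' _
    by_cases h : z = z'
    · exact Filter.Eventually.of_forall fun l h2 => absurd h h2
    · have h1 := kern_tendsto (z, z')
      have h2 : (z, z') ∉ Set.diagonal Circle := h
      rw [Set.indicator_of_notMem h2] at h1
      filter_upwards [h1.eventually (gt_mem_nhds hη0)] with l h3 _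
      exact h3.le
  have hgood : ∀ᶠ l : ℕ in atTop, ∀ i ∈ range n, ∃ t ∈ Θs i, fl G b r l t.1 t.2 ≤ -(κ * l) := by
    rw [Filter.eventually_all_finset]
    intro i hi
    exact (hg i (Finset.mem_range.mp hi)).2.2
  obtain ⟨l, h1, h2, h3⟩ := (hk.and (hgood.and (eventually_ge_atTop 1))).exists
  have hchoose : ∀ i, ∃ t : Finset ℕ × Circle, i < n → t ∈ Θs i ∧
      fl G b r l t.1 t.2 ≤ -(κ * l) := by
    intro i
    by_cases hi : i < n
    · obtain ⟨t, ht1, ht2⟩ := h2 i (Finset.mem_range.mpr hi)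
      exact ⟨t, fun _ => ⟨ht1, ht2⟩⟩
    · exact ⟨(∅, 1), fun h => absurd h hi⟩
  choose t ht using hchoose
  have htinj : Set.InjOn t (range n : Set ℕ) := by
    intro i hi j hj hij
    rw [Finset.mem_coe, Finset.mem_range] at hi hj
    by_contra hne
    have h4 := Finset.disjoint_left.mp (hdis i hi j hj hne) (ht i hi).1
    rw [hij] at h4
    exact h4 (ht j hj).1
  obtain ⟨F, hF⟩ : ∃ F : Finset (Finset ℕ × Circle), F = (range n).image t := ⟨_, rfl⟩
  have hFcard : F.card = n := by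
    rw [hF, Finset.card_image_of_injOn htinj, Finset.card_range]
  have hFW : ∀ s ∈ F, s.1 ∈ (range b).powerset.erase ∅ ∧ s.2 ∈ U ∧
      fl G b r l s.1 s.2 ≤ -(κ * l) := by
    intro s hs
    rw [hF, Finset.mem_image] at hs
    obtain ⟨i, hi, hsi⟩ := hs
    have hi' := Finset.mem_range.mp hi
    rw [← hsi]
    refine ⟨((hg i hi').2.1 _ (ht i hi').1).1, ?_, (ht i hi').2⟩
    rw [hU, Finset.mem_image]
    exact ⟨t i, Finset.mem_biUnion.mpr ⟨i, hi, (ht i hi').1⟩, rfl⟩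
  have hsum := Finset.card_eq_sum_card_fiberwise (f := Prod.fst) (s := F)
    (t := (range b).powerset.erase ∅) (fun s hs => (hFW s hs).1)
  have hbes : ∀ W ∈ (range b).powerset.erase ∅,
      κ ^ 2 * ((F.filter (fun s => s.1 = W)).card : ℝ) ≤ 1 + κ ^ 2 * (n : ℝ) ^ 2 * η := by
    intro W _
    have h5 : ((F.filter (fun s => s.1 = W)).image Prod.snd).card =
        (F.filter (fun s => s.1 = W)).card := by
      apply Finset.card_image_of_injOn
      intro s hs s' hs' hss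
      rw [Finset.mem_coe, Finset.mem_filter] at hs hs'
      exact Prod.ext (hs.2.trans hs'.2.symm) hss
    have h6 := bessel G b r l W h3 κ hκ η hη0.le ((F.filter (fun s => s.1 = W)).image Prod.snd)
      (by
        intro z hz z' hz' hzz
        rw [Finset.mem_image] at hz hz'
        obtain ⟨s, hs, hsz⟩ := hz
        obtain ⟨s', hs', hsz'⟩ := hz'
        rw [Finset.mem_filter] at hs hs'
        refine h1 z ?_ z' ?_ hzz
        · rw [← hsz]; exact (hFW s hs.1).2.1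
        · rw [← hsz']; exact (hFW s' hs'.1).2.1)
      (by
        intro z hz
        rw [Finset.mem_image] at hz
        obtain ⟨s, hs, hsz⟩ := hz
        rw [Finset.mem_filter] at hs
        have h7 := (hFW s hs.1).2.2
        rw [hs.2, hsz] at h7
        exact h7)
    rw [h5] at h6
    have h8 : ((F.filter (fun s => s.1 = W)).card : ℝ) ≤ n := by
      rw [← hFcard]
      exact_mod_cast Finset.card_filter_le _ _
    have h9 : ((F.filter (fun s => s.1 = W)).card : ℝ) ^ 2 ≤ (n : ℝ) ^ 2 :=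
      pow_le_pow_left₀ (Nat.cast_nonneg _) h8 2
    have h10 : κ ^ 2 * ((F.filter (fun s => s.1 = W)).card : ℝ) ^ 2 * η ≤
        κ ^ 2 * (n : ℝ) ^ 2 * η :=
      mul_le_mul_of_nonneg_right (mul_le_mul_of_nonneg_left h9 (by positivity)) hη0.le
    linarith
  have h11 := Finset.sum_le_sum hbes
  rw [← Finset.mul_sum, Finset.sum_const, nsmul_eq_mul] at h11
  have h12 : ∑ W ∈ (range b).powerset.erase ∅, ((F.filter (fun s => s.1 = W)).card : ℝ) = n := by
    rw [← hFcard]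
    exact_mod_cast hsum.symm
  have hcard : ((((range b).powerset.erase ∅).card : ℕ) : ℝ) = 2 ^ b - 1 := by
    rw [Finset.card_erase_of_mem (Finset.empty_mem_powerset _), Finset.card_powerset,
      Finset.card_range, Nat.cast_sub Nat.one_le_two_pow]
    push_cast
    ring
  rw [h12, hcard] at h11
  have h13 : 2 ^ b * κ ^ 2 * (n : ℝ) ^ 2 * η ≤ 1 := by
    rw [hη, mul_one_div, div_le_one hden]
    linarith
  have h14 : 0 ≤ κ ^ 2 * (n : ℝ) ^ 2 * η := by positivity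
  nlinarith [h11, h13, h14]

/-- The selection. -/
theorem selection (G : ℕ → ℕ) (b r : ℕ) (κ C : ℝ) (hκ : 0 < κ) (hC : 0 ≤ C)
    (hex : ∃ Θ, GoodSet G b r κ C Θ) :
    ∃ Θ : Finset (Finset ℕ × Circle), (Θ.card : ℝ) ≤ 2 ^ b / κ ^ 2 * C ∧
      (∀ t ∈ Θ, t.1 ∈ (range b).powerset.erase ∅ ∧
        ∃ᶠ l : ℕ in atTop, fl G b r l t.1 t.2 ≤ -(κ * l)) ∧
      (∀ᶠ l : ℕ in atTop, ∃ t ∈ Θ, fl G b r l t.1 t.2 ≤ -(κ * l)) ∧
      ∀ Θ', GoodSet G b r κ C Θ' → ∃ t ∈ Θ, t ∈ Θ' := by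
  classical
  obtain ⟨P, hP⟩ : ∃ P : ℕ → Prop, ∀ n, P n ↔ ∃ Θs : ℕ → Finset (Finset ℕ × Circle),
      (∀ i < n, GoodSet G b r κ C (Θs i)) ∧
      (∀ i < n, ∀ j < n, i ≠ j → Disjoint (Θs i) (Θs j)) := ⟨_, fun _ => Iff.rfl⟩
  have hP1 : P 1 := by
    obtain ⟨Θ, hΘ⟩ := hex
    rw [hP]
    exact ⟨fun _ => Θ, fun _ _ => hΘ, fun i hi j hj hij => absurd (by omega) hij⟩
  have hPb : ∀ n, P n → κ ^ 2 * n ≤ 2 ^ b := by
    intro n hn
    rw [hP] at hn
    obtain ⟨Θs, h1, h2⟩ := hn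
    exact good_count G b r κ C hκ n Θs h1 h2
  have hnot : ∃ n, ¬ P n := by
    refine ⟨⌈2 ^ b / κ ^ 2⌉₊ + 1, fun h => ?_⟩
    have h1 := hPb _ h
    have h2 := Nat.le_ceil ((2 : ℝ) ^ b / κ ^ 2)
    rw [div_le_iff₀ (by positivity)] at h2
    push_cast at h1
    nlinarith [sq_pos_of_pos hκ]
  have hn0 : ¬ P (Nat.find hnot) := Nat.find_spec hnot
  have hpos : 2 ≤ Nat.find hnot := by
    by_contra hc
    have h1 : Nat.find hnot = 0 ∨ Nat.find hnot = 1 := by omega
    rcases h1 with h1 | h1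
    · rw [h1, hP] at hn0
      exact hn0 ⟨fun _ => ∅, fun i hi => absurd hi (Nat.not_lt_zero i),
        fun i hi => absurd hi (Nat.not_lt_zero i)⟩
    · rw [h1] at hn0
      exact hn0 hP1
  obtain ⟨n, hn⟩ : ∃ n, n + 1 = Nat.find hnot := ⟨Nat.find hnot - 1, by omega⟩
  have hPn : P n := by
    have := Nat.find_min hnot (m := n) (by omega)
    exact not_not.mp this
  rw [← hn] at hn0
  have hbn := hPb n hPn
  rw [hP] at hPn
  obtain ⟨Θs, h1, h2⟩ := hPn
  refine ⟨(range n).biUnion Θs, ?_, ?_, ?_, ?_⟩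
  · have h3 : (((range n).biUnion Θs).card : ℝ) ≤ ∑ i ∈ range n, ((Θs i).card : ℝ) := by
      exact_mod_cast Finset.card_biUnion_le
    have h4 : ∑ i ∈ range n, ((Θs i).card : ℝ) ≤ ∑ i ∈ range n, C :=
      Finset.sum_le_sum fun i hi => (h1 i (Finset.mem_range.mp hi)).1
    rw [Finset.sum_const, Finset.card_range, nsmul_eq_mul] at h4
    refine (h3.trans h4).trans (mul_le_mul_of_nonneg_right ?_ hC)
    rw [le_div_iff₀ (by positivity)]
    linarith
  · intro t ht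
    rw [Finset.mem_biUnion] at ht
    obtain ⟨i, hi, hit⟩ := ht
    exact (h1 i (Finset.mem_range.mp hi)).2.1 t hit
  · filter_upwards [(h1 0 (by omega)).2.2] with l hl
    obtain ⟨t, ht1, ht2⟩ := hl
    exact ⟨t, Finset.mem_biUnion.mpr ⟨0, Finset.mem_range.mpr (by omega), ht1⟩, ht2⟩
  · intro Θ' hΘ'
    by_contra hcon
    push Not at hcon
    apply hn0
    rw [hP]
    refine ⟨fun i => if i < n then Θs i else Θ', ?_, ?_⟩
    · intro i hi
      by_cases h : i < n
      · simp only [if_pos h]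
        exact h1 i h
      · simp only [if_neg h]
        exact hΘ'
    · intro i hi j hj hij
      by_cases hi' : i < n
      · by_cases hj' : j < n
        · simp only [if_pos hi', if_pos hj']
          exact h2 i hi' j hj' hij
        · simp only [if_pos hi', if_neg hj']
          rw [Finset.disjoint_left]
          intro t ht
          exact hcon t (Finset.mem_biUnion.mpr ⟨i, Finset.mem_range.mpr hi', ht⟩)
      · by_cases hj' : j < n
        · simp only [if_neg hi', if_pos hj']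
          rw [Finset.disjoint_right]
          intro t ht
          exact hcon t (Finset.mem_biUnion.mpr ⟨j, Finset.mem_range.mpr hj', ht⟩)
        · exact absurd (by omega) hij

end H45O
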