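import Pool.Agent.Lib.H45O.Core2

/-!
# A Wiener type estimate
-/

namespace H45O

open Finset Complex MeasureTheory Filter Topology

noncomputable local instance instMSCircle3 : MeasurableSpace Circle := borel Circle

local instance instBSCircle3 : BorelSpace Circle := ⟨rfl⟩

local instance instSCCircle3 : SecondCountableTopology Circle :=
  inferInstanceAs (SecondCountableTopology (Metric.sphere (0 : ℂ) 1))

/-- The kernel. -/
noncomputable def kern (l : ℕ) (p : Circle × Circle) : ℝ :=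
  ‖∑ a ∈ Ioc 0 l, (((p.1 / p.2) ^ a : Circle) : ℂ)‖ / l

theorem continuous_kern (l : ℕ) : Continuous (kern l) := by
  unfold kern
  refine Continuous.div_const ?_ _
  refine Continuous.norm ?_
  refine continuous_finsetSum _ fun a _ => ?_
  have h1 : Continuous (fun p : Circle × Circle => (p.1 / p.2) ^ a) :=
    (continuous_fst.div' continuous_snd).pow a
  have h2 : Continuous (fun z : Circle => (z : ℂ)) := by fun_prop
  exact h2.comp h1

theorem kern_nonneg (l : ℕ) (p : Circle × Circle) : 0 ≤ kern l p := by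
  unfold kern
  positivity

theorem kern_le_one (l : ℕ) (p : Circle × Circle) : kern l p ≤ 1 := by
  unfold kern
  rcases Nat.eq_zero_or_pos l with h | h
  · rw [h]; simp
  · have hl0 : (0 : ℝ) < l := by exact_mod_cast h
    rw [div_le_one hl0]
    refine (norm_sum_le _ _).trans ?_
    have h1 : ∀ a ∈ Ioc 0 l, ‖(((p.1 / p.2) ^ a : Circle) : ℂ)‖ ≤ 1 := by
      intro a _
      rw [Circle.norm_coe]
    refine (Finset.sum_le_sum h1).trans ?_
    rw [Finset.sum_const, nsmul_eq_mul, mul_one, Nat.card_Ioc]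
    simp

theorem geom_Ioc (q : ℂ) (l : ℕ) : (q - 1) * ∑ a ∈ Ioc 0 l, q ^ a = q ^ (l + 1) - q := by
  induction l with
  | zero => simp
  | succ l ih =>
    rw [Finset.sum_Ioc_succ_top (Nat.zero_le l), mul_add, ih]
    ring

theorem kern_tendsto (p : Circle × Circle) :
    Tendsto (fun l => kern l p) atTop (𝓝 (Set.indicator (Set.diagonal Circle) (fun _ => (1 : ℝ)) p)) := by
  by_cases h : p.1 = p.2
  · have hp : p ∈ Set.diagonal Circle := h
    rw [Set.indicator_of_mem hp]
    apply tendsto_nhds_of_eventually_eq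
    filter_upwards [eventually_ge_atTop 1] with l hl
    unfold kern
    have hl0 : (0 : ℝ) < l := by exact_mod_cast hl
    rw [h, div_self']
    simp only [one_pow, Circle.coe_one, Finset.sum_const, Nat.card_Ioc, nsmul_eq_mul, mul_one]
    rw [Nat.sub_zero, Complex.norm_natCast, div_self hl0.ne']
  · have hp : p ∉ Set.diagonal Circle := h
    rw [Set.indicator_of_notMem hp]
    obtain ⟨q, hq⟩ : ∃ q : ℂ, q = ((p.1 / p.2 : Circle) : ℂ) := ⟨_, rfl⟩
    have hq1 : q ≠ 1 := by
      rw [hq]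
      intro h1
      have h2 : p.1 / p.2 = 1 := by
        apply Circle.ext
        rw [h1, Circle.coe_one]
      exact h (div_eq_one.mp h2)
    have hqn : ‖q‖ = 1 := by rw [hq, Circle.norm_coe]
    have hd : 0 < ‖q - 1‖ := norm_pos_iff.mpr (sub_ne_zero.mpr hq1)
    have hk : ∀ l : ℕ, kern l p ≤ 2 / ‖q - 1‖ * (1 / (l : ℝ)) := by
      intro l
      unfold kern
      have h1 : ∑ a ∈ Ioc 0 l, (((p.1 / p.2) ^ a : Circle) : ℂ) = ∑ a ∈ Ioc 0 l, q ^ a := by
        refine Finset.sum_congr rfl fun a _ => ?_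
        rw [Circle.coe_pow, hq]
      rw [h1]
      have h2 := congrArg norm (geom_Ioc q l)
      rw [norm_mul] at h2
      have h3 : ‖q ^ (l + 1) - q‖ ≤ 2 := by
        refine (norm_sub_le _ _).trans ?_
        rw [norm_pow, hqn, one_pow]
        norm_num
      rw [← h2] at h3
      have h4 : ‖∑ a ∈ Ioc 0 l, q ^ a‖ ≤ 2 / ‖q - 1‖ := by
        rw [le_div_iff₀ hd]
        linarith
      rw [div_eq_mul_one_div]
      exact mul_le_mul_of_nonneg_right h4 (by positivity)
    have h5 : Tendsto (fun l : ℕ => 2 / ‖q - 1‖ * (1 / (l : ℝ))) atTop (𝓝 (2 / ‖q - 1‖ * 0)) :=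
      tendsto_one_div_atTop_nhds_zero_nat.const_mul _
    rw [mul_zero] at h5
    exact squeeze_zero (fun l => kern_nonneg l p) hk h5

/-- The integral of the kernel. -/
theorem kern_integral (ρ : Measure Circle) [IsFiniteMeasure ρ] (ε : ℝ) (hε : 0 ≤ ε)
    (hmass : ρ Set.univ ≤ 1) (hat : ∀ z, ρ {z} ≤ ENNReal.ofReal ε) :
    ∃ t : ℝ, t ≤ ε ∧ Tendsto (fun l => ∫ p, kern l p ∂(ρ.prod ρ)) atTop (𝓝 t) := by
  refine ⟨∫ p, Set.indicator (Set.diagonal Circle) (fun _ => (1 : ℝ)) p ∂(ρ.prod ρ), ?_, ?_⟩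
  · rw [integral_indicator measurableSet_diagonal, setIntegral_const, smul_eq_mul, mul_one]
    unfold Measure.real
    apply ENNReal.toReal_le_of_le_ofReal hε
    rw [Measure.prod_apply measurableSet_diagonal]
    have h1 : ∀ z : Circle, ρ (Prod.mk z ⁻¹' Set.diagonal Circle) ≤ ENNReal.ofReal ε := by
      intro z
      have h2 : Prod.mk z ⁻¹' Set.diagonal Circle = {z} := by
        ext w
        rw [Set.mem_preimage, Set.mem_diagonal_iff, Set.mem_singleton_iff]
        exact eq_comm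
      rw [h2]
      exact hat z
    refine (lintegral_mono h1).trans ?_
    rw [lintegral_const]
    calc ENNReal.ofReal ε * ρ Set.univ ≤ ENNReal.ofReal ε * 1 := by gcongr
      _ = ENNReal.ofReal ε := mul_one _
  · apply tendsto_integral_of_dominated_convergence (fun _ => (1 : ℝ))
    · intro l
      exact (continuous_kern l).aestronglyMeasurable
    · exact integrable_const _
    · intro l
      refine Filter.Eventually.of_forall fun p => ?_
      rw [Real.norm_eq_abs, abs_of_nonneg (kern_nonneg l p)]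
      exact kern_le_one l p
    · exact Filter.Eventually.of_forall fun p => kern_tendsto p

/-- The estimate. -/
theorem wiener_bound (ρ : Measure Circle) [IsFiniteMeasure ρ] (G : ℕ → ℕ) (b r l : ℕ)
    (W : Finset ℕ) (hl : 1 ≤ l) (τ : ℝ) (hτ : 0 < τ) :
    ∫ z, |fl G b r l W z / l| ∂ρ ≤ τ / 2 + (∫ p, kern l p ∂(ρ.prod ρ)) / (2 * τ) := by
  classical
  have hl0 : (0 : ℝ) < l := by exact_mod_cast hl
  obtain ⟨φ, hφ⟩ : ∃ φ : Circle → ℝ, φ = fun z => if 0 ≤ fl G b r l W z then (1 : ℝ) else -1 :=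
    ⟨_, rfl⟩
  have hφm : Measurable φ := by
    rw [hφ]
    exact Measurable.ite (measurableSet_le measurable_const (continuous_fl G b r l W).measurable)
      measurable_const measurable_const
  have hφn : ∀ z, ‖φ z‖ ≤ 1 := by
    intro z
    rw [hφ]
    show ‖if 0 ≤ fl G b r l W z then (1 : ℝ) else -1‖ ≤ 1
    split_ifs <;> simp
  have hφn' : ∀ z, |φ z| = 1 := by
    intro z
    rw [hφ]
    show |if 0 ≤ fl G b r l W z then (1 : ℝ) else -1| = 1
    split_ifs <;> simp
  have habs : ∀ z, |fl G b r l W z| = φ z * fl G b r l W z := by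
    intro z
    rw [hφ]
    show |fl G b r l W z| = (if 0 ≤ fl G b r l W z then (1 : ℝ) else -1) * fl G b r l W z
    split_ifs with h
    · rw [abs_of_nonneg h, one_mul]
    · rw [abs_of_neg (not_le.mp h)]; ring
  have hcc : ∀ n : ℕ, Continuous (fun z : Circle => ((z ^ n : Circle) : ℂ)) := by
    intro n
    fun_prop
  have hint : ∀ n : ℕ, Integrable (fun z : Circle => (φ z : ℂ) * ((z ^ n : Circle) : ℂ)) ρ := by
    intro n
    refine Integrable.of_bound (C := 1) ?_ ?_
    · exact (Complex.measurable_ofReal.comp hφm).aestronglyMeasurable.mul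
        (hcc n).aestronglyMeasurable
    · refine Filter.Eventually.of_forall fun z => ?_
      rw [norm_mul, Circle.norm_coe, mul_one, Complex.norm_real]
      exact hφn z
  obtain ⟨I, hI⟩ : ∃ I : ℕ → ℂ, ∀ n, I n = ∫ z, (φ z : ℂ) * ((z ^ n : Circle) : ℂ) ∂ρ :=
    ⟨_, fun _ => rfl⟩
  obtain ⟨A, hA⟩ : ∃ A, A = (Ioc 0 l).filter (fun a => G a < 2 ^ b) := ⟨_, rfl⟩
  have h1 : ∫ z, |fl G b r l W z| ∂ρ ≤ ∑ a ∈ A, ‖I (a + r)‖ := by
    have h2 : ∀ z, |fl G b r l W z| =
        ∑ a ∈ A, chi W (G a) * ((φ z : ℂ) * ((z ^ (a + r) : Circle) : ℂ)).re := by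
      intro z
      rw [habs z]
      unfold fl
      rw [← hA, Finset.mul_sum]
      refine Finset.sum_congr rfl fun a _ => ?_
      rw [Complex.re_ofReal_mul]
      ring
    simp only [h2]
    rw [integral_finsetSum]
    · refine Finset.sum_le_sum fun a _ => ?_
      rw [integral_const_mul]
      have h3 : ∫ z, ((φ z : ℂ) * ((z ^ (a + r) : Circle) : ℂ)).re ∂ρ = (I (a + r)).re := by
        rw [hI]
        exact integral_re (hint (a + r))
      rw [h3]
      refine (le_abs_self _).trans ?_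
      rw [abs_mul, abs_chi, one_mul]
      exact Complex.abs_re_le_norm _
    · intro a _
      exact (hint (a + r)).re.const_mul _
  have h4 : ∑ a ∈ A, ‖I (a + r)‖ ≤ ∑ a ∈ Ioc 0 l, (τ / 2 + ‖I (a + r)‖ ^ 2 / (2 * τ)) := by
    have h5 : ∀ a, ‖I (a + r)‖ ≤ τ / 2 + ‖I (a + r)‖ ^ 2 / (2 * τ) := by
      intro a
      have h6 : τ / 2 + ‖I (a + r)‖ ^ 2 / (2 * τ) - ‖I (a + r)‖ =
          (τ - ‖I (a + r)‖) ^ 2 / (2 * τ) := by
        field_simp
        ring
      have h7 : 0 ≤ (τ - ‖I (a + r)‖) ^ 2 / (2 * τ) := by positivity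
      linarith
    calc ∑ a ∈ A, ‖I (a + r)‖ ≤ ∑ a ∈ Ioc 0 l, ‖I (a + r)‖ := by
          apply Finset.sum_le_sum_of_subset_of_nonneg
          · rw [hA]; exact Finset.filter_subset _ _
          · intro _ _ _; exact norm_nonneg _
      _ ≤ _ := Finset.sum_le_sum fun a _ => h5 a
  have h8 : ∑ a ∈ Ioc 0 l, ‖I (a + r)‖ ^ 2 ≤ l * ∫ p, kern l p ∂(ρ.prod ρ) := by
    have hconj : ∀ n, (starRingEnd ℂ) (I n) =
        ∫ w, (φ w : ℂ) * (starRingEnd ℂ) ((w ^ n : Circle) : ℂ) ∂ρ := by
      intro n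
      rw [hI, ← integral_conj]
      refine integral_congr_ae (Filter.Eventually.of_forall fun w => ?_)
      show (starRingEnd ℂ) ((φ w : ℂ) * ((w ^ n : Circle) : ℂ)) = _
      rw [(starRingEnd ℂ).map_mul, Complex.conj_ofReal]
    have hprod : ∀ n, ((‖I n‖ ^ 2 : ℝ) : ℂ) = ∫ p : Circle × Circle,
        ((φ p.1 : ℂ) * ((p.1 ^ n : Circle) : ℂ)) *
        ((φ p.2 : ℂ) * (starRingEnd ℂ) ((p.2 ^ n : Circle) : ℂ)) ∂(ρ.prod ρ) := by
      intro n
      rw [integral_prod_mul (fun z : Circle => (φ z : ℂ) * ((z ^ n : Circle) : ℂ))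
        (fun w : Circle => (φ w : ℂ) * (starRingEnd ℂ) ((w ^ n : Circle) : ℂ)), ← hconj, ← hI,
        Complex.mul_conj, Complex.normSq_eq_norm_sq]
    have hint2 : ∀ n, Integrable (fun p : Circle × Circle =>
        ((φ p.1 : ℂ) * ((p.1 ^ n : Circle) : ℂ)) *
        ((φ p.2 : ℂ) * (starRingEnd ℂ) ((p.2 ^ n : Circle) : ℂ))) (ρ.prod ρ) := by
      intro n
      have h9 : Integrable (fun w : Circle =>
          (φ w : ℂ) * (starRingEnd ℂ) ((w ^ n : Circle) : ℂ)) ρ := by
        refine Integrable.of_bound (C := 1) ?_ ?_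
        · exact (Complex.measurable_ofReal.comp hφm).aestronglyMeasurable.mul
            (Complex.continuous_conj.comp (hcc n)).aestronglyMeasurable
        · refine Filter.Eventually.of_forall fun z => ?_
          rw [norm_mul, RCLike.norm_conj, Circle.norm_coe, mul_one, Complex.norm_real]
          exact hφn z
      exact (hint n).mul_prod h9
    have hsum : ((∑ a ∈ Ioc 0 l, ‖I (a + r)‖ ^ 2 : ℝ) : ℂ) = ∫ p : Circle × Circle,
        ∑ a ∈ Ioc 0 l, ((φ p.1 : ℂ) * ((p.1 ^ (a + r) : Circle) : ℂ)) *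
        ((φ p.2 : ℂ) * (starRingEnd ℂ) ((p.2 ^ (a + r) : Circle) : ℂ)) ∂(ρ.prod ρ) := by
      rw [integral_finsetSum _ (fun a _ => hint2 (a + r)), Complex.ofReal_sum]
      exact Finset.sum_congr rfl fun a _ => hprod (a + r)
    have hn := congrArg norm hsum
    rw [Complex.norm_real, Real.norm_eq_abs, abs_of_nonneg (by positivity)] at hn
    rw [hn, ← integral_const_mul]
    refine norm_integral_le_of_norm_le ?_ ?_
    · apply Integrable.const_mul
      refine Integrable.of_bound (C := 1) (continuous_kern l).aestronglyMeasurable ?_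
      refine Filter.Eventually.of_forall fun p => ?_
      rw [Real.norm_eq_abs, abs_of_nonneg (kern_nonneg l p)]
      exact kern_le_one l p
    · refine Filter.Eventually.of_forall fun p => ?_
      have h10 : ∑ a ∈ Ioc 0 l, ((φ p.1 : ℂ) * ((p.1 ^ (a + r) : Circle) : ℂ)) *
          ((φ p.2 : ℂ) * (starRingEnd ℂ) ((p.2 ^ (a + r) : Circle) : ℂ)) =
          (φ p.1 : ℂ) * (φ p.2 : ℂ) * (((p.1 / p.2) ^ r : Circle) : ℂ) *
            ∑ a ∈ Ioc 0 l, (((p.1 / p.2) ^ a : Circle) : ℂ) := by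
        rw [Finset.mul_sum]
        refine Finset.sum_congr rfl fun a _ => ?_
        have h11 : (starRingEnd ℂ) ((p.2 ^ (a + r) : Circle) : ℂ) =
            (((p.2 ^ (a + r))⁻¹ : Circle) : ℂ) := by
          rw [Circle.coe_inv_eq_conj]
        have h12 : (((p.1 / p.2) ^ r : Circle) : ℂ) * (((p.1 / p.2) ^ a : Circle) : ℂ) =
            ((p.1 ^ (a + r) : Circle) : ℂ) * (((p.2 ^ (a + r))⁻¹ : Circle) : ℂ) := by
          rw [← Circle.coe_mul, ← Circle.coe_mul]
          congr 1
          rw [← pow_add, div_pow, div_eq_mul_inv, Nat.add_comm r a]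
        rw [h11]
        calc _ = (φ p.1 : ℂ) * (φ p.2 : ℂ) * (((p.1 ^ (a + r) : Circle) : ℂ) *
              (((p.2 ^ (a + r))⁻¹ : Circle) : ℂ)) := by ring
          _ = _ := by rw [← h12]; ring
      rw [h10, norm_mul, norm_mul, norm_mul, Circle.norm_coe, Complex.norm_real, Complex.norm_real,
        Real.norm_eq_abs, Real.norm_eq_abs, hφn', hφn']
      unfold kern
      rw [mul_div_cancel₀ _ hl0.ne']
      simp
  have h13 : ∫ z, |fl G b r l W z / l| ∂ρ = (∫ z, |fl G b r l W z| ∂ρ) / l := by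
    rw [← integral_div]
    refine integral_congr_ae (Filter.Eventually.of_forall fun z => ?_)
    show |fl G b r l W z / l| = |fl G b r l W z| / l
    rw [abs_div, Nat.abs_cast]
  rw [h13, div_le_iff₀ hl0]
  refine (h1.trans h4).trans ?_
  rw [Finset.sum_add_distrib, Finset.sum_const, Nat.card_Ioc, nsmul_eq_mul, ← Finset.sum_div,
    Nat.sub_zero]
  have h14 : (∑ a ∈ Ioc 0 l, ‖I (a + r)‖ ^ 2) / (2 * τ) ≤
      (l * ∫ p, kern l p ∂(ρ.prod ρ)) / (2 * τ) :=
    div_le_div_of_nonneg_right h8 (by positivity)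
  calc (l : ℝ) * (τ / 2) + (∑ a ∈ Ioc 0 l, ‖I (a + r)‖ ^ 2) / (2 * τ)
      ≤ (l : ℝ) * (τ / 2) + (l * ∫ p, kern l p ∂(ρ.prod ρ)) / (2 * τ) := by linarith
    _ = _ := by ring

end H45O
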