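import Pool.Agent.Lib.H45O.Atoms

/-!
# Windows: counting, levels, limit measures
-/

namespace H45O

open Finset Complex MeasureTheory Filter Topology

noncomputable local instance instMSCircle5 : MeasurableSpace Circle := borel Circle

local instance instBSCircle5 : BorelSpace Circle := ⟨rfl⟩

theorem eq_of_cast_lt (M m n : ℕ) (h : (m : ZMod M) = n) (h1 : m < n + M) (h2 : n < m + M) :
    m = n := by
  have h3 := (ZMod.natCast_eq_natCast_iff' m n M).mp h
  have h4 : m ≡ n [MOD M] := h3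
  rcases le_total m n with h5 | h5
  · have h6 := (Nat.modEq_iff_dvd' h5).mp h4
    have h7 := Nat.eq_zero_of_dvd_of_lt h6 (by omega)
    omega
  · have h6 := (Nat.modEq_iff_dvd' h5).mp h4.symm
    have h7 := Nat.eq_zero_of_dvd_of_lt h6 (by omega)
    omega

theorem natCast_inj_win (X N : ℕ) :
    ∀ m ∈ Ioc X (X + N), ∀ n ∈ Ioc X (X + N), (m : ZMod (2 * N + 1)) = n → m = n := by
  intro m hm n hn h
  rw [Finset.mem_Ioc] at hm hn
  exact eq_of_cast_lt (2 * N + 1) m n h (by omega) (by omega)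

/-- The number of the triples. -/
theorem count_win (X N l r : ℕ) (S : ℕ → Prop) [DecidablePred S] (hN : l + r ≤ N) :
    ((((Ioc 0 l).filter S).card : ℕ) : ℝ) *
      ((N : ℝ) - l - r - 2 * (((Ioc X (X + N)).filter (fun a => ¬ S a)).card : ℕ)) ≤
    tri (2 * N + 1) r ((Ioc X (X + N)).filter S) ((Ioc 0 l).filter S) (fun _ => 1)
      (fun _ => 1) := by
  have h1 : ∀ m ∈ (Ioc X (X + N)).filter S, ∀ a ∈ (Ioc 0 l).filter S,
      (if m + a + r ≤ X + N ∧ S (m + a + r) then (1 : ℝ) else 0) ≤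
      ∑ n ∈ (Ioc X (X + N)).filter S,
        if ((n : ZMod (2 * N + 1)) = m + a + r) then (1 : ℝ) * 1 * 1 else 0 := by
    intro m hm a ha
    rw [Finset.mem_filter, Finset.mem_Ioc] at hm
    have h0 : ∀ n ∈ (Ioc X (X + N)).filter S,
        (0 : ℝ) ≤ if ((n : ZMod (2 * N + 1)) = m + a + r) then (1 : ℝ) * 1 * 1 else 0 := by
      intro n _
      split_ifs <;> norm_num
    by_cases h : m + a + r ≤ X + N ∧ S (m + a + r)
    · rw [if_pos h]
      have h2 := Finset.single_le_sum h0 (show m + a + r ∈ (Ioc X (X + N)).filter S by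
        rw [Finset.mem_filter, Finset.mem_Ioc]; exact ⟨⟨by omega, h.1⟩, h.2⟩)
      rw [if_pos (by push_cast; ring)] at h2
      linarith
    · rw [if_neg h]
      exact Finset.sum_nonneg h0
  have h2 : ∑ m ∈ (Ioc X (X + N)).filter S, ∑ a ∈ (Ioc 0 l).filter S,
      (if m + a + r ≤ X + N ∧ S (m + a + r) then (1 : ℝ) else 0)
      ≤ tri (2 * N + 1) r ((Ioc X (X + N)).filter S) ((Ioc 0 l).filter S)
        (fun _ => 1) (fun _ => 1) := by
    unfold tri
    refine Finset.sum_le_sum fun m hm => ?_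
    rw [Finset.sum_comm]
    exact Finset.sum_le_sum fun a ha => h1 m hm a ha
  refine le_trans ?_ h2
  rw [Finset.sum_comm, ← nsmul_eq_mul, ← Finset.sum_const]
  refine Finset.sum_le_sum fun a ha => ?_
  rw [Finset.mem_filter, Finset.mem_Ioc] at ha
  rw [Finset.sum_ite, Finset.sum_const_zero, add_zero, Finset.sum_const, nsmul_eq_mul, mul_one]
  have h3 : Ioc X (X + (N - a - r)) ⊆
      (((Ioc X (X + N)).filter S).filter (fun m => m + a + r ≤ X + N ∧ S (m + a + r)) ∪
        (Ioc X (X + N)).filter (fun a => ¬ S a)) ∪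
        (Ioc X (X + N)).filter (fun m => m + a + r ≤ X + N ∧ ¬ S (m + a + r)) := by
    intro m hm
    rw [Finset.mem_Ioc] at hm
    rw [Finset.mem_union, Finset.mem_union, Finset.mem_filter, Finset.mem_filter,
      Finset.mem_filter, Finset.mem_filter, Finset.mem_Ioc]
    by_cases c1 : S m
    · by_cases c2 : S (m + a + r)
      · exact Or.inl (Or.inl ⟨⟨⟨by omega, by omega⟩, c1⟩, by omega, c2⟩)
      · exact Or.inr ⟨⟨by omega, by omega⟩, by omega, c2⟩
    · exact Or.inl (Or.inr ⟨⟨by omega, by omega⟩, c1⟩)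
  have h4 := (Finset.card_le_card h3).trans ((Finset.card_union_le _ _).trans
    (Nat.add_le_add_right (Finset.card_union_le _ _) _))
  have h5 : ((Ioc X (X + N)).filter (fun m => m + a + r ≤ X + N ∧ ¬ S (m + a + r))).card ≤
      ((Ioc X (X + N)).filter (fun a => ¬ S a)).card := by
    apply Finset.card_le_card_of_injOn (fun m => m + a + r)
    · intro m hm
      rw [Finset.mem_coe, Finset.mem_filter, Finset.mem_Ioc] at hm
      rw [Finset.mem_coe, Finset.mem_filter, Finset.mem_Ioc]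
      show (X < m + a + r ∧ m + a + r ≤ X + N) ∧ ¬ S (m + a + r)
      exact ⟨⟨by omega, hm.2.1⟩, hm.2.2⟩
    · intro m _ m' _ h
      have h' : m + a + r = m' + a + r := h
      omega
  rw [Nat.card_Ioc] at h4
  have h6 : N ≤ (((Ioc X (X + N)).filter S).filter
      (fun m => m + a + r ≤ X + N ∧ S (m + a + r))).card
      + 2 * ((Ioc X (X + N)).filter (fun a => ¬ S a)).card + l + r := by omega
  have h7 : (N : ℝ) ≤
      ((((Ioc X (X + N)).filter S).filter (fun m => m + a + r ≤ X + N ∧ S (m + a + r))).card : ℝ)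
      + 2 * (((Ioc X (X + N)).filter (fun a => ¬ S a)).card : ℝ) + l + r := by
    exact_mod_cast h6
  linarith

/-- The relation for the finite sums. -/
theorem rel_win (d G : ℕ → ℕ) (hG : IsGrundy d G) (r : ℕ) (hr : 1 ≤ r)
    (hd : (d r).testBit 2 = true) (b X N l : ℕ) (hN : l + r ≤ N) :
    ∑ W ∈ (range b).powerset.erase ∅,
      tri (2 * N + 1) r ((Ioc X (X + N)).filter (fun a => G a < 2 ^ b))
        ((Ioc 0 l).filter (fun a => G a < 2 ^ b)) (fun n => chi W (G n)) (fun n => chi W (G n)) ≤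
    -(((((Ioc 0 l).filter (fun a => G a < 2 ^ b)).card : ℕ) : ℝ) *
      ((N : ℝ) - l - r -
        2 * (((Ioc X (X + N)).filter (fun a => ¬ G a < 2 ^ b)).card : ℕ))) := by
  rw [key (2 * N + 1) r b _ _ G (fun n hn => (Finset.mem_filter.mp hn).2)
    (fun a ha => (Finset.mem_filter.mp ha).2)]
  · have := count_win X N l r (fun a => G a < 2 ^ b) hN
    linarith
  · intro m hm n hn a ha h
    rw [Finset.mem_filter, Finset.mem_Ioc] at hm hn ha
    have h0 : ((n : ℕ) : ZMod (2 * N + 1)) = ((m + a + r : ℕ) : ZMod (2 * N + 1)) := by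
      rw [h]; push_cast; ring
    have h3 := eq_of_cast_lt (2 * N + 1) n (m + a + r) h0 (by omega) (by omega)
    rw [h3]
    exact hG.ne hr hd (by omega) (by omega)

/-- The functional of a window. -/
noncomputable def Phi (G : ℕ → ℕ) (b X N : ℕ) (W : Finset ℕ) (f : Circle → ℝ) : ℝ :=
  ∑ k : ZMod (2 * N + 1), ‖hat (2 * N + 1) ((Ioc X (X + N)).filter (fun a => G a < 2 ^ b))
    (fun n => chi W (G n)) k‖ ^ 2 / (N * (2 * N + 1)) * f (ZMod.toCircle k)

theorem exists_level_win (G : ℕ → ℕ) (b X N : ℕ) (W : Finset ℕ) :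
    ∃ μ : FiniteMeasure Circle, μ.mass ≤ 1 ∧ ∀ f : Circle → ℝ, Continuous f →
      ∫ z, f z ∂(μ : Measure Circle) = Phi G b X N W f := by
  obtain ⟨P, hP⟩ : ∃ P, P = (Ioc X (X + N)).filter (fun a => G a < 2 ^ b) := ⟨_, rfl⟩
  have hinj : ∀ m ∈ P, ∀ n ∈ P, (m : ZMod (2 * N + 1)) = n → m = n := by
    intro m hm n hn h
    rw [hP] at hm hn
    exact natCast_inj_win X N m (Finset.mem_filter.mp hm).1 n (Finset.mem_filter.mp hn).1 h
  have hPc : ∑ m ∈ P, (chi W (G m)) ^ 2 ≤ (N : ℝ) := by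
    rw [Finset.sum_congr rfl fun m _ => chi_sq W (G m), Finset.sum_const, nsmul_eq_mul, mul_one]
    have h1 : P.card ≤ (Ioc X (X + N)).card := by rw [hP]; exact Finset.card_filter_le _ _
    rw [Nat.card_Ioc] at h1
    exact_mod_cast (by omega : P.card ≤ N)
  have hpars := parseval (2 * N + 1) P (fun n => chi W (G n)) hinj
  obtain ⟨μ, hμ1, hμ2⟩ := exists_dm (2 * N + 1)
    (fun k => ‖hat (2 * N + 1) P (fun n => chi W (G n)) k‖ ^ 2 / (N * (2 * N + 1)))
    (fun k => by positivity) (by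
      rw [← Finset.sum_div, hpars]
      rcases Nat.eq_zero_or_pos N with h | h
      · rw [h]; simp
      · have hN0 : (0 : ℝ) < N := by exact_mod_cast h
        rw [div_le_one (by positivity)]
        push_cast
        nlinarith [hPc, hN0])
  refine ⟨μ, hμ1, fun f hf => ?_⟩
  rw [hμ2 f hf]
  unfold Phi
  rw [← hP]

theorem Phi_fl (G : ℕ → ℕ) (b X N : ℕ) (hN : 1 ≤ N) (W : Finset ℕ) (r l : ℕ) :
    Phi G b X N W (fl G b r l W) =
      tri (2 * N + 1) r ((Ioc X (X + N)).filter (fun a => G a < 2 ^ b))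
        ((Ioc 0 l).filter (fun a => G a < 2 ^ b)) (fun n => chi W (G n)) (fun n => chi W (G n)) / N := by
  obtain ⟨P, hP⟩ : ∃ P, P = (Ioc X (X + N)).filter (fun a => G a < 2 ^ b) := ⟨_, rfl⟩
  have hN0 : (0 : ℝ) < N := by exact_mod_cast hN
  unfold Phi
  rw [← hP]
  have h1 := tri_eq (2 * N + 1) r P ((Ioc 0 l).filter (fun a => G a < 2 ^ b))
    (fun n => chi W (G n)) (fun n => chi W (G n))
  have h2 : ∑ k : ZMod (2 * N + 1), ‖hat (2 * N + 1) P (fun n => chi W (G n)) k‖ ^ 2 /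
        (N * (2 * N + 1)) * fl G b r l W (ZMod.toCircle k) =
      (∑ k : ZMod (2 * N + 1), ‖hat (2 * N + 1) P (fun n => chi W (G n)) k‖ ^ 2 *
        (gs (2 * N + 1) r ((Ioc 0 l).filter (fun a => G a < 2 ^ b)) (fun n => chi W (G n)) k).re) /
        (N * (2 * N + 1)) := by
    rw [Finset.sum_div]
    refine Finset.sum_congr rfl fun k _ => ?_
    rw [fl_char]
    ring
  rw [h2, ← h1]
  push_cast
  field_simp

/-- The limit measures of a sequence of windows. -/
theorem exists_nu_win (d G : ℕ → ℕ) (hG : IsGrundy d G) (r : ℕ) (hr : 1 ≤ r)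
    (hd : (d r).testBit 2 = true) (b : ℕ) (δ : ℝ) (X N : ℕ → ℕ) (hN : Tendsto N atTop atTop)
    (hδ : ∀ᶠ j : ℕ in atTop,
      (((Ioc (X j) (X j + N j)).filter (fun a => ¬ G a < 2 ^ b)).card : ℝ) ≤ δ * N j) :
    ∃ ν : Finset ℕ → FiniteMeasure Circle, (∀ W, (ν W).mass ≤ 1) ∧
      (∀ l : ℕ,
      ∑ W ∈ (range b).powerset.erase ∅, ∫ z, fl G b r l W z ∂(ν W : Measure Circle) ≤
        -(((((Ioc 0 l).filter (fun a => G a < 2 ^ b)).card : ℕ) : ℝ) * (1 - 2 * δ))) ∧
      ∀ W, ∀ f : Circle → ℝ, Continuous f → Tendsto (fun j => Phi G b (X j) (N j) W f)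
        (hyperfilter ℕ) (𝓝 (∫ z, f z ∂(ν W : Measure Circle))) := by
  have hlev : ∀ (W : Finset ℕ) (j : ℕ), ∃ μ : FiniteMeasure Circle, μ.mass ≤ 1 ∧
      ∀ f : Circle → ℝ, Continuous f →
      ∫ z, f z ∂(μ : Measure Circle) = Phi G b (X j) (N j) W f := fun W j =>
    exists_level_win G b (X j) (N j) W
  choose μ hμ1 hμ2 using hlev
  have hlim : ∀ W : Finset ℕ, ∃ ν : FiniteMeasure Circle, ν.mass ≤ 1 ∧
      ∀ f : Circle → ℝ, Continuous f →
      Tendsto (fun N => ∫ z, f z ∂(μ W N : Measure Circle)) (hyperfilter ℕ)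
        (𝓝 (∫ z, f z ∂(ν : Measure Circle))) := fun W => exists_lim (μ W) (hμ1 W)
  choose ν hν1 hν2 using hlim
  have hν3 : ∀ W, ∀ f : Circle → ℝ, Continuous f → Tendsto (fun j => Phi G b (X j) (N j) W f)
      (hyperfilter ℕ) (𝓝 (∫ z, f z ∂(ν W : Measure Circle))) := by
    intro W f hf
    refine (hν2 W f hf).congr fun j => ?_
    exact hμ2 W j f hf
  refine ⟨ν, hν1, fun l => ?_, hν3⟩
  obtain ⟨A, hA⟩ : ∃ A : ℝ, A = ((((Ioc 0 l).filter (fun a => G a < 2 ^ b)).card : ℕ) : ℝ) :=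
    ⟨_, rfl⟩
  rw [← hA]
  have hA0 : 0 ≤ A := by rw [hA]; exact Nat.cast_nonneg _
  have h1 : Tendsto (fun j => ∑ W ∈ (range b).powerset.erase ∅,
      Phi G b (X j) (N j) W (fl G b r l W)) (hyperfilter ℕ)
      (𝓝 (∑ W ∈ (range b).powerset.erase ∅, ∫ z, fl G b r l W z ∂(ν W : Measure Circle))) :=
    tendsto_finsetSum _ fun W _ => hν3 W _ (continuous_fl G b r l W)
  have h2 : Tendsto (fun j : ℕ => -(A * (1 - 2 * δ)) + A * (((l : ℝ) + r) / (N j : ℝ)))
      (hyperfilter ℕ) (𝓝 (-(A * (1 - 2 * δ)))) := by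
    have h3 : Tendsto (fun j : ℕ => ((l : ℝ) + r) / (N j : ℝ)) atTop (𝓝 0) :=
      Tendsto.const_div_atTop (tendsto_natCast_atTop_atTop.comp hN) _
    have h4 : Tendsto (fun j : ℕ => -(A * (1 - 2 * δ)) + A * (((l : ℝ) + r) / (N j : ℝ)))
        atTop (𝓝 (-(A * (1 - 2 * δ)) + A * 0)) :=
      tendsto_const_nhds.add (h3.const_mul A)
    have h5 := h4.mono_left Nat.hyperfilter_le_atTop
    simp only [mul_zero, add_zero] at h5
    exact h5
  refine le_of_tendsto_of_tendsto h1 h2 ?_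
  have hev : ∀ᶠ j : ℕ in atTop, ∑ W ∈ (range b).powerset.erase ∅,
      Phi G b (X j) (N j) W (fl G b r l W) ≤
      -(A * (1 - 2 * δ)) + A * (((l : ℝ) + r) / (N j : ℝ)) := by
    filter_upwards [hδ, hN.eventually (eventually_ge_atTop (l + r + 1))] with j h3 h4
    have h5 := rel_win d G hG r hr hd b (X j) (N j) l (by omega)
    have hN0 : (0 : ℝ) < (N j : ℝ) := by exact_mod_cast (by omega : 0 < N j)
    rw [Finset.sum_congr rfl fun W _ => Phi_fl G b (X j) (N j) (by omega) W r l,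
      ← Finset.sum_div, div_le_iff₀ hN0]
    refine h5.trans ?_
    rw [← hA]
    have h6 : A * (((l : ℝ) + r) / (N j : ℝ)) * (N j : ℝ) = A * ((l : ℝ) + r) := by
      field_simp
    have h7 : A * (((Ioc (X j) (X j + N j)).filter (fun a => ¬ G a < 2 ^ b)).card : ℝ) ≤
        A * (δ * (N j : ℝ)) := mul_le_mul_of_nonneg_left h3 hA0
    nlinarith [h6, h7]
  exact hev.filter_mono Nat.hyperfilter_le_atTop

end H45O
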