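import Pool.Agent.Lib.H45O.Game

/-!
# Windows
-/

namespace H45O

open Finset Complex

theorem natCast_inj_window (L X : ℕ) (hL : 1 ≤ L) [NeZero (2 * L)] :
    ∀ m ∈ Ioc X (X + L), ∀ n ∈ Ioc X (X + L), (m : ZMod (2 * L)) = n → m = n := by
  intro m hm n hn h
  rw [Finset.mem_Ioc] at hm hn
  have h1 := (ZMod.natCast_eq_natCast_iff' m n (2 * L)).mp h
  have h2 : m ≡ n [MOD 2 * L] := h1
  rcases le_total m n with h3 | h3
  · have h4 := (Nat.modEq_iff_dvd' h3).mp h2
    have h5 := Nat.eq_zero_of_dvd_of_lt h4 (by omega)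
    omega
  · have h4 := (Nat.modEq_iff_dvd' h3).mp h2.symm
    have h5 := Nat.eq_zero_of_dvd_of_lt h4 (by omega)
    omega

/-- No wrap-around. -/
theorem eq_of_cast (L X r m n a : ℕ) (hm : m ∈ Ioc X (X + L)) (hn : n ∈ Ioc X (X + L))
    (ha : a ∈ Ico 1 (L - r)) (h : (n : ZMod (2 * L)) = m + a + r) : n = m + a + r := by
  rw [Finset.mem_Ioc] at hm hn
  rw [Finset.mem_Ico] at ha
  have h0 : ((n : ℕ) : ZMod (2 * L)) = ((m + a + r : ℕ) : ZMod (2 * L)) := by
    rw [h]; push_cast; ring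
  have h1 := (ZMod.natCast_eq_natCast_iff' n (m + a + r) (2 * L)).mp h0
  have h2 : n ≡ m + a + r [MOD 2 * L] := h1
  rcases le_total n (m + a + r) with h3 | h3
  · have h4 := (Nat.modEq_iff_dvd' h3).mp h2
    have h5 := Nat.eq_zero_of_dvd_of_lt h4 (by omega)
    omega
  · have h4 := (Nat.modEq_iff_dvd' h3).mp h2.symm
    have h5 := Nat.eq_zero_of_dvd_of_lt h4 (by omega)
    omega

/-- The number of all pairs. -/
theorem count_all (L X r : ℕ) (hL : 4 * (r + 1) ≤ L) :
    9 * (L : ℝ) ^ 2 / 32 ≤ ∑ m ∈ Ioc X (X + L), ∑ a ∈ Ico 1 (L - r),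
      (if m + a + r ≤ X + L then (1 : ℝ) else 0) := by
  rw [Finset.sum_comm]
  have h3 : ∀ a ∈ Ico 1 (L - r), ∑ m ∈ Ioc X (X + L), (if m + a + r ≤ X + L then (1 : ℝ) else 0)
      = (L : ℝ) - r - a := by
    intro a ha
    rw [Finset.mem_Ico] at ha
    rw [Finset.sum_ite, Finset.sum_const_zero, add_zero, Finset.sum_const, nsmul_eq_mul, mul_one]
    have h4 : (Ioc X (X + L)).filter (fun m => m + a + r ≤ X + L) = Ioc X (X + (L - r - a)) := by
      ext m
      rw [Finset.mem_filter, Finset.mem_Ioc, Finset.mem_Ioc]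
      omega
    rw [h4, Nat.card_Ioc]
    have h5 : X + (L - r - a) - X = L - r - a := by omega
    rw [h5, Nat.cast_sub (by omega), Nat.cast_sub (by omega)]
  rw [Finset.sum_congr rfl h3]
  have h4 : ∀ K : ℕ, 1 ≤ K → ∑ a ∈ Ico 1 K, ((a : ℕ) : ℝ) = (K : ℝ) * (K - 1) / 2 := by
    intro K hK
    induction K, hK using Nat.le_induction with
    | base => simp
    | succ K hK ih =>
      rw [Finset.sum_Ico_succ_top hK, ih]
      push_cast
      ring
  rw [Finset.sum_sub_distrib, h4 (L - r) (by omega), Finset.sum_const, Nat.card_Ico, nsmul_eq_mul,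
    Nat.cast_sub (by omega), Nat.cast_sub (by omega)]
  have h5 : (4 : ℝ) * (r + 1) ≤ L := by exact_mod_cast hL
  push_cast
  nlinarith [h5, sq_nonneg ((L : ℝ) - 4 * (r + 1)), Nat.cast_nonneg (α := ℝ) r]

/-- The number of the pairs in the good set. -/
theorem count_window (L X r : ℕ) (hL : 4 * (r + 1) ≤ L) (S : ℕ → Prop) [DecidablePred S]
    (hA : 20 * ((Ico 1 (L - r)).filter (fun a => ¬ S a)).card ≤ L)
    (hX : 20 * ((Ioc X (X + L)).filter (fun a => ¬ S a)).card ≤ L) :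
    (L : ℝ) ^ 2 / 8 ≤ tri (2 * L) r ((Ioc X (X + L)).filter S) ((Ico 1 (L - r)).filter S)
      (fun _ => 1) (fun _ => 1) := by
  have h1 : ∀ m ∈ (Ioc X (X + L)).filter S, ∀ a ∈ (Ico 1 (L - r)).filter S,
      (if m + a + r ≤ X + L ∧ S (m + a + r) then (1 : ℝ) else 0) ≤
      ∑ n ∈ (Ioc X (X + L)).filter S,
        if ((n : ZMod (2 * L)) = m + a + r) then (1 : ℝ) * 1 * 1 else 0 := by
    intro m hm a ha
    rw [Finset.mem_filter, Finset.mem_Ioc] at hm
    have h0 : ∀ n ∈ (Ioc X (X + L)).filter S,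
        (0 : ℝ) ≤ if ((n : ZMod (2 * L)) = m + a + r) then (1 : ℝ) * 1 * 1 else 0 := by
      intro n _
      split_ifs <;> norm_num
    by_cases h : m + a + r ≤ X + L ∧ S (m + a + r)
    · rw [if_pos h]
      have h2 := Finset.single_le_sum h0 (show m + a + r ∈ (Ioc X (X + L)).filter S by
        rw [Finset.mem_filter, Finset.mem_Ioc]; exact ⟨⟨by omega, h.1⟩, h.2⟩)
      rw [if_pos (by push_cast; ring)] at h2
      linarith
    · rw [if_neg h]
      exact Finset.sum_nonneg h0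
  have h2 : ∑ m ∈ (Ioc X (X + L)).filter S, ∑ a ∈ (Ico 1 (L - r)).filter S,
      (if m + a + r ≤ X + L ∧ S (m + a + r) then (1 : ℝ) else 0)
      ≤ tri (2 * L) r ((Ioc X (X + L)).filter S) ((Ico 1 (L - r)).filter S)
        (fun _ => 1) (fun _ => 1) := by
    unfold tri
    refine Finset.sum_le_sum fun m hm => ?_
    rw [Finset.sum_comm]
    exact Finset.sum_le_sum fun a ha => h1 m hm a ha
  refine le_trans ?_ h2
  rw [Finset.sum_filter]
  have h3 : ∀ m, (∑ a ∈ (Ico 1 (L - r)).filter S,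
      (if m + a + r ≤ X + L ∧ S (m + a + r) then (1 : ℝ) else 0)) =
      ∑ a ∈ Ico 1 (L - r), if S a then
        (if m + a + r ≤ X + L ∧ S (m + a + r) then (1 : ℝ) else 0) else 0 := by
    intro m
    rw [Finset.sum_filter]
  simp only [h3]
  have h4 : ∑ m ∈ Ioc X (X + L), ∑ a ∈ Ico 1 (L - r),
      (if m + a + r ≤ X + L then (1 : ℝ) else 0) ≤
      (∑ m ∈ Ioc X (X + L), if S m then ∑ a ∈ Ico 1 (L - r), (if S a then
        (if m + a + r ≤ X + L ∧ S (m + a + r) then (1 : ℝ) else 0) else 0) else 0) +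
      (∑ m ∈ Ioc X (X + L), ∑ a ∈ Ico 1 (L - r), (if ¬ S m then (1 : ℝ) else 0)) +
      (∑ m ∈ Ioc X (X + L), ∑ a ∈ Ico 1 (L - r), (if ¬ S a then (1 : ℝ) else 0)) +
      (∑ m ∈ Ioc X (X + L), ∑ a ∈ Ico 1 (L - r),
        (if m + a + r ≤ X + L ∧ ¬ S (m + a + r) then (1 : ℝ) else 0)) := by
    rw [← Finset.sum_add_distrib, ← Finset.sum_add_distrib, ← Finset.sum_add_distrib]
    refine Finset.sum_le_sum fun m _ => ?_
    have h5 : ∀ a, (if m + a + r ≤ X + L then (1 : ℝ) else 0) ≤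
        (if S m then (if S a then
        (if m + a + r ≤ X + L ∧ S (m + a + r) then (1 : ℝ) else 0) else 0) else 0) +
        (if ¬ S m then (1 : ℝ) else 0) + (if ¬ S a then (1 : ℝ) else 0) +
        (if m + a + r ≤ X + L ∧ ¬ S (m + a + r) then (1 : ℝ) else 0) := by
      intro a
      by_cases c1 : m + a + r ≤ X + L <;> by_cases c2 : S m <;> by_cases c3 : S a <;>
        by_cases c4 : S (m + a + r) <;> simp [c1, c2, c3, c4]
    have h6 := Finset.sum_le_sum (s := Ico 1 (L - r)) fun a _ => h5 a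
    rw [Finset.sum_add_distrib, Finset.sum_add_distrib, Finset.sum_add_distrib] at h6
    refine h6.trans (le_of_eq ?_)
    congr 3
    by_cases c2 : S m
    · simp only [if_pos c2]
    · simp only [if_neg c2, Finset.sum_const_zero]
  have hLr : (((Ico 1 (L - r)).card : ℕ) : ℝ) ≤ L := by
    rw [Nat.card_Ico]
    exact_mod_cast (by omega : L - r - 1 ≤ L)
  have hXc : (((Ioc X (X + L)).card : ℕ) : ℝ) = L := by
    rw [Nat.card_Ioc]
    congr 1
    omega
  have hA' : ((((Ico 1 (L - r)).filter (fun a => ¬ S a)).card : ℕ) : ℝ) ≤ L / 20 := by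
    have : (20 : ℝ) * ((((Ico 1 (L - r)).filter (fun a => ¬ S a)).card : ℕ) : ℝ) ≤ L := by
      exact_mod_cast hA
    linarith
  have hX' : ((((Ioc X (X + L)).filter (fun a => ¬ S a)).card : ℕ) : ℝ) ≤ L / 20 := by
    have : (20 : ℝ) * ((((Ioc X (X + L)).filter (fun a => ¬ S a)).card : ℕ) : ℝ) ≤ L := by
      exact_mod_cast hX
    linarith
  have hL0 : (0 : ℝ) ≤ L := Nat.cast_nonneg _
  have e1 : (∑ m ∈ Ioc X (X + L), ∑ a ∈ Ico 1 (L - r), (if ¬ S m then (1 : ℝ) else 0))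
      ≤ L * (L / 20) := by
    rw [Finset.sum_comm]
    have : ∀ a ∈ Ico 1 (L - r), ∑ m ∈ Ioc X (X + L), (if ¬ S m then (1 : ℝ) else 0) ≤ L / 20 := by
      intro a _
      rw [Finset.sum_ite, Finset.sum_const_zero, add_zero, Finset.sum_const, nsmul_eq_mul, mul_one]
      exact hX'
    refine (Finset.sum_le_sum this).trans ?_
    rw [Finset.sum_const, nsmul_eq_mul]
    exact mul_le_mul_of_nonneg_right hLr (by positivity)
  have e2 : (∑ m ∈ Ioc X (X + L), ∑ a ∈ Ico 1 (L - r), (if ¬ S a then (1 : ℝ) else 0))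
      ≤ L * (L / 20) := by
    have : ∀ m ∈ Ioc X (X + L), ∑ a ∈ Ico 1 (L - r), (if ¬ S a then (1 : ℝ) else 0) ≤ L / 20 := by
      intro m _
      rw [Finset.sum_ite, Finset.sum_const_zero, add_zero, Finset.sum_const, nsmul_eq_mul, mul_one]
      exact hA'
    refine (Finset.sum_le_sum this).trans ?_
    rw [Finset.sum_const, nsmul_eq_mul, hXc]
  have e3 : (∑ m ∈ Ioc X (X + L), ∑ a ∈ Ico 1 (L - r),
      (if m + a + r ≤ X + L ∧ ¬ S (m + a + r) then (1 : ℝ) else 0)) ≤ L * (L / 20) := by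
    rw [Finset.sum_comm]
    have : ∀ a ∈ Ico 1 (L - r), ∑ m ∈ Ioc X (X + L),
        (if m + a + r ≤ X + L ∧ ¬ S (m + a + r) then (1 : ℝ) else 0) ≤ L / 20 := by
      intro a _
      rw [Finset.sum_ite, Finset.sum_const_zero, add_zero, Finset.sum_const, nsmul_eq_mul, mul_one]
      refine le_trans ?_ hX'
      have hc : ((Ioc X (X + L)).filter (fun m => m + a + r ≤ X + L ∧ ¬ S (m + a + r))).card ≤
          ((Ioc X (X + L)).filter (fun a => ¬ S a)).card := by
        apply Finset.card_le_card_of_injOn (fun m => m + a + r)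
        · intro m hm
          rw [Finset.mem_coe, Finset.mem_filter, Finset.mem_Ioc] at hm
          rw [Finset.mem_coe, Finset.mem_filter, Finset.mem_Ioc]
          show (X < m + a + r ∧ m + a + r ≤ X + L) ∧ ¬ S (m + a + r)
          exact ⟨⟨by omega, hm.2.1⟩, hm.2.2⟩
        · intro m _ m' _ h
          have h' : m + a + r = m' + a + r := h
          omega
      exact_mod_cast hc
    refine (Finset.sum_le_sum this).trans ?_
    rw [Finset.sum_const, nsmul_eq_mul]
    exact mul_le_mul_of_nonneg_right hLr (by positivity)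
  have h5 := count_all L X r hL
  nlinarith [h4, h5, e1, e2, e3, sq_nonneg (L : ℝ)]

/-- The main inequality for a window, for the characters modulo `2 L`. -/
theorem window (d G : ℕ → ℕ) (hG : IsGrundy d G) (r : ℕ) (hr : 1 ≤ r)
    (hd : (d r).testBit 2 = true) (b L X : ℕ) [NeZero (2 * L)] (hL : 4 * (r + 1) ≤ L)
    (hA : 20 * ((Ico 1 (L - r)).filter (fun a => ¬ G a < 2 ^ b)).card ≤ L)
    (hX : 20 * ((Ioc X (X + L)).filter (fun a => ¬ G a < 2 ^ b)).card ≤ L) :
    ∃ W ∈ (range b).powerset.erase ∅, ∃ k : ZMod (2 * L),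
      (gs (2 * L) r ((Ico 1 (L - r)).filter (fun a => G a < 2 ^ b)) (fun n => chi W (G n)) k).re
        ≤ -((L : ℝ) / 2 ^ (b + 4)) ∧
      (L : ℝ) / 2 ^ (b + 4) ≤
        ‖hat (2 * L) ((Ioc X (X + L)).filter (fun a => G a < 2 ^ b)) (fun n => chi W (G n)) k‖ := by
  by_contra hcon
  push Not at hcon
  have hLpos : (0 : ℝ) < L := by
    have : 0 < L := by omega
    exact_mod_cast this
  obtain ⟨c, hc⟩ : ∃ c : ℝ, c = (L : ℝ) / 2 ^ (b + 4) := ⟨_, rfl⟩
  have hcpos : 0 < c := by rw [hc]; positivity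
  rw [← hc] at hcon
  obtain ⟨P, hP⟩ : ∃ P, P = (Ioc X (X + L)).filter (fun a => G a < 2 ^ b) := ⟨_, rfl⟩
  obtain ⟨A, hAd⟩ : ∃ A, A = (Ico 1 (L - r)).filter (fun a => G a < 2 ^ b) := ⟨_, rfl⟩
  have h4 := count_window L X r hL (fun a => G a < 2 ^ b) hA hX
  rw [← hP, ← hAd] at hcon h4
  have hPm : ∀ n ∈ P, n ∈ Ioc X (X + L) ∧ G n < 2 ^ b := by
    intro n hn
    rw [hP, Finset.mem_filter] at hn
    exact hn
  have hAm : ∀ n ∈ A, n ∈ Ico 1 (L - r) ∧ G n < 2 ^ b := by
    intro n hn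
    rw [hAd, Finset.mem_filter] at hn
    exact hn
  have hinjX : ∀ m ∈ P, ∀ n ∈ P, (m : ZMod (2 * L)) = n → m = n := fun m hm n hn h =>
    natCast_inj_window L X (by omega) m (hPm m hm).1 n (hPm n hn).1 h
  have hinjA : ∀ m ∈ A, ∀ n ∈ A, (m : ZMod (2 * L)) = n → m = n := by
    intro m hm n hn h
    have hm' := (hAm m hm).1
    have hn' := (hAm n hn).1
    apply natCast_inj_window L 0 (by omega) m _ n _ h
    · rw [Finset.mem_Ico] at hm'
      rw [Finset.mem_Ioc]
      omega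
    · rw [Finset.mem_Ico] at hn'
      rw [Finset.mem_Ioc]
      omega
  have hPc : ((P.card : ℕ) : ℝ) ≤ L := by
    have h1 : P.card ≤ (Ioc X (X + L)).card := by rw [hP]; exact Finset.card_filter_le _ _
    rw [Nat.card_Ioc] at h1
    exact_mod_cast (by omega : P.card ≤ L)
  have hAc : ((A.card : ℕ) : ℝ) ≤ L := by
    have h1 : A.card ≤ (Ico 1 (L - r)).card := by rw [hAd]; exact Finset.card_filter_le _ _
    rw [Nat.card_Ico] at h1
    exact_mod_cast (by omega : A.card ≤ L)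
  have h1 : ∀ W ∈ (range b).powerset.erase ∅,
      -(tri (2 * L) r P A (fun n => chi W (G n)) (fun n => chi W (G n))) ≤ 2 * c * L := by
    intro W hW
    have h2 := tri_eq (2 * L) r P A (fun n => chi W (G n)) (fun n => chi W (G n))
    have h3 : ∀ k : ZMod (2 * L), -(‖hat (2 * L) P (fun n => chi W (G n)) k‖ ^ 2 *
        (gs (2 * L) r A (fun n => chi W (G n)) k).re) ≤
        c * ‖hat (2 * L) P (fun n => chi W (G n)) k‖ ^ 2 +
        c * ((‖hat (2 * L) P (fun n => chi W (G n)) k‖ ^ 2 +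
          ‖hat (2 * L) A (fun n => chi W (G n)) k‖ ^ 2) / 2) := by
      intro k
      obtain ⟨F, hF⟩ : ∃ F : ℝ, F = ‖hat (2 * L) P (fun n => chi W (G n)) k‖ := ⟨_, rfl⟩
      obtain ⟨E, hE⟩ : ∃ E : ℝ, E = ‖hat (2 * L) A (fun n => chi W (G n)) k‖ := ⟨_, rfl⟩
      obtain ⟨z, hz⟩ : ∃ z : ℝ, z = (gs (2 * L) r A (fun n => chi W (G n)) k).re := ⟨_, rfl⟩
      have hF0 : 0 ≤ F := by rw [hF]; exact norm_nonneg _
      have hE0 : 0 ≤ E := by rw [hE]; exact norm_nonneg _
      have hzE : |z| ≤ E := by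
        rw [hz, hE, ← gs_eq (2 * L) r]
        exact Complex.abs_re_le_norm _
      have hd := hcon W hW k
      rw [← hF, ← hz] at hd
      rw [← hF, ← hE, ← hz]
      by_cases h : z ≤ -c
      · have h4 := hd h
        have h5 : -z ≤ E := (neg_le_abs z).trans hzE
        have h6 : -(F ^ 2 * z) ≤ F ^ 2 * E := by nlinarith [sq_nonneg F]
        have h7 : F ^ 2 * E ≤ c * (F * E) := by nlinarith [mul_nonneg hF0 hE0]
        nlinarith [mul_nonneg hcpos.le (sq_nonneg (F - E)), mul_nonneg hcpos.le (sq_nonneg F)]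
      · push Not at h
        nlinarith [sq_nonneg F, mul_nonneg hcpos.le (sq_nonneg F),
          mul_nonneg hcpos.le (sq_nonneg E)]
    have h4 := Finset.sum_le_sum (s := (Finset.univ : Finset (ZMod (2 * L)))) fun k _ => h3 k
    rw [Finset.sum_neg_distrib, ← h2, Finset.sum_add_distrib, ← Finset.mul_sum, ← Finset.mul_sum,
      ← Finset.sum_div, Finset.sum_add_distrib, parseval _ _ _ hinjX, parseval _ _ _ hinjA] at h4
    have h5 : ∑ m ∈ P, (chi W (G m)) ^ 2 ≤ (L : ℝ) := by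
      rw [Finset.sum_congr rfl fun m _ => chi_sq W (G m), Finset.sum_const, nsmul_eq_mul, mul_one]
      exact hPc
    have h6 : ∑ m ∈ A, (chi W (G m)) ^ 2 ≤ (L : ℝ) := by
      rw [Finset.sum_congr rfl fun m _ => chi_sq W (G m), Finset.sum_const, nsmul_eq_mul, mul_one]
      exact hAc
    push_cast at h4
    have h7 : c * (2 * L * (∑ m ∈ A, (chi W (G m)) ^ 2)) ≤ c * (2 * L * L) := by
      apply mul_le_mul_of_nonneg_left _ hcpos.le
      apply mul_le_mul_of_nonneg_left h6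
      positivity
    have h7' : c * (2 * L * (∑ m ∈ P, (chi W (G m)) ^ 2)) ≤ c * (2 * L * L) := by
      apply mul_le_mul_of_nonneg_left _ hcpos.le
      apply mul_le_mul_of_nonneg_left h5
      positivity
    have h8 : (2 * (L : ℝ)) * (-(tri (2 * L) r P A
        (fun n => chi W (G n)) (fun n => chi W (G n)))) ≤ (2 * (L : ℝ)) * (2 * c * L) := by
      nlinarith [h4, h7, h7']
    exact le_of_mul_le_mul_left h8 (by positivity)
  have h2 := key (2 * L) r b P A G (fun n hn => (hPm n hn).2) (fun a ha => (hAm a ha).2) (by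
    intro m hm n hn a ha h
    rw [eq_of_cast L X r m n a (hPm m hm).1 (hPm n hn).1 (hAm a ha).1 h]
    have hm' := (hPm m hm).1
    have ha' := (hAm a ha).1
    rw [Finset.mem_Ioc] at hm'
    rw [Finset.mem_Ico] at ha'
    exact hG.ne hr hd (by omega) ha'.1)
  have h3 := Finset.sum_le_sum h1
  rw [Finset.sum_neg_distrib, h2, neg_neg, Finset.sum_const, nsmul_eq_mul] at h3
  have h5 : ((((range b).powerset.erase ∅).card : ℕ) : ℝ) = 2 ^ b - 1 := by
    rw [Finset.card_erase_of_mem (Finset.empty_mem_powerset _), Finset.card_powerset,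
      Finset.card_range, Nat.cast_sub Nat.one_le_two_pow]
    push_cast
    ring
  rw [h5] at h3
  have h6 : (2 : ℝ) ^ (b + 4) * c = L := by rw [hc]; field_simp
  have h7 : (2 : ℝ) ^ (b + 4) = 16 * 2 ^ b := by rw [pow_add]; norm_num; ring
  rw [h7] at h6
  have h8 : (0 : ℝ) < 2 ^ b := by positivity
  nlinarith [h3, h4, h6, mul_pos hcpos hLpos]

end H45O
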